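import Pool.Agent.H88.IG.Df

/-!
# IG, part S: a directed set of size at most `ω₁` is an increasing union of countable directed sets

Proof. Let `e ∈ N` be a function from `δ` onto `D` (`cvr_onto`), `m ∈ N` a function on `D × D` with `m(a, b) ∈ D`,
`a ⊆ m(a, b)`, `b ⊆ m(a, b)` (`exists_choice`). For `x ∈ δ` let `g(x)` be the set of all `d ∈ D` that are in all
`E ⊆ D`, `E ∈ N`, which are closed under `m` and contain `e(y)` for all `y ∈ x ∪ {x}` (`exists_fn` with values in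
`W` = the power set of `D` in `N`). `g(x)` is closed under `m`, hence directed, it contains `e(x)`, and it is increasing.
`g(x)` is countable: let `K` be a level `V_o` of `N`, `o` limit, that contains `D` (`exists_closed`/`exists_Lv`, `finZ_mem_Lv`), and
apply `exists_hull` to `Y = K`, `A = {e(y) : y ∈ x ∪ {x}}` (countable) and `Φ v w` := `(v, w) ∈ m` (here `v` is a pair
`(a, b) = {{a, a}, {a, b}}` (`pair_eq_upair`); the pairs of elements of the hull `Z` are in `Z` because `Z` contains its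
finite subsets). So `Z ∩ D` is closed under `m`, and `g(x) ⊆ Z`.
-/

set_option autoImplicit false
set_option linter.unusedVariables false
set_option linter.unusedSectionVars false
set_option linter.unusedSimpArgs false
set_option linter.unusedTactic false
set_option linter.unreachableTactic false

namespace Pool.Agent.H88.IG

open Pool.Agent.H17.Omega Pool.Agent.H17.Omega.CTM Pool.Agent.H52.GX Pool.Agent.H52.GC Pool.Agent.H7.IG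

variable {N : Set ZFSet.{0}} (hN : CTM N)

include hN

theorem clB_Y {A : ZFSet.{0}} (hA : A ∈ N) : ∃ Y ∈ N, A ⊆ Y ∧ ∀ a, FinZ a → a ⊆ Y → a ∈ Y := by
  obtain ⟨o, ho, hrank, hsucc, _⟩ := hN.exists_closed (Φ := fun z w => w = z) (by
    exact Dfn.eq (DT.var _) (DT.var _)) (fun z => ⟨z, rfl⟩) ⟨A, hA⟩
  obtain ⟨K, hK, hK'⟩ := exists_Lv hN ho
  refine ⟨K, hK, ?_, ?_⟩
  · intro z hz
    exact (hK' z).2 ⟨hN.mem_of_mem hA hz, (ZFSet.rank_lt_of_mem hz).trans hrank⟩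
  · intro a ha haK
    have h0 : 0 < o := lt_of_le_of_lt zero_le hrank
    exact (hK' a).2 (finZ_mem_Lv hN hsucc h0 ha fun x hx => (hK' x).1 (haK hx))

omit hN in
theorem clB_pair {Z : ZFSet.{0}} (hZ : ∀ a, FinZ a → a ⊆ Z → a ∈ Z) {x y : ZFSet.{0}} (hx : x ∈ Z)
    (hy : y ∈ Z) : ZFSet.pair x y ∈ Z := by
  classical
  have h : ∀ x y : ZFSet.{0}, x ∈ Z → y ∈ Z → ({x, y} : ZFSet.{0}) ∈ Z := by
    intro x y hx hy
    refine hZ _ ⟨{x, y}, fun z => ?_⟩ ?_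
    · rw [ZFSet.mem_pair, Finset.mem_insert, Finset.mem_singleton]
    · intro z hz
      rw [ZFSet.mem_pair] at hz
      rcases hz with rfl | rfl
      · exact hx
      · exact hy
  rw [pair_eq_upair]
  exact h _ _ (h _ _ hx hx) (h _ _ hx hy)

theorem exists_dirchain {δ : Ordinal.{0}} (hδ : IsOm1 N δ) {D : ZFSet.{0}} (hD : D ∈ N) (hne : ∃ d, d ∈ D)
    (hc : Cvr N δ.toZFSet D) (hdir : Dir D) :
    ∃ W ∈ N, ∃ g ∈ N, Fn g δ.toZFSet W ∧ (∀ x ∈ δ.toZFSet, ap g x ⊆ D ∧ Ctb N (ap g x) ∧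
      (∃ d, d ∈ ap g x) ∧ Dir (ap g x)) ∧ (∀ x ∈ δ.toZFSet, ∀ y ∈ x, ap g y ⊆ ap g x) ∧
      ∀ d ∈ D, ∃ x ∈ δ.toZFSet, d ∈ ap g x := by
  classical
  obtain ⟨e, he, hef, heo⟩ := cvr_onto hN hδ.mem hD hc hne
  have hDN : ∀ {z}, z ∈ D → z ∈ N := fun hz => hN.mem_of_mem hD hz
  obtain ⟨m, hm, hmf, hmF⟩ := exists_choice hN (F := fun p c => ∀ a b : N, p.1 = ZFSet.pair a.1 b.1 →
    a.1 ⊆ c.1 ∧ b.1 ⊆ c.1) (by
    (repeat' first
      | exact DT.var _ | exact DT.last | exact DT.const _ | assumption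
      | refine Dfn.pairMem ?_ ?_ ?_ | refine Dfn.isPair ?_ ?_ ?_ | refine Dfn.mem ?_ ?_
      | refine Dfn.eqv ?_ ?_ | refine Dfn.eq ?_ ?_ | refine Dfn.subset ?_ ?_
      | refine Dfn.isEmpty ?_ | refine Dfn.isTrans ?_ | refine Dfn.isOrd ?_ | refine Dfn.isNat ?_
      | refine Dfn.isUpair ?_ ?_ ?_ | refine Dfn.isInsert ?_ ?_ ?_
      | refine Dfn.and ?_ ?_ | refine Dfn.or ?_ ?_ | refine Dfn.iff ?_ ?_ | refine Dfn.not ?_
      | refine Dfn.imp ?_ ?_ | refine Dfn.all ?_ | refine Dfn.ex ?_ | exact Dfn.false'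
      | refine Dfn.ballZ ?_ ?_ | refine Dfn.bexZ ?_ ?_ | exact Dfn.const _)) (hN.prod_mem hD hD) hD (by
    intro p hp
    obtain ⟨a, ha, b, hb, hab⟩ := ZFSet.mem_prod.1 hp
    obtain ⟨c, hc, hac, hbc⟩ := hdir a ha b hb
    refine ⟨⟨c, hDN hc⟩, hc, fun a' b' h => ?_⟩
    rw [hab, ZFSet.pair_inj] at h
    exact ⟨h.1 ▸ hac, h.2 ▸ hbc⟩)
  -- closed sets
  let Cl : N → Prop := fun E => E.1 ⊆ (⟨D, hD⟩ : N).1 ∧ ∀ a b c p : N, a.1 ∈ E.1 → b.1 ∈ E.1 →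
    p.1 = ZFSet.pair a.1 b.1 → ZFSet.pair p.1 c.1 ∈ (⟨m, hm⟩ : N).1 → c.1 ∈ E.1
  let St : N → N → Prop := fun E x => ∀ y c : N, (y.1 ∈ x.1 ∨ y = x) → ZFSet.pair y.1 c.1 ∈ (⟨e, he⟩ : N).1 →
    c.1 ∈ E.1
  let G : N → N → Prop := fun x d => d.1 ∈ (⟨D, hD⟩ : N).1 ∧ ∀ E : N, Cl E → St E x → d.1 ∈ E.1
  have hG : hN.Dfn (fun v : Fin 2 → N => G (v 0) (v 1)) := by
    show hN.Dfn (fun v : Fin 2 → N => (v 1).1 ∈ (⟨D, hD⟩ : N).1 ∧ ∀ E : N, (E.1 ⊆ (⟨D, hD⟩ : N).1 ∧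
      ∀ a b c p : N, a.1 ∈ E.1 → b.1 ∈ E.1 →
      p.1 = ZFSet.pair a.1 b.1 → ZFSet.pair p.1 c.1 ∈ (⟨m, hm⟩ : N).1 → c.1 ∈ E.1) →
      (∀ y c : N, (y.1 ∈ (v 0).1 ∨ y = v 0) → ZFSet.pair y.1 c.1 ∈ (⟨e, he⟩ : N).1 →
      c.1 ∈ E.1) → (v 1).1 ∈ E.1)
    (repeat' first
      | exact DT.var _ | exact DT.last | exact DT.const _ | assumption
      | refine Dfn.pairMem ?_ ?_ ?_ | refine Dfn.isPair ?_ ?_ ?_ | refine Dfn.mem ?_ ?_
      | refine Dfn.eqv ?_ ?_ | refine Dfn.eq ?_ ?_ | refine Dfn.subset ?_ ?_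
      | refine Dfn.isEmpty ?_ | refine Dfn.isTrans ?_ | refine Dfn.isOrd ?_ | refine Dfn.isNat ?_
      | refine Dfn.isUpair ?_ ?_ ?_ | refine Dfn.isInsert ?_ ?_ ?_
      | refine Dfn.and ?_ ?_ | refine Dfn.or ?_ ?_ | refine Dfn.iff ?_ ?_ | refine Dfn.not ?_
      | refine Dfn.imp ?_ ?_ | refine Dfn.all ?_ | refine Dfn.ex ?_ | exact Dfn.false'
      | refine Dfn.ballZ ?_ ?_ | refine Dfn.bexZ ?_ ?_ | exact Dfn.const _)
  obtain ⟨P, hP, hP'⟩ := hN.exists_pow hD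
  obtain ⟨g, hg, hgf, hgF⟩ := exists_fn hN (F := fun x s => ∀ d : N, d.1 ∈ s.1 ↔ G x d) (by
    (repeat' first
      | exact DT.var _ | exact DT.last | exact DT.const _ | assumption
      | refine Dfn.pairMem ?_ ?_ ?_ | refine Dfn.isPair ?_ ?_ ?_ | refine Dfn.mem ?_ ?_
      | refine Dfn.eqv ?_ ?_ | refine Dfn.eq ?_ ?_ | refine Dfn.subset ?_ ?_
      | refine Dfn.isEmpty ?_ | refine Dfn.isTrans ?_ | refine Dfn.isOrd ?_ | refine Dfn.isNat ?_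
      | refine Dfn.isUpair ?_ ?_ ?_ | refine Dfn.isInsert ?_ ?_ ?_
      | refine Dfn.and ?_ ?_ | refine Dfn.or ?_ ?_ | refine Dfn.iff ?_ ?_ | refine Dfn.not ?_
      | refine Dfn.imp ?_ ?_ | refine Dfn.all ?_ | refine Dfn.ex ?_ | exact Dfn.false'
      | refine Dfn.ballZ ?_ ?_ | refine Dfn.bexZ ?_ ?_ | exact Dfn.const _)) hδ.mem hP (by
    intro x hx
    obtain ⟨s, hs, hs'⟩ := hN.exists_sep (P := fun d => G x d) (Dfn.subst2 hG (DT.const _) (DT.var _)) hD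
    have h1 : ∀ d : N, d.1 ∈ s ↔ G x d := fun d => (hs' d.1).trans
      ⟨fun ⟨_, _, h⟩ => h, fun h => ⟨h.1, d.2, h⟩⟩
    refine ⟨⟨s, hs⟩, (hP' s).2 ⟨hs, fun d hd => ((hs' d).1 hd).1⟩, h1, fun s' _ h2 => ?_⟩
    exact Subtype.ext (hN.ext' s'.2 hs fun z => (h2 z).trans (h1 z).symm))
  have hgx : ∀ x : N, x.1 ∈ δ.toZFSet → ∀ d : N, d.1 ∈ ap g x.1 ↔ G x d := by
    intro x hx
    obtain ⟨h1, h2⟩ := hgf.ap_mem hx
    have h3 := (hgF x ⟨_, hN.mem_of_mem hP h1⟩).1 h2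
    exact h3.2.2
  have hgxN : ∀ x ∈ δ.toZFSet, ap g x ∈ N := fun x hx => hN.mem_of_mem hP (hgf.ap_mem hx).1
  have hxN : ∀ x ∈ δ.toZFSet, x ∈ N := fun x hx => hN.mem_of_mem hδ.mem hx
  have hsub : ∀ x ∈ δ.toZFSet, ap g x ⊆ D := by
    intro x hx d hd
    exact ((hgx ⟨x, hxN x hx⟩ hx ⟨d, hN.mem_of_mem (hgxN x hx) hd⟩).1 hd).1
  have hmem : ∀ x ∈ δ.toZFSet, ap e x ∈ ap g x := by
    intro x hx
    obtain ⟨h1, h2⟩ := hef.ap_mem hx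
    refine (hgx ⟨x, hxN x hx⟩ hx ⟨_, hDN h1⟩).2 ⟨h1, fun E _ hE => ?_⟩
    exact hE ⟨x, hxN x hx⟩ ⟨_, hDN h1⟩ (Or.inr rfl) h2
  obtain ⟨Y, hY, hDY, hYf⟩ := clB_Y hN hD
  refine ⟨P, hP, g, hg, hgf, fun x hx => ⟨hsub x hx, ?_, ⟨_, hmem x hx⟩, ?_⟩, ?_, ?_⟩
  · -- countable
    obtain ⟨ξ, hξ, rfl⟩ := Ordinal.mem_toZFSet_iff.1 hx
    have hxN' := hxN _ hx
    obtain ⟨A, hA, hA'⟩ := hN.exists_sep (P := fun c => ∃ y : N, (y.1 ∈ (⟨ξ.toZFSet, hxN'⟩ : N).1 ∨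
      y = (⟨ξ.toZFSet, hxN'⟩ : N)) ∧ ZFSet.pair y.1 c.1 ∈ (⟨e, he⟩ : N).1) (by
      (repeat' first
      | exact DT.var _ | exact DT.last | exact DT.const _ | assumption
      | refine Dfn.pairMem ?_ ?_ ?_ | refine Dfn.isPair ?_ ?_ ?_ | refine Dfn.mem ?_ ?_
      | refine Dfn.eqv ?_ ?_ | refine Dfn.eq ?_ ?_ | refine Dfn.subset ?_ ?_
      | refine Dfn.isEmpty ?_ | refine Dfn.isTrans ?_ | refine Dfn.isOrd ?_ | refine Dfn.isNat ?_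
      | refine Dfn.isUpair ?_ ?_ ?_ | refine Dfn.isInsert ?_ ?_ ?_
      | refine Dfn.and ?_ ?_ | refine Dfn.or ?_ ?_ | refine Dfn.iff ?_ ?_ | refine Dfn.not ?_
      | refine Dfn.imp ?_ ?_ | refine Dfn.all ?_ | refine Dfn.ex ?_ | exact Dfn.false'
      | refine Dfn.ballZ ?_ ?_ | refine Dfn.bexZ ?_ ?_ | exact Dfn.const _)) hD
    have hξs : Order.succ ξ < δ := hδ.succ_lt hN hξ
    have hAc : Ctb N A := by
      refine Ctb.image hN (hδ.ctb _ hξs) (hN.toZFSet_mem_of_le hξs.le hδ.mem)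
        (F := fun y c => ZFSet.pair y.1 c.1 ∈ (⟨e, he⟩ : N).1) (by
        (repeat' first
      | exact DT.var _ | exact DT.last | exact DT.const _ | assumption
      | refine Dfn.pairMem ?_ ?_ ?_ | refine Dfn.isPair ?_ ?_ ?_ | refine Dfn.mem ?_ ?_
      | refine Dfn.eqv ?_ ?_ | refine Dfn.eq ?_ ?_ | refine Dfn.subset ?_ ?_
      | refine Dfn.isEmpty ?_ | refine Dfn.isTrans ?_ | refine Dfn.isOrd ?_ | refine Dfn.isNat ?_
      | refine Dfn.isUpair ?_ ?_ ?_ | refine Dfn.isInsert ?_ ?_ ?_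
      | refine Dfn.and ?_ ?_ | refine Dfn.or ?_ ?_ | refine Dfn.iff ?_ ?_ | refine Dfn.not ?_
      | refine Dfn.imp ?_ ?_ | refine Dfn.all ?_ | refine Dfn.ex ?_ | exact Dfn.false'
      | refine Dfn.ballZ ?_ ?_ | refine Dfn.bexZ ?_ ?_ | exact Dfn.const _)) ?_ ?_
      · intro y _ c c' h1 h2
        exact Subtype.ext ((hef.ap_eq h1).symm.trans (hef.ap_eq h2))
      · intro c hc
        obtain ⟨_, hcN, y, h1, h2⟩ := (hA' c).1 hc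
        refine ⟨y, ⟨c, hcN⟩, ?_, rfl, h2⟩
        rcases h1 with h1 | h1
        · obtain ⟨η, hη, h3⟩ := Ordinal.mem_toZFSet_iff.1 h1
          rw [← h3]
          exact Ordinal.toZFSet_mem_toZFSet_iff.2 (hη.trans (Order.lt_succ ξ))
        · rw [h1]
          exact Ordinal.toZFSet_mem_toZFSet_iff.2 (Order.lt_succ ξ)
    have hAD : A ⊆ D := fun c hc => ((hA' c).1 hc).1
    obtain ⟨Z, hZ, hAZ, hZY, hZc, hZf, hZΦ⟩ := exists_hull hN (Φ := fun v w =>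
      ZFSet.pair v.1 w.1 ∈ (⟨m, hm⟩ : N).1) (by
      (repeat' first
      | exact DT.var _ | exact DT.last | exact DT.const _ | assumption
      | refine Dfn.pairMem ?_ ?_ ?_ | refine Dfn.isPair ?_ ?_ ?_ | refine Dfn.mem ?_ ?_
      | refine Dfn.eqv ?_ ?_ | refine Dfn.eq ?_ ?_ | refine Dfn.subset ?_ ?_
      | refine Dfn.isEmpty ?_ | refine Dfn.isTrans ?_ | refine Dfn.isOrd ?_ | refine Dfn.isNat ?_
      | refine Dfn.isUpair ?_ ?_ ?_ | refine Dfn.isInsert ?_ ?_ ?_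
      | refine Dfn.and ?_ ?_ | refine Dfn.or ?_ ?_ | refine Dfn.iff ?_ ?_ | refine Dfn.not ?_
      | refine Dfn.imp ?_ ?_ | refine Dfn.all ?_ | refine Dfn.ex ?_ | exact Dfn.false'
      | refine Dfn.ballZ ?_ ?_ | refine Dfn.bexZ ?_ ?_ | exact Dfn.const _)) hY hYf hA (fun c hc => hDY (hAD hc)) hAc
    refine hZc.mono fun d hd => ?_
    have hdN := hN.mem_of_mem (hgxN _ hx) hd
    obtain ⟨E, hE, hE'⟩ := hN.exists_sep (P := fun c => c.1 ∈ (⟨Z, hZ⟩ : N).1) (by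
      (repeat' first
      | exact DT.var _ | exact DT.last | exact DT.const _ | assumption
      | refine Dfn.pairMem ?_ ?_ ?_ | refine Dfn.isPair ?_ ?_ ?_ | refine Dfn.mem ?_ ?_
      | refine Dfn.eqv ?_ ?_ | refine Dfn.eq ?_ ?_ | refine Dfn.subset ?_ ?_
      | refine Dfn.isEmpty ?_ | refine Dfn.isTrans ?_ | refine Dfn.isOrd ?_ | refine Dfn.isNat ?_
      | refine Dfn.isUpair ?_ ?_ ?_ | refine Dfn.isInsert ?_ ?_ ?_
      | refine Dfn.and ?_ ?_ | refine Dfn.or ?_ ?_ | refine Dfn.iff ?_ ?_ | refine Dfn.not ?_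
      | refine Dfn.imp ?_ ?_ | refine Dfn.all ?_ | refine Dfn.ex ?_ | exact Dfn.false'
      | refine Dfn.ballZ ?_ ?_ | refine Dfn.bexZ ?_ ?_ | exact Dfn.const _)) hD
    have h1 := ((hgx ⟨_, hxN'⟩ hx ⟨d, hdN⟩).1 hd).2 ⟨E, hE⟩ ⟨fun c hc => ((hE' c).1 hc).1, ?_⟩ ?_
    · obtain ⟨_, _, h2⟩ := (hE' d).1 h1
      exact h2
    · intro a b c p ha hb hp hpc
      obtain ⟨haD, _, haZ⟩ := (hE' a.1).1 ha
      obtain ⟨hbD, _, hbZ⟩ := (hE' b.1).1 hb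
      obtain ⟨p', _, c', hc', h3⟩ := hmf.sub _ hpc
      rw [ZFSet.pair_inj] at h3
      have hcD : c.1 ∈ D := h3.2 ▸ hc'
      have hpZ : p.1 ∈ Z := by rw [hp]; exact clB_pair hZf haZ hbZ
      obtain ⟨c'', h4, h5⟩ := hZΦ p c hpZ (hDY hcD) hpc
      have h6 : c'' = c := Subtype.ext ((hmf.ap_eq h5).symm.trans (hmf.ap_eq hpc))
      rw [h6] at h4
      exact (hE' c.1).2 ⟨hcD, c.2, h4⟩
    · intro y c h3 h4
      obtain ⟨y', _, c', hc', h5⟩ := hef.sub _ h4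
      rw [ZFSet.pair_inj] at h5
      have hcD : c.1 ∈ D := h5.2 ▸ hc'
      exact (hE' c.1).2 ⟨hcD, c.2, hAZ ((hA' c.1).2 ⟨hcD, c.2, y, h3, h4⟩)⟩
  · -- directed
    intro a ha b hb
    have haD := hsub x hx ha
    have hbD := hsub x hx hb
    have hab : ZFSet.pair a b ∈ ZFSet.prod D D := ZFSet.pair_mem_prod.2 ⟨haD, hbD⟩
    obtain ⟨h1, h2⟩ := hmf.ap_mem hab
    have h3 := hmF ⟨_, hN.pair_mem (hDN haD) (hDN hbD)⟩ ⟨_, hDN h1⟩ h2 ⟨a, hDN haD⟩ ⟨b, hDN hbD⟩ rfl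
    refine ⟨_, ?_, h3.1, h3.2⟩
    refine (hgx ⟨x, hxN x hx⟩ hx ⟨_, hDN h1⟩).2 ⟨h1, fun E hE hE' => ?_⟩
    exact hE.2 ⟨a, hDN haD⟩ ⟨b, hDN hbD⟩ ⟨_, hDN h1⟩ ⟨_, hN.pair_mem (hDN haD) (hDN hbD)⟩
      (((hgx ⟨x, hxN x hx⟩ hx ⟨a, hDN haD⟩).1 ha).2 E hE hE')
      (((hgx ⟨x, hxN x hx⟩ hx ⟨b, hDN hbD⟩).1 hb).2 E hE hE') rfl h2
  · -- increasing
    intro x hx y hy d hd
    obtain ⟨ξ, hξ, rfl⟩ := Ordinal.mem_toZFSet_iff.1 hx
    obtain ⟨η, hη, rfl⟩ := Ordinal.mem_toZFSet_iff.1 hy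
    have hyδ : η.toZFSet ∈ δ.toZFSet := Ordinal.toZFSet_mem_toZFSet_iff.2 (hη.trans hξ)
    have hdN := hN.mem_of_mem (hgxN _ hyδ) hd
    obtain ⟨h1, h2⟩ := (hgx ⟨_, hxN _ hyδ⟩ hyδ ⟨d, hdN⟩).1 hd
    refine (hgx ⟨_, hxN _ hx⟩ hx ⟨d, hdN⟩).2 ⟨h1, fun E hE hE' => h2 E hE ?_⟩
    intro z c hz hzc
    refine hE' z c (Or.inl ?_) hzc
    rcases hz with hz | hz
    · obtain ⟨ζ, hζ, h3⟩ := Ordinal.mem_toZFSet_iff.1 hz
      show z.1 ∈ ξ.toZFSet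
      rw [← h3]
      exact Ordinal.toZFSet_mem_toZFSet_iff.2 (hζ.trans hη)
    · rw [hz]
      exact hy
  · intro d hd
    obtain ⟨x, hx, hxd⟩ := heo d hd
    refine ⟨x, hx, ?_⟩
    rw [← hef.ap_eq hxd]
    exact hmem x hx

end Pool.Agent.H88.IG
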