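import Pool.Agent.H88.IG.ClA
import Pool.Agent.H88.IG.ClB

/-!
# IG, part S: clubs are closed under directed unions of size at most `ω₁`

Proof. Take `g` from `exists_dirchain`; `f = {(x, u) : u = ⋃ g(x)}` is a function from `δ` to `C` (`club_dir_ctb`,
`exists_fn`); apply `clo` with `ξ = δ` (`Cvr N δ δ`: `cvr_of_subset`; `0 < δ`: `IsOm1.omega_lt`).
-/

set_option autoImplicit false
set_option linter.unusedVariables false
set_option linter.unusedSectionVars false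
set_option linter.unusedSimpArgs false
set_option linter.unusedTactic false
set_option linter.unreachableTactic false

namespace Pool.Agent.H88.IG

open Pool.Agent.H17.Omega Pool.Agent.H17.Omega.CTM Pool.Agent.H52.GX Pool.Agent.H52.GC Pool.Agent.H7.IG

variable {N : Set ZFSet.{0}} (hN : CTM N)

include hN

theorem club_directed {δ : Ordinal.{0}} (hδ : IsOm1 N δ) {h C D : ZFSet.{0}} (hC : C ∈ N) (hcl : Club N δ h C)
    (hD : D ∈ N) (hDC : D ⊆ C) (hne : ∃ d, d ∈ D) (hdir : Dir D) (hc : Cvr N δ.toZFSet D) :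
    ZFSet.sUnion D ∈ C := by
  obtain ⟨W, hW, g, hg, hgf, hg1, hmono, hcov⟩ := exists_dirchain hN hδ hD hne hc hdir
  have hd : hN.Dfn (fun v : Fin 2 → N => ∃ a : N, ZFSet.pair (v 0).1 a.1 ∈ (⟨g, hg⟩ : N).1 ∧
      ∀ z : N, z.1 ∈ (v 1).1 ↔ ∃ w : N, w.1 ∈ a.1 ∧ z.1 ∈ w.1) := by
    (repeat' first
      | exact DT.var _ | exact DT.last | exact DT.const _ | assumption
      | refine Dfn.pairMem ?_ ?_ ?_ | refine Dfn.isPair ?_ ?_ ?_ | refine Dfn.mem ?_ ?_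
      | refine Dfn.eqv ?_ ?_ | refine Dfn.eq ?_ ?_ | refine Dfn.subset ?_ ?_
      | refine Dfn.and ?_ ?_ | refine Dfn.or ?_ ?_ | refine Dfn.iff ?_ ?_ | refine Dfn.not ?_
      | refine Dfn.imp ?_ ?_ | refine Dfn.all ?_ | refine Dfn.ex ?_ | exact Dfn.false')
  have hgN : ∀ x ∈ δ.toZFSet, ap g x ∈ N := fun x hx => hN.mem_of_mem hW (hgf.ap_mem hx).1
  obtain ⟨f, hf, hff, hf'⟩ := exists_fn hN (F := fun x u => ∃ a : N, ZFSet.pair x.1 a.1 ∈ (⟨g, hg⟩ : N).1 ∧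
      ∀ z : N, z.1 ∈ u.1 ↔ ∃ w : N, w.1 ∈ a.1 ∧ z.1 ∈ w.1) hd hδ.mem hC (by
    intro x hx
    obtain ⟨h1, h2, h3, h4⟩ := hg1 x.1 hx
    have hu : ZFSet.sUnion (ap g x.1) ∈ C :=
      club_dir_ctb hN hδ hC hcl (hgN x.1 hx) (fun z hz => hDC (h1 hz)) h3 h4 h2
    refine ⟨⟨_, hN.mem_of_mem hC hu⟩, hu, ⟨⟨_, hgN x.1 hx⟩, (hgf.ap_mem hx).2, fun z => ?_⟩, ?_⟩
    · show z.1 ∈ ZFSet.sUnion (ap g x.1) ↔ _
      rw [ZFSet.mem_sUnion]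
      exact ⟨fun ⟨w, hw, hz⟩ => ⟨⟨w, hN.mem_of_mem (hgN x.1 hx) hw⟩, hw, hz⟩, fun ⟨w, hw, hz⟩ => ⟨w.1, hw, hz⟩⟩
    · rintro y' _ ⟨a, ha, hy'⟩
      have ha' := hgf.ap_eq ha
      apply Subtype.ext
      ext z
      show z ∈ y'.1 ↔ z ∈ ZFSet.sUnion (ap g x.1)
      rw [ZFSet.mem_sUnion, ha']
      constructor
      · intro hz
        obtain ⟨w, hw, hzw⟩ := (hy' ⟨z, hN.mem_of_mem y'.2 hz⟩).1 hz
        exact ⟨w.1, hw, hzw⟩
      · rintro ⟨w, hw, hzw⟩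
        have hwN := hN.mem_of_mem a.2 hw
        exact (hy' ⟨z, hN.mem_of_mem hwN hzw⟩).2 ⟨⟨w, hwN⟩, hw, hzw⟩)
  have hfap : ∀ x ∈ δ.toZFSet, ap f x = ZFSet.sUnion (ap g x) := by
    intro x hx
    have hxN := hN.mem_of_mem hδ.mem hx
    obtain ⟨h1, h2⟩ := hff.ap_mem hx
    obtain ⟨_, _, a, ha, h3⟩ := (hf' ⟨x, hxN⟩ ⟨ap f x, hN.mem_of_mem hC h1⟩).1 h2
    have ha' := hgf.ap_eq ha
    ext z
    rw [ZFSet.mem_sUnion, ha']
    constructor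
    · intro hz
      obtain ⟨w, hw, hzw⟩ := (h3 ⟨z, hN.mem_of_mem (hN.mem_of_mem hC h1) hz⟩).1 hz
      exact ⟨w.1, hw, hzw⟩
    · rintro ⟨w, hw, hzw⟩
      have hwN := hN.mem_of_mem a.2 hw
      exact (h3 ⟨z, hN.mem_of_mem hwN hzw⟩).2 ⟨⟨w, hwN⟩, hw, hzw⟩
  have h0 : (0 : Ordinal.{0}) < δ := by exact_mod_cast IsOm1.omega_lt hN hδ 0
  refine hcl.clo δ h0 (cvr_of_subset hN hδ.mem (fun x hx => hx)) f hf hff ?_ (ZFSet.sUnion D) (hN.sUnion_mem hD) ?_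
  · intro α β x y hαβ hx hy
    obtain ⟨a, ha, _, _, h1⟩ := hff.sub _ hx
    obtain ⟨b, hb, _, _, h2⟩ := hff.sub _ hy
    rw [ZFSet.pair_inj] at h1 h2
    rw [← h1.1] at ha
    rw [← h2.1] at hb
    rw [← hff.ap_eq hx, ← hff.ap_eq hy, hfap _ ha, hfap _ hb]
    intro z hz
    obtain ⟨w, hw, hzw⟩ := ZFSet.mem_sUnion.1 hz
    exact ZFSet.mem_sUnion.2 ⟨w, hmono _ hb _ (Ordinal.toZFSet_mem_toZFSet_iff.2 hαβ) hw, hzw⟩
  · intro z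
    rw [ZFSet.mem_sUnion]
    constructor
    · rintro ⟨d, hd, hz⟩
      obtain ⟨x, hx, hdx⟩ := hcov d hd
      refine ⟨x, ap f x, (hff.ap_mem hx).2, ?_⟩
      rw [hfap x hx, ZFSet.mem_sUnion]
      exact ⟨d, hdx, hz⟩
    · rintro ⟨x, y, hxy, hz⟩
      obtain ⟨a, ha, _, _, h1⟩ := hff.sub _ hxy
      rw [ZFSet.pair_inj] at h1
      rw [← h1.1] at ha
      rw [← hff.ap_eq hxy, hfap x ha, ZFSet.mem_sUnion] at hz
      obtain ⟨w, hw, hzw⟩ := hz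
      exact ⟨w, (hg1 x ha).1 hw, hzw⟩

end Pool.Agent.H88.IG
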