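import Pool.Agent.H88.IG.TX1

/-!
# IG, part S: the branches of the tree `TX δ X g`

`exists_BXs`: the set of all `BX δ X g B`, `B ∈ X` (`exists_repl` with the relation `b ⊆ TX`-definition; `Cvr` by
`cvr_of_dfn` for the definable function `B ↦ BX δ X g B` and `Cvr.trans`).
`lin_BX`: `(x, B ∩ g(x))`, `(x', B ∩ g(x'))` with `x ∈ x'`: `(B ∩ g(x')) ∩ g(x) = B ∩ g(x)`.
`BX_cov`: let `C` be an uncountable chain and `A' = ⋃ {y : (x, y) ∈ C}` (an element of `N`: separation from `⋃ X`). The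
first coordinates of the elements of `C` determine the elements; so they form an uncountable, hence unbounded, subset of `δ`
(`ctb_iff_bdd`). For `(x, y) ∈ C`: `A' ∩ g(x) = y`. `A' ⊆ Y`. For `a ∈ X` countable: `a ∩ Y ∈ X` is countable and a
subset of `X`, so `a ∩ Y ⊆ g(x)` for some `x ∈ δ`, and we may take `x` with `(x, y) ∈ C` for some `y` (`hmon`). So
`A' ∩ a = (A' ∩ g(x)) ∩ a = y ∩ a ∈ X` (`A' ⊆ Y`). By `Guess N X` there is `B ∈ X` that agrees with `A'` on `X`. As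
`g(x) ⊆ X` (countable members of `X` are subsets of `X`), `y = B ∩ g(x)` for all `(x, y) ∈ C`.
-/

set_option autoImplicit false
set_option linter.unusedVariables false
set_option linter.unusedSectionVars false
set_option linter.unusedSimpArgs false
set_option linter.unusedTactic false
set_option linter.unreachableTactic false

namespace Pool.Agent.H88.IG

open Pool.Agent.H17.Omega Pool.Agent.H17.Omega.CTM Pool.Agent.H52.GX Pool.Agent.H52.GC Pool.Agent.H7.IG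

variable {N : Set ZFSet.{0}} (hN : CTM N)

include hN

/-- The condition for the members of a branch. -/
def BXc (T g B t : N) : Prop := t.1 ∈ T.1 ∧ ∃ x a y : N, ZFSet.pair x.1 a.1 ∈ g.1 ∧ t.1 = ZFSet.pair x.1 y.1 ∧
  ∀ z : N, z.1 ∈ y.1 ↔ z.1 ∈ B.1 ∧ z.1 ∈ a.1

theorem BXc_iff {δ : Ordinal.{0}} (hδ : IsOm1 N δ) {X g : ZFSet.{0}} (hX : X ∈ N) (hg : g ∈ N)
    (hgf : Fn g δ.toZFSet X) (B t : N) :
    BXc ⟨TX δ X g, TX_mem hN hδ hX hg hgf⟩ ⟨g, hg⟩ B t ↔ t.1 ∈ BX δ X g B.1 := by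
  constructor
  · rintro ⟨h1, x, a, y, h2, h3, h4⟩
    have h1 : t.1 ∈ TX δ X g := h1
    have ea : a.1 = ap g x.1 := (hgf.ap_eq h2).symm
    rw [h3] at h1 ⊢
    refine pair_mem_BX.2 ⟨h1, ?_⟩
    have hx := (pair_mem_TX.1 h1).1
    ext z
    constructor
    · intro hz
      have hzN := hN.mem_of_mem y.2 hz
      rw [ZFSet.mem_inter, ← ea]
      exact (h4 ⟨z, hzN⟩).1 hz
    · intro hz
      rw [ZFSet.mem_inter, ← ea] at hz
      have hzN := hN.mem_of_mem a.2 hz.2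
      exact (h4 ⟨z, hzN⟩).2 hz
  · intro h
    have h1 := BX_sub h
    obtain ⟨x, hx, y, hy, h2, h3⟩ := mem_TX h1
    rw [h2] at h
    have h4 := (pair_mem_BX.1 h).2
    obtain ⟨h5, h6⟩ := hgf.ap_mem hx
    refine ⟨h1, ⟨x, hN.mem_of_mem hδ.mem hx⟩, ⟨ap g x, hN.mem_of_mem hX h5⟩, ⟨y, hN.mem_of_mem hX hy⟩, h6, h2,
      fun z => ?_⟩
    show z.1 ∈ y ↔ _
    rw [h4, ZFSet.mem_inter]

theorem exists_BXs {δ : Ordinal.{0}} (hδ : IsOm1 N δ) {X g : ZFSet.{0}} (hX : X ∈ N) (hg : g ∈ N)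
    (hgf : Fn g δ.toZFSet X) (hXc : Cvr N δ.toZFSet X) :
    ∃ Bs ∈ N, (∀ b, b ∈ Bs ↔ ∃ B ∈ X, b = BX δ X g B) ∧ Cvr N δ.toZFSet Bs := by
  have hT := TX_mem hN hδ hX hg hgf
  let F : N → N → Prop := fun B b => ∀ t : N, t.1 ∈ b.1 ↔ (t.1 ∈ (⟨TX δ X g, hT⟩ : N).1 ∧
    ∃ x a y : N, ZFSet.pair x.1 a.1 ∈ (⟨g, hg⟩ : N).1 ∧ t.1 = ZFSet.pair x.1 y.1 ∧
    ∀ z : N, z.1 ∈ y.1 ↔ z.1 ∈ B.1 ∧ z.1 ∈ a.1)
  have hF : hN.Dfn (fun v : Fin 2 → N => F (v 0) (v 1)) := (by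
      (repeat' first
        | exact DT.var _ | exact DT.last | exact DT.const _ | assumption
        | refine Dfn.pairMem ?_ ?_ ?_ | refine Dfn.isPair ?_ ?_ ?_ | refine Dfn.mem ?_ ?_
        | refine Dfn.eqv ?_ ?_ | refine Dfn.eq ?_ ?_ | refine Dfn.subset ?_ ?_
        | refine Dfn.isEmpty ?_ | refine Dfn.isTrans ?_ | refine Dfn.isOrd ?_
        | refine Dfn.isNat ?_ | refine Dfn.and ?_ ?_ | refine Dfn.or ?_ ?_ | refine Dfn.iff ?_ ?_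
        | refine Dfn.not ?_ | refine Dfn.imp ?_ ?_ | refine Dfn.all ?_ | refine Dfn.ex ?_
        | exact Dfn.false'))
  have hFm : ∀ B b : N, F B b ↔ ∀ t : N, t.1 ∈ b.1 ↔ t.1 ∈ BX δ X g B.1 := fun B b =>
    forall_congr' fun t => iff_congr Iff.rfl (BXc_iff hN hδ hX hg hgf B t)
  have hBN : ∀ B : N, ∃ b : N, F B b ∧ b.1 = BX δ X g B.1 := by
    intro B
    let P : N → Prop := fun t => (t.1 ∈ (⟨TX δ X g, hT⟩ : N).1 ∧
      ∃ x a y : N, ZFSet.pair x.1 a.1 ∈ (⟨g, hg⟩ : N).1 ∧ t.1 = ZFSet.pair x.1 y.1 ∧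
      ∀ z : N, z.1 ∈ y.1 ↔ z.1 ∈ B.1 ∧ z.1 ∈ a.1)
    obtain ⟨b, hb, hb'⟩ := hN.exists_sep (P := P) (by
      (repeat' first
        | exact DT.var _ | exact DT.last | exact DT.const _ | assumption
        | refine Dfn.pairMem ?_ ?_ ?_ | refine Dfn.isPair ?_ ?_ ?_ | refine Dfn.mem ?_ ?_
        | refine Dfn.eqv ?_ ?_ | refine Dfn.eq ?_ ?_ | refine Dfn.subset ?_ ?_
        | refine Dfn.isEmpty ?_ | refine Dfn.isTrans ?_ | refine Dfn.isOrd ?_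
        | refine Dfn.isNat ?_ | refine Dfn.and ?_ ?_ | refine Dfn.or ?_ ?_ | refine Dfn.iff ?_ ?_
        | refine Dfn.not ?_ | refine Dfn.imp ?_ ?_ | refine Dfn.all ?_ | refine Dfn.ex ?_
        | exact Dfn.false')) hT
    have e : b = BX δ X g B.1 := by
      ext t
      rw [hb']
      constructor
      · rintro ⟨h1, h2, h3⟩
        exact (BXc_iff hN hδ hX hg hgf B ⟨t, h2⟩).1 h3
      · intro h
        have h1 := BX_sub h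
        have h2 := hN.mem_of_mem hT h1
        exact ⟨h1, h2, (BXc_iff hN hδ hX hg hgf B ⟨t, h2⟩).2 h⟩
    refine ⟨⟨b, hb⟩, (hFm _ _).2 fun t => ?_, e⟩
    show t.1 ∈ b ↔ _
    rw [e]
  have hFe : ∀ B b : N, F B b → b.1 = BX δ X g B.1 := by
    intro B b h
    obtain ⟨b', h1, h2⟩ := hBN B
    rw [← h2]
    refine hN.ext' b.2 b'.2 fun t => ?_
    rw [(hFm B b).1 h t, (hFm B b').1 h1 t]
  obtain ⟨Bs, hBs, hBs'⟩ := hN.exists_repl hF hX (fun B _ b b' h h' =>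
    Subtype.ext ((hFe _ _ h).trans (hFe _ _ h').symm))
  refine ⟨Bs, hBs, fun b => ⟨fun hb => ?_, ?_⟩, ?_⟩
  · obtain ⟨B, hB, h1⟩ := (hBs' ⟨b, hN.mem_of_mem hBs hb⟩).1 hb
    exact ⟨B.1, hB, hFe _ _ h1⟩
  · rintro ⟨B, hB, rfl⟩
    obtain ⟨b, h1, h2⟩ := hBN ⟨B, hN.mem_of_mem hX hB⟩
    have h2 : b.1 = BX δ X g B := h2
    rw [← h2]
    exact (hBs' b).2 ⟨_, hB, h1⟩
  · refine Cvr.trans hN hδ.mem hX hBs hXc (cvr_of_dfn hN hF hX hBs (fun B _ b b' h h' =>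
      Subtype.ext ((hFe _ _ h).trans (hFe _ _ h').symm)) fun b hb => ?_)
    obtain ⟨B, hB, h1⟩ := (hBs' b).1 hb
    exact ⟨B, hB, h1⟩

omit hN in
theorem lin_BX {δ : Ordinal.{0}} {X g B : ZFSet.{0}} (hgf : Fn g δ.toZFSet X)
    (hmon : ∀ x ∈ δ.toZFSet, ∀ y ∈ x, ap g y ⊆ ap g x) : Lin (LX δ X g) (BX δ X g B) := by
  have key : ∀ x ∈ δ.toZFSet, ∀ x' ∈ δ.toZFSet, x ∈ x' → (B ∩ ap g x) = (B ∩ ap g x') ∩ ap g x := by
    intro x hx x' hx' hxx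
    ext z
    simp only [ZFSet.mem_inter]
    exact ⟨fun ⟨h1, h2⟩ => ⟨⟨h1, hmon x' hx' x hxx h2⟩, h2⟩, fun ⟨⟨h1, _⟩, h2⟩ => ⟨h1, h2⟩⟩
  intro s hs t ht
  obtain ⟨x, hx, y, hy, rfl, h1⟩ := mem_TX (BX_sub hs)
  obtain ⟨x', hx', y', hy', rfl, h1'⟩ := mem_TX (BX_sub ht)
  obtain ⟨h2, h3⟩ := pair_mem_BX.1 hs
  obtain ⟨h2', h3'⟩ := pair_mem_BX.1 ht
  obtain ⟨α, hα, rfl⟩ := Ordinal.mem_toZFSet_iff.1 hx
  obtain ⟨β, hβ, rfl⟩ := Ordinal.mem_toZFSet_iff.1 hx'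
  rcases lt_trichotomy α β with h | h | h
  · have h5 := Ordinal.toZFSet_mem_toZFSet_iff.2 h
    exact Or.inr (Or.inl (pair_mem_LX.2 ⟨h2, h2', h5, by rw [h3, h3']; exact key _ hx _ hx' h5⟩))
  · subst h
    left
    rw [h3, h3']
  · have h5 := Ordinal.toZFSet_mem_toZFSet_iff.2 h
    exact Or.inr (Or.inr (pair_mem_LX.2 ⟨h2', h2, h5, by rw [h3, h3']; exact key _ hx' _ hx h5⟩))

theorem BX_cov {δ : Ordinal.{0}} (hδ : IsOm1 N δ) {X Y g : ZFSet.{0}} (hX : X ∈ N) (hg : g ∈ N)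
    (hgf : Fn g δ.toZFSet X) (hmon : ∀ x ∈ δ.toZFSet, ∀ y ∈ x, ap g y ⊆ ap g x) (hY : Y ∈ X)
    (hgY : ∀ x ∈ δ.toZFSet, Ctb N (ap g x) ∧ ap g x ⊆ Y)
    (hcof : ∀ c ∈ N, c ⊆ X → c ⊆ Y → Ctb N c → ∃ x ∈ δ.toZFSet, c ⊆ ap g x)
    (hG : Guess N X) (hint : ∀ a ∈ X, ∀ b ∈ X, a ∩ b ∈ X) (hsub : ∀ a ∈ X, Ctb N a → a ⊆ X)
    {C : ZFSet.{0}} (hC : C ∈ N) (hCT : C ⊆ TX δ X g) (hCl : Lin (LX δ X g) C) (hCu : ¬ Ctb N C) :
    ∃ B ∈ X, C ⊆ BX δ X g B := by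
  have hXN : ∀ x ∈ X, x ∈ N := fun x hx => hN.mem_of_mem hX hx
  have hgX : ∀ x ∈ δ.toZFSet, ap g x ∈ X ∧ ZFSet.pair x (ap g x) ∈ g := fun x hx => hgf.ap_mem hx
  have hgsub : ∀ x ∈ δ.toZFSet, ap g x ⊆ X := fun x hx => hsub _ (hgX x hx).1 (hgY x hx).1
  have hδN : ∀ x ∈ δ.toZFSet, x ∈ N := fun x hx => hN.mem_of_mem hδ.mem hx
  have hCp : ∀ t ∈ C, ∃ x ∈ δ.toZFSet, ∃ y ∈ X, t = ZFSet.pair x y ∧ y ⊆ ap g x := fun t ht => mem_TX (hCT ht)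
  -- the union of the second coordinates
  let PA : N → Prop := fun z => ∃ t x y : N, t.1 ∈ (⟨C, hC⟩ : N).1 ∧ t.1 = ZFSet.pair x.1 y.1 ∧ z.1 ∈ y.1
  obtain ⟨A, hA, hA'⟩ := hN.exists_sep (P := PA) (by
      (repeat' first
        | exact DT.var _ | exact DT.last | exact DT.const _ | assumption
        | refine Dfn.pairMem ?_ ?_ ?_ | refine Dfn.isPair ?_ ?_ ?_ | refine Dfn.mem ?_ ?_
        | refine Dfn.eqv ?_ ?_ | refine Dfn.eq ?_ ?_ | refine Dfn.subset ?_ ?_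
        | refine Dfn.isEmpty ?_ | refine Dfn.isTrans ?_ | refine Dfn.isOrd ?_
        | refine Dfn.isNat ?_ | refine Dfn.and ?_ ?_ | refine Dfn.or ?_ ?_ | refine Dfn.iff ?_ ?_
        | refine Dfn.not ?_ | refine Dfn.imp ?_ ?_ | refine Dfn.all ?_ | refine Dfn.ex ?_
        | exact Dfn.false')) (hN.sUnion_mem hX)
  have hAm : ∀ z, z ∈ A ↔ ∃ x y, ZFSet.pair x y ∈ C ∧ z ∈ y := by
    intro z
    rw [hA']
    constructor
    · rintro ⟨h1, h2, t, x, y, h3, h4, h5⟩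
      have h3 : t.1 ∈ C := h3
      rw [h4] at h3
      exact ⟨x.1, y.1, h3, h5⟩
    · rintro ⟨x, y, h1, h2⟩
      obtain ⟨x', hx', y', hy', h3, _⟩ := hCp _ h1
      rw [ZFSet.pair_inj] at h3
      obtain ⟨rfl, rfl⟩ := h3
      exact ⟨ZFSet.mem_sUnion.2 ⟨_, hy', h2⟩, hN.mem_of_mem (hXN _ hy') h2, ⟨_, hN.mem_of_mem hC h1⟩,
        ⟨x, hδN x hx'⟩, ⟨y, hXN y hy'⟩, h1, rfl, h2⟩
  -- the first coordinates
  let PS : N → Prop := fun x => ∃ y : N, ZFSet.pair x.1 y.1 ∈ (⟨C, hC⟩ : N).1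
  obtain ⟨S, hS, hS'⟩ := hN.exists_sep (P := PS) (by
      (repeat' first
        | exact DT.var _ | exact DT.last | exact DT.const _ | assumption
        | refine Dfn.pairMem ?_ ?_ ?_ | refine Dfn.isPair ?_ ?_ ?_ | refine Dfn.mem ?_ ?_
        | refine Dfn.eqv ?_ ?_ | refine Dfn.eq ?_ ?_ | refine Dfn.subset ?_ ?_
        | refine Dfn.isEmpty ?_ | refine Dfn.isTrans ?_ | refine Dfn.isOrd ?_
        | refine Dfn.isNat ?_ | refine Dfn.and ?_ ?_ | refine Dfn.or ?_ ?_ | refine Dfn.iff ?_ ?_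
        | refine Dfn.not ?_ | refine Dfn.imp ?_ ?_ | refine Dfn.all ?_ | refine Dfn.ex ?_
        | exact Dfn.false')) hδ.mem
  have hSm : ∀ x, x ∈ S ↔ x ∈ δ.toZFSet ∧ ∃ y, ZFSet.pair x y ∈ C := by
    intro x
    rw [hS']
    constructor
    · rintro ⟨h1, h2, y, h3⟩
      exact ⟨h1, y.1, h3⟩
    · rintro ⟨h1, y, h3⟩
      exact ⟨h1, hδN x h1, ⟨y, (hN.of_pair_mem (hN.mem_of_mem hC h3)).2⟩, h3⟩
  have huni : ∀ x y y', ZFSet.pair x y ∈ C → ZFSet.pair x y' ∈ C → y = y' := by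
    intro x y y' h1 h2
    rcases hCl _ h1 _ h2 with h | h | h
    · exact (ZFSet.pair_inj.1 h).2
    · exact (ZFSet.mem_irrefl _ (pair_mem_LX.1 h).2.2.1).elim
    · exact (ZFSet.mem_irrefl _ (pair_mem_LX.1 h).2.2.1).elim
  have hSu : ¬ Ctb N S := by
    intro h
    refine hCu (Ctb.image hN h hS (F := fun x t => t.1 ∈ (⟨C, hC⟩ : N).1 ∧ ∃ y : N, t.1 = ZFSet.pair x.1 y.1)
      (by
      (repeat' first
        | exact DT.var _ | exact DT.last | exact DT.const _ | assumption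
        | refine Dfn.pairMem ?_ ?_ ?_ | refine Dfn.isPair ?_ ?_ ?_ | refine Dfn.mem ?_ ?_
        | refine Dfn.eqv ?_ ?_ | refine Dfn.eq ?_ ?_ | refine Dfn.subset ?_ ?_
        | refine Dfn.isEmpty ?_ | refine Dfn.isTrans ?_ | refine Dfn.isOrd ?_
        | refine Dfn.isNat ?_ | refine Dfn.and ?_ ?_ | refine Dfn.or ?_ ?_ | refine Dfn.iff ?_ ?_
        | refine Dfn.not ?_ | refine Dfn.imp ?_ ?_ | refine Dfn.all ?_ | refine Dfn.ex ?_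
        | exact Dfn.false')) ?_ ?_)
    · rintro x _ t t' ⟨h1, y, h2⟩ ⟨h1', y', h2'⟩
      have h1 : t.1 ∈ C := h1
      have h1' : t'.1 ∈ C := h1'
      rw [h2] at h1
      rw [h2'] at h1'
      refine Subtype.ext ?_
      rw [h2, h2', huni _ _ _ h1 h1']
    · intro t ht
      obtain ⟨x, hx, y, hy, rfl, _⟩ := hCp t ht
      exact ⟨⟨x, hδN x hx⟩, ⟨_, hN.mem_of_mem hC ht⟩, (hSm x).2 ⟨hx, y, ht⟩, rfl, ht, ⟨y, hXN y hy⟩, rfl⟩
  have hunb : ∀ u ∈ δ.toZFSet, ∃ x ∈ S, u ∈ x := by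
    intro u hu
    obtain ⟨α, hα, rfl⟩ := Ordinal.mem_toZFSet_iff.1 hu
    have hγ : α + 1 < δ := hδ.succ_lt hN hα
    by_contra hcon
    push Not at hcon
    refine hSu ((hδ.ctb _ hγ).mono fun x hx => ?_)
    obtain ⟨ξ, hξ, rfl⟩ := Ordinal.mem_toZFSet_iff.1 ((hSm x).1 hx).1
    rw [Ordinal.toZFSet_mem_toZFSet_iff]
    by_contra hlt
    rw [not_lt] at hlt
    have h1 : α < ξ := lt_of_lt_of_le (Order.lt_add_one_iff.2 le_rfl) hlt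
    exact hcon _ hx (Ordinal.toZFSet_mem_toZFSet_iff.2 h1)
  -- the trace of A on the members of the sequence
  have htr : ∀ x y, ZFSet.pair x y ∈ C → ∀ z, z ∈ y ↔ z ∈ A ∧ z ∈ ap g x := by
    intro x y h1 z
    obtain ⟨_, hx, _, hy, h3, h4⟩ := hCp _ h1
    rw [ZFSet.pair_inj] at h3
    obtain ⟨rfl, rfl⟩ := h3
    constructor
    · intro hz
      exact ⟨(hAm z).2 ⟨x, y, h1, hz⟩, h4 hz⟩
    · rintro ⟨hz, hzg⟩
      obtain ⟨x', y', h5, h6⟩ := (hAm z).1 hz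
      rcases hCl _ h1 _ h5 with h | h | h
      · rw [(ZFSet.pair_inj.1 h).2]; exact h6
      · rw [(pair_mem_LX.1 h).2.2.2, ZFSet.mem_inter]
        exact ⟨h6, hzg⟩
      · rw [(pair_mem_LX.1 h).2.2.2, ZFSet.mem_inter] at h6
        exact h6.1
  have hAY : A ⊆ Y := by
    intro z hz
    obtain ⟨x, y, h1, h2⟩ := (hAm z).1 hz
    obtain ⟨_, hx, _, hy, h3, h4⟩ := hCp _ h1
    rw [ZFSet.pair_inj] at h3
    obtain ⟨rfl, rfl⟩ := h3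
    exact (hgY x hx).2 (h4 h2)
  obtain ⟨B, hB, hB'⟩ := hG Y hY A hA hAY (by
    intro a ha hac
    have hc1 := hint a ha Y hY
    have hc2 : Ctb N (a ∩ Y) := hac.mono fun z hz => (ZFSet.mem_inter.1 hz).1
    obtain ⟨x1, hx1, h1⟩ := hcof (a ∩ Y) (hXN _ hc1) (hsub _ hc1 hc2)
      (fun z hz => (ZFSet.mem_inter.1 hz).2) hc2
    obtain ⟨x, hx, hxx⟩ := hunb x1 hx1
    obtain ⟨hxδ, y, hxy⟩ := (hSm x).1 hx
    have e : A ∩ a = y ∩ a := by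
      ext z
      rw [ZFSet.mem_inter, ZFSet.mem_inter, htr x y hxy z]
      constructor
      · rintro ⟨h2, h3⟩
        exact ⟨⟨h2, hmon x hxδ x1 hxx (h1 (ZFSet.mem_inter.2 ⟨h3, hAY h2⟩))⟩, h3⟩
      · rintro ⟨⟨h2, _⟩, h3⟩
        exact ⟨h2, h3⟩
    rw [e]
    obtain ⟨_, _, _, hy, h3, _⟩ := hCp _ hxy
    rw [ZFSet.pair_inj] at h3
    exact hint y (h3.2 ▸ hy) a ha)
  refine ⟨B, hB, fun t ht => ?_⟩
  obtain ⟨x, hx, y, hy, rfl, h4⟩ := hCp t ht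
  refine pair_mem_BX.2 ⟨hCT ht, ?_⟩
  ext z
  rw [ZFSet.mem_inter, htr x y ht z]
  constructor
  · rintro ⟨h1, h2⟩
    exact ⟨(hB' z (hgsub x hx h2)).1 h1, h2⟩
  · rintro ⟨h1, h2⟩
    exact ⟨(hB' z (hgsub x hx h2)).2 h1, h2⟩

end Pool.Agent.H88.IG
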