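import Pool.Agent.H88.IG.Df

/-!
# IG, part S: roots for a family of branches

`𝓑` is a family of at most `ω₁` chains in the tree `(T, L)`. There is a retraction `ρ : T → T`, `ρ(t) ≤ t`,
`ρ(ρ(t)) = ρ(t)`, such that `ρ(t) = ρ(u)`, `t ≠ u` only if `t`, `u` are in a common `b ∈ 𝓑`, and such that every `b ∈ 𝓑`
contains only countably many roots (`c` with `ρ(c) = c`).
Proof. Let `e` witness `Cvr N δ 𝓑`. For `t` in some `b ∈ 𝓑` let `ν(t)` be the least `α ∈ δ` such that `(α, b) ∈ e` for some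
`b ∈ 𝓑` with `t ∈ b`; formally let `N1 α t` say: `∃ b ∈ 𝓑, (α, b) ∈ e ∧ t ∈ b` and for all `β ∈ α`, `b' ∈ 𝓑` with
`(β, b') ∈ e`: `t ∉ b'`. Then `ρ(t)` is the `L`-least `s` with `N1 (ν(t)) s` (it exists by `hwf`, and is unique and `≤ t`
since all these `s` are in one chain), and `ρ(t) = t` if `t` is in no `b ∈ 𝓑` (`exists_fn`). If `ρ(t) = ρ(u) = s`
then both or none of `t`, `u` are in `⋃ 𝓑` (`s` is in `⋃ 𝓑` iff `t` is), and in the first case `ν(t) = ν(s) = ν(u)`.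
If `b = e(β)` and `c ∈ b` is a root, then `ν(c) ≤ β` and `c` is the least `s` with `N1 (ν(c)) s`: so the set of these
`c` is the image of (a part of) the countable ordinal `β + 1` (`Ctb.image`, `IsOm1.succ_lt`, `hδ.ctb`).
-/

set_option autoImplicit false
set_option linter.unusedVariables false
set_option linter.unusedSectionVars false
set_option linter.unusedSimpArgs false
set_option linter.unusedTactic false
set_option linter.unreachableTactic false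

namespace Pool.Agent.H88.IG

open Pool.Agent.H17.Omega Pool.Agent.H17.Omega.CTM Pool.Agent.H52.GX Pool.Agent.H52.GC Pool.Agent.H7.IG

variable {N : Set ZFSet.{0}} (hN : CTM N)

include hN

theorem exists_root {δ : Ordinal.{0}} (hδ : IsOm1 N δ) {T L Bs : ZFSet.{0}} (hT : T ∈ N) (hL : L ∈ N)
    (hTL : TrO N T L) (hwf : ∀ D : ZFSet.{0}, D ⊆ T → (∃ x, x ∈ D) → ∃ m ∈ D, ∀ x ∈ D, ZFSet.pair x m ∉ L)
    (hB : Bs ∈ N) (hBc : Cvr N δ.toZFSet Bs) (hBT : ∀ b ∈ Bs, b ⊆ T ∧ Lin L b) :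
    ∃ ρ ∈ N, Fn ρ T T ∧ (∀ t ∈ T, ap ρ t = t ∨ ZFSet.pair (ap ρ t) t ∈ L) ∧
      (∀ t ∈ T, ap ρ (ap ρ t) = ap ρ t) ∧
      (∀ t ∈ T, ∀ u ∈ T, ap ρ t = ap ρ u → t = u ∨ ∃ b ∈ Bs, t ∈ b ∧ u ∈ b) ∧
      ∀ b ∈ Bs, Ctb N (ZFSet.sep (fun c => ap ρ c = c) b) := by
  classical
  obtain ⟨e, he, he1, he2⟩ := hBc
  let N1 : N → N → Prop := fun α t => α.1 ∈ (⟨_, hδ.mem⟩ : N).1 ∧ (∃ b : N, b.1 ∈ (⟨Bs, hB⟩ : N).1 ∧
    ZFSet.pair α.1 b.1 ∈ (⟨e, he⟩ : N).1 ∧ t.1 ∈ b.1) ∧ ∀ β : N, β.1 ∈ α.1 → ∀ b' : N,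
    b'.1 ∈ (⟨Bs, hB⟩ : N).1 → ZFSet.pair β.1 b'.1 ∈ (⟨e, he⟩ : N).1 → ¬ t.1 ∈ b'.1
  have hN1 : hN.Dfn (fun v : Fin 2 → N => N1 (v 0) (v 1)) := by
    show hN.Dfn (fun v : Fin 2 → N => (v 0).1 ∈ (⟨_, hδ.mem⟩ : N).1 ∧ (∃ b : N, b.1 ∈ (⟨Bs, hB⟩ : N).1 ∧
      ZFSet.pair (v 0).1 b.1 ∈ (⟨e, he⟩ : N).1 ∧ (v 1).1 ∈ b.1) ∧ ∀ β : N, β.1 ∈ (v 0).1 → ∀ b' : N,
      b'.1 ∈ (⟨Bs, hB⟩ : N).1 → ZFSet.pair β.1 b'.1 ∈ (⟨e, he⟩ : N).1 → ¬ (v 1).1 ∈ b'.1)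
    (repeat' first
      | exact DT.var _ | exact DT.last | exact DT.const _ | assumption
      | refine Dfn.pairMem ?_ ?_ ?_ | refine Dfn.isPair ?_ ?_ ?_ | refine Dfn.mem ?_ ?_
      | refine Dfn.eqv ?_ ?_ | refine Dfn.eq ?_ ?_ | refine Dfn.subset ?_ ?_
      | refine Dfn.isEmpty ?_ | refine Dfn.isTrans ?_ | refine Dfn.isOrd ?_ | refine Dfn.isNat ?_
      | refine Dfn.isUpair ?_ ?_ ?_ | refine Dfn.isInsert ?_ ?_ ?_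
      | refine Dfn.and ?_ ?_ | refine Dfn.or ?_ ?_ | refine Dfn.iff ?_ ?_ | refine Dfn.not ?_
      | refine Dfn.imp ?_ ?_ | refine Dfn.all ?_ | refine Dfn.ex ?_ | exact Dfn.false'
      | refine Dfn.ballZ ?_ ?_ | refine Dfn.bexZ ?_ ?_ | exact Dfn.const _)
  let InU : N → Prop := fun t => ∃ b : N, b.1 ∈ (⟨Bs, hB⟩ : N).1 ∧ t.1 ∈ b.1
  have hInU : hN.Dfn (fun v : Fin 1 → N => InU (v 0)) := by
    show hN.Dfn (fun v : Fin 1 → N => ∃ b : N, b.1 ∈ (⟨Bs, hB⟩ : N).1 ∧ (v 0).1 ∈ b.1)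
    (repeat' first
      | exact DT.var _ | exact DT.last | exact DT.const _ | assumption
      | refine Dfn.pairMem ?_ ?_ ?_ | refine Dfn.isPair ?_ ?_ ?_ | refine Dfn.mem ?_ ?_
      | refine Dfn.eqv ?_ ?_ | refine Dfn.eq ?_ ?_ | refine Dfn.subset ?_ ?_
      | refine Dfn.isEmpty ?_ | refine Dfn.isTrans ?_ | refine Dfn.isOrd ?_ | refine Dfn.isNat ?_
      | refine Dfn.isUpair ?_ ?_ ?_ | refine Dfn.isInsert ?_ ?_ ?_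
      | refine Dfn.and ?_ ?_ | refine Dfn.or ?_ ?_ | refine Dfn.iff ?_ ?_ | refine Dfn.not ?_
      | refine Dfn.imp ?_ ?_ | refine Dfn.all ?_ | refine Dfn.ex ?_ | exact Dfn.false'
      | refine Dfn.ballZ ?_ ?_ | refine Dfn.bexZ ?_ ?_ | exact Dfn.const _)
  let Lst : N → N → Prop := fun α s => N1 α s ∧ ∀ u : N, N1 α u → (u = s ∨ ZFSet.pair s.1 u.1 ∈ (⟨L, hL⟩ : N).1)
  have hLst : hN.Dfn (fun v : Fin 2 → N => Lst (v 0) (v 1)) := by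
    refine Dfn.and hN1 (Dfn.all (Dfn.imp ?_ (Dfn.or (Dfn.eq DT.last (DT.var _)) (Dfn.pairMem (DT.var _) DT.last (DT.const _)))))
    exact Dfn.subst2 hN1 (DT.var _) DT.last
  have hBsN : ∀ {b}, b ∈ Bs → b ∈ N := fun h => hN.mem_of_mem hB h
  have hTN : ∀ {t}, t ∈ T → t ∈ N := fun h => hN.mem_of_mem hT h
  have hδN : ∀ {α}, α ∈ δ.toZFSet → α ∈ N := fun h => hN.mem_of_mem hδ.mem h
  -- basic facts
  have f1 : ∀ t : N, InU t → ∃ α : N, N1 α t := by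
    rintro t ⟨b, hb, htb⟩
    have h1 : ∃ α : Ordinal.{0}, α < δ ∧ ∃ b ∈ Bs, ZFSet.pair α.toZFSet b ∈ e ∧ t.1 ∈ b := by
      obtain ⟨α, hα, h2⟩ := he2 b.1 hb
      obtain ⟨ξ, hξ, rfl⟩ := Ordinal.mem_toZFSet_iff.1 hα
      exact ⟨ξ, hξ, b.1, hb, h2, htb⟩
    obtain ⟨α, ⟨hα, b₁, hb₁, h2, h3⟩, hmin⟩ := WellFounded.has_min (wellFounded_lt (α := Ordinal.{0}))
      {α : Ordinal.{0} | α < δ ∧ ∃ b ∈ Bs, ZFSet.pair α.toZFSet b ∈ e ∧ t.1 ∈ b} h1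
    have hαδ : α.toZFSet ∈ δ.toZFSet := Ordinal.toZFSet_mem_toZFSet_iff.2 hα
    refine ⟨⟨_, hδN hαδ⟩, hαδ, ⟨⟨b₁, hBsN hb₁⟩, hb₁, h2, h3⟩, ?_⟩
    intro β hβ b' hb' h4 h5
    obtain ⟨ζ, hζ, h6⟩ := Ordinal.mem_toZFSet_iff.1 hβ
    exact hmin ζ ⟨hζ.trans hα, b'.1, hb', by rw [h6]; exact h4, h5⟩ hζ
  have f2 : ∀ α α' t : N, N1 α t → N1 α' t → α = α' := by
    intro α α' t h h'
    obtain ⟨ξ, hξ, h1⟩ := Ordinal.mem_toZFSet_iff.1 h.1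
    obtain ⟨ξ', hξ', h1'⟩ := Ordinal.mem_toZFSet_iff.1 h'.1
    obtain ⟨b, hb, h2, h3⟩ := h.2.1
    obtain ⟨b', hb', h2', h3'⟩ := h'.2.1
    rcases lt_trichotomy ξ ξ' with h4 | h4 | h4
    · exact absurd h3 (h'.2.2 α (by rw [← h1, ← h1']; exact Ordinal.toZFSet_mem_toZFSet_iff.2 h4) b hb h2)
    · exact Subtype.ext (by rw [← h1, ← h1', h4])
    · exact absurd h3' (h.2.2 α' (by rw [← h1, ← h1']; exact Ordinal.toZFSet_mem_toZFSet_iff.2 h4) b' hb' h2')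
  have f3 : ∀ α t u : N, N1 α t → N1 α u → ∃ b ∈ Bs, t.1 ∈ b ∧ u.1 ∈ b := by
    rintro α t u ⟨h0, ⟨b, hb, h2, h3⟩, _⟩ ⟨_, ⟨b', hb', h2', h3'⟩, _⟩
    have h4 : b.1 = b'.1 := he1 _ h0 _ _ h2 h2'
    exact ⟨b.1, hb, h3, h4 ▸ h3'⟩
  have f4 : ∀ α t : N, N1 α t → ∃ s : N, Lst α s := by
    intro α t ht
    obtain ⟨D, hD, hD'⟩ := hN.exists_sep (P := fun u => N1 α u) (Dfn.subst2 hN1 (DT.const _) (DT.var _)) hT
    have hmem : ∀ u : N, u.1 ∈ D ↔ N1 α u := by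
      intro u
      rw [hD']
      constructor
      · rintro ⟨_, _, h⟩; exact h
      · intro h
        obtain ⟨b, hb, h1, _⟩ := f3 α u u h h
        exact ⟨(hBT b hb).1 h1, u.2, h⟩
    obtain ⟨m, hm, hmin⟩ := hwf D (fun u hu => ((hD' u).1 hu).1) ⟨t.1, (hmem t).2 ht⟩
    have hmN := hN.mem_of_mem hD hm
    refine ⟨⟨m, hmN⟩, (hmem _).1 hm, fun u hu => ?_⟩
    obtain ⟨b, hb, h1, h2⟩ := f3 α u ⟨m, hmN⟩ hu ((hmem _).1 hm)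
    rcases (hBT b hb).2 u.1 h1 m h2 with h3 | h3 | h3
    · exact Or.inl (Subtype.ext h3)
    · exact absurd h3 (hmin _ ((hmem u).2 hu))
    · exact Or.inr h3
  have f5 : ∀ α s s' : N, Lst α s → Lst α s' → s = s' := by
    intro α s s' h h'
    rcases h.2 s' h'.1 with h1 | h1
    · exact h1.symm
    · rcases h'.2 s h.1 with h2 | h2
      · exact h2
      · exact absurd (hTL.trans _ _ _ h1 h2) (hTL.irrefl _)
  have f6 : ∀ α t : N, N1 α t → InU t := fun α t h => by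
    obtain ⟨b, hb, _, h3⟩ := h.2.1
    exact ⟨b, hb, h3⟩
  have f7 : ∀ t : N, InU t → t.1 ∈ T := by
    rintro t ⟨b, hb, h⟩
    exact (hBT _ hb).1 h
  -- the function
  let F : N → N → Prop := fun t s => (∃ α : N, N1 α t ∧ Lst α s) ∨ (¬ InU t ∧ s = t)
  have hF : hN.Dfn (fun v : Fin 2 → N => F (v 0) (v 1)) := by
    refine Dfn.or (Dfn.ex (Dfn.and ?_ ?_)) (Dfn.and (Dfn.not ?_) (Dfn.eq (DT.var _) (DT.var _)))
    · exact Dfn.subst2 hN1 DT.last (DT.var _)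
    · exact Dfn.subst2 hLst DT.last (DT.var _)
    · exact Dfn.subst1 hInU (DT.var _)
  have hFu : ∀ t s s' : N, F t s → F t s' → s = s' := by
    rintro t s s' (⟨α, h1, h2⟩ | ⟨h1, h2⟩) (⟨α', h1', h2'⟩ | ⟨h1', h2'⟩)
    · have h3 := f2 _ _ _ h1 h1'
      subst h3
      exact f5 _ _ _ h2 h2'
    · exact absurd (f6 _ _ h1) h1'
    · exact absurd (f6 _ _ h1') h1
    · rw [h2, h2']
  obtain ⟨ρ, hρ, hρf, hρF⟩ := exists_fn hN hF hT hT (by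
    intro t ht
    by_cases hU : InU t
    · obtain ⟨α, hα⟩ := f1 t hU
      obtain ⟨s, hs⟩ := f4 α t hα
      exact ⟨s, f7 s (f6 _ _ hs.1), Or.inl ⟨α, hα, hs⟩, fun s' _ h => hFu _ _ _ h (Or.inl ⟨α, hα, hs⟩)⟩
    · exact ⟨t, ht, Or.inr ⟨hU, rfl⟩, fun s' _ h => hFu _ _ _ h (Or.inr ⟨hU, rfl⟩)⟩)
  have hρN : ∀ t ∈ T, ap ρ t ∈ N := fun t ht => hTN (hρf.ap_mem ht).1
  have g1 : ∀ t : N, ∀ ht : t.1 ∈ T, F t ⟨ap ρ t.1, hρN _ ht⟩ := by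
    intro t ht
    exact ((hρF t ⟨_, hρN _ ht⟩).1 (hρf.ap_mem ht).2).2.2
  have g2 : ∀ t s : N, t.1 ∈ T → F t s → ap ρ t.1 = s.1 := by
    intro t s ht h
    exact congrArg Subtype.val (hFu _ _ _ (g1 t ht) h)
  refine ⟨ρ, hρ, hρf, fun t ht => ?_, fun t ht => ?_, fun t ht u hu htu => ?_, fun b hb => ?_⟩
  · rcases g1 ⟨t, hTN ht⟩ ht with ⟨α, h1, h2⟩ | ⟨h1, h2⟩
    · rcases h2.2 _ h1 with h3 | h3
      · exact Or.inl (congrArg Subtype.val h3).symm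
      · exact Or.inr h3
    · exact Or.inl (congrArg Subtype.val h2)
  · rcases g1 ⟨t, hTN ht⟩ ht with ⟨α, h1, h2⟩ | ⟨h1, h2⟩
    · exact g2 ⟨ap ρ t, hρN _ ht⟩ ⟨ap ρ t, hρN _ ht⟩ (hρf.ap_mem ht).1 (Or.inl ⟨α, h2.1, h2⟩)
    · have h3 : ap ρ t = t := congrArg Subtype.val h2
      rw [h3, h3]
  · rcases g1 ⟨t, hTN ht⟩ ht with ⟨α, h1, h2⟩ | ⟨h1, h2⟩
    · rcases g1 ⟨u, hTN hu⟩ hu with ⟨α', h1', h2'⟩ | ⟨h1', h2'⟩
      · have h3 : (⟨ap ρ t, hρN _ ht⟩ : N) = ⟨ap ρ u, hρN _ hu⟩ := Subtype.ext htu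
        rw [h3] at h2
        have h4 := f2 _ _ _ h2.1 h2'.1
        subst h4
        exact Or.inr (f3 _ _ _ h1 h1')
      · exfalso
        have h3 : ap ρ u = u := congrArg Subtype.val h2'
        refine h1' ?_
        have h4 := f6 _ _ h2.1
        have h5 : (⟨ap ρ t, hρN _ ht⟩ : N) = ⟨u, hTN hu⟩ := Subtype.ext (htu.trans h3)
        rw [h5] at h4
        exact h4
    · have h3 : ap ρ t = t := congrArg Subtype.val h2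
      rcases g1 ⟨u, hTN hu⟩ hu with ⟨α', h1', h2'⟩ | ⟨h1', h2'⟩
      · exfalso
        refine h1 ?_
        have h4 := f6 _ _ h2'.1
        have h5 : (⟨ap ρ u, hρN _ hu⟩ : N) = ⟨t, hTN ht⟩ := Subtype.ext (htu.symm.trans h3)
        rw [h5] at h4
        exact h4
      · have h4 : ap ρ u = u := congrArg Subtype.val h2'
        exact Or.inl (h3.symm.trans (htu.trans h4))
  · obtain ⟨β, hβ, hβb⟩ := he2 b hb
    obtain ⟨ξ, hξ, rfl⟩ := Ordinal.mem_toZFSet_iff.1 hβ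
    have hξs : Order.succ ξ < δ := hδ.succ_lt hN hξ
    refine Ctb.image hN (hδ.ctb _ hξs) (hN.toZFSet_mem_of_le hξs.le hδ.mem) (F := fun α c => Lst α c) hLst
      (fun α _ c c' h1 h2 => f5 _ _ _ h1 h2) ?_
    intro c hc
    obtain ⟨hcb, hcρ⟩ := ZFSet.mem_sep.1 hc
    have hcT : c ∈ T := (hBT b hb).1 hcb
    have hcU : InU ⟨c, hTN hcT⟩ := ⟨⟨b, hBsN hb⟩, hb, hcb⟩
    rcases g1 ⟨c, hTN hcT⟩ hcT with ⟨α, h1, h2⟩ | ⟨h1, _⟩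
    · refine ⟨α, ⟨c, hTN hcT⟩, ?_, rfl, ?_⟩
      · obtain ⟨η, hη, h3⟩ := Ordinal.mem_toZFSet_iff.1 h1.1
        rw [← h3]
        refine Ordinal.toZFSet_mem_toZFSet_iff.2 (Order.lt_succ_of_le ?_)
        by_contra hlt
        rw [not_le] at hlt
        exact h1.2.2 ⟨_, hδN hβ⟩ (by rw [← h3]; exact Ordinal.toZFSet_mem_toZFSet_iff.2 hlt) ⟨b, hBsN hb⟩
          hb hβb hcb
      · have h4 : (⟨ap ρ c, hρN _ hcT⟩ : N) = ⟨c, hTN hcT⟩ := Subtype.ext hcρ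
        rw [h4] at h2
        exact h2
    · exact absurd hcU h1

end Pool.Agent.H88.IG
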