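import Pool.Agent.H88.IG.TrA
import Pool.Agent.H88.IG.TrB

/-!
# IG, part S: Baumgartner's colouring of trees with at most `ω₁` uncountable branches

Proof. Take `ρ` from `exists_root`, `T₀ = {c ∈ T : ρ(c) = c}` (`(c, c) ∈ ρ`) and `L₀ = {z ∈ L : z = (x, y), x, y ∈ T₀}`. There
is no uncountable chain `C ⊆ T₀` in `N`: by `hcov` `C ⊆ b` for some `b ∈ 𝓑`, and `b` contains only countably many roots.
`sp_tree` gives `f` on `T₀`; let `h(t) = f(ρ(t))` (`exists_fn`). If `(s, t), (s, u) ∈ L` and `h(s) = h(t) = h(u)`: `ρ(s) ≤ s ≤ t`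
and `ρ(t) ≤ t`, so `ρ(s)`, `ρ(t)` are equal or comparable, and having the same colour they are equal. Likewise
`ρ(s) = ρ(u)`. So `ρ(t) = ρ(u)` and `t = u` or `t`, `u` are in a common `b ∈ 𝓑`, a chain.
-/

set_option autoImplicit false
set_option linter.unusedVariables false
set_option linter.unusedSectionVars false
set_option linter.unusedSimpArgs false
set_option linter.unusedTactic false
set_option linter.unreachableTactic false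

namespace Pool.Agent.H88.IG

open Pool.Agent.H17.Omega Pool.Agent.H17.Omega.CTM Pool.Agent.H52.GX Pool.Agent.H52.GC Pool.Agent.H7.IG

variable {N : Set ZFSet.{0}} (hN : CTM N)

include hN

theorem sp_branch {δ : Ordinal.{0}} (hδ : IsOm1 N δ) (hSP : SP N δ) {T L Bs : ZFSet.{0}} (hT : T ∈ N)
    (hL : L ∈ N) (hTL : TrO N T L) (hc : Cvr N δ.toZFSet T)
    (hwf : ∀ D : ZFSet.{0}, D ⊆ T → (∃ x, x ∈ D) → ∃ m ∈ D, ∀ x ∈ D, ZFSet.pair x m ∉ L)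
    (hB : Bs ∈ N) (hBc : Cvr N δ.toZFSet Bs) (hBT : ∀ b ∈ Bs, b ⊆ T ∧ Lin L b)
    (hcov : ∀ C ∈ N, C ⊆ T → Lin L C → ¬ Ctb N C → ∃ b ∈ Bs, C ⊆ b) :
    ∃ h ∈ N, Fn h T omZ ∧ ∀ s t u n, ZFSet.pair s t ∈ L → ZFSet.pair s u ∈ L → ZFSet.pair s n ∈ h →
      ZFSet.pair t n ∈ h → ZFSet.pair u n ∈ h → t = u ∨ ZFSet.pair t u ∈ L ∨ ZFSet.pair u t ∈ L := by
  obtain ⟨ρ, hρN, hρ, r1, r2, r3, r4⟩ := exists_root hN hδ hT hL hTL hwf hB hBc hBT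
  obtain ⟨T₀, hT₀N, hT₀⟩ := hN.exists_sep (P := fun c => ZFSet.pair c.1 c.1 ∈ (⟨ρ, hρN⟩ : N).1) (by
    (repeat' first
        | exact DT.var _ | exact DT.last | exact DT.const _ | assumption
        | refine Dfn.pairMem ?_ ?_ ?_ | refine Dfn.isPair ?_ ?_ ?_ | refine Dfn.mem ?_ ?_
        | refine Dfn.eqv ?_ ?_ | refine Dfn.eq ?_ ?_ | refine Dfn.subset ?_ ?_
        | refine Dfn.isEmpty ?_ | refine Dfn.isTrans ?_ | refine Dfn.isOrd ?_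
        | refine Dfn.isNat ?_ | refine Dfn.and ?_ ?_ | refine Dfn.or ?_ ?_ | refine Dfn.iff ?_ ?_
        | refine Dfn.not ?_ | refine Dfn.imp ?_ ?_ | refine Dfn.all ?_ | refine Dfn.ex ?_
        | exact Dfn.false')) hT
  obtain ⟨L₀, hL₀N, hL₀⟩ := hN.exists_sep (P := fun z => ∃ x y : N, ZFSet.pair x.1 y.1 = z.1 ∧
    x.1 ∈ (⟨T₀, hT₀N⟩ : N).1 ∧ y.1 ∈ (⟨T₀, hT₀N⟩ : N).1) (by
    refine Dfn.ex (Dfn.ex (Dfn.and ?_ ?_))
    · exact (Dfn.isPair (DT.var _) (DT.var _) (DT.var _)).congr (fun v => eq_comm)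
    · exact Dfn.and (Dfn.mem (DT.var _) (DT.const _)) (Dfn.mem (DT.var _) (DT.const _))) hL
  have hT₀m : ∀ c, c ∈ T₀ ↔ c ∈ T ∧ ap ρ c = c := by
    intro c
    rw [hT₀]
    constructor
    · rintro ⟨h1, h2, h3⟩
      exact ⟨h1, hρ.ap_eq h3⟩
    · rintro ⟨h1, h2⟩
      have h3 := (hρ.ap_mem h1).2
      rw [h2] at h3
      exact ⟨h1, hN.mem_of_mem hT h1, h3⟩
  have hL₀m : ∀ x y, ZFSet.pair x y ∈ L₀ ↔ ZFSet.pair x y ∈ L ∧ x ∈ T₀ ∧ y ∈ T₀ := by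
    intro x y
    rw [hL₀]
    constructor
    · rintro ⟨h1, h2, x', y', h3, h4, h5⟩
      rw [ZFSet.pair_inj] at h3
      obtain ⟨rfl, rfl⟩ := h3
      exact ⟨h1, h4, h5⟩
    · rintro ⟨h1, h2, h3⟩
      exact ⟨h1, hN.mem_of_mem hL h1, ⟨x, hN.mem_of_mem hT₀N h2⟩, ⟨y, hN.mem_of_mem hT₀N h3⟩, rfl, h2, h3⟩
  have hT₀T : T₀ ⊆ T := fun c hc => ((hT₀m c).1 hc).1
  have hTr : TrO N T₀ L₀ := by
    refine ⟨fun z hz => ?_, fun x hx => hTL.irrefl x ((hL₀m _ _).1 hx).1, fun x y z h1 h2 => ?_,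
      fun x y z h1 h2 => ?_, fun z hz p hp h1 => ?_⟩
    · obtain ⟨h1, h2, x', y', h3, h4, h5⟩ := (hL₀ z).1 hz
      exact ⟨x'.1, h4, y'.1, h5, h3.symm⟩
    · obtain ⟨k1, k2, k3⟩ := (hL₀m _ _).1 h1
      obtain ⟨l1, l2, l3⟩ := (hL₀m _ _).1 h2
      exact (hL₀m _ _).2 ⟨hTL.trans _ _ _ k1 l1, k2, l3⟩
    · obtain ⟨k1, k2, k3⟩ := (hL₀m _ _).1 h1
      obtain ⟨l1, l2, l3⟩ := (hL₀m _ _).1 h2
      rcases hTL.tree _ _ _ k1 l1 with h | h | h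
      · exact Or.inl h
      · exact Or.inr (Or.inl ((hL₀m _ _).2 ⟨h, k2, l2⟩))
      · exact Or.inr (Or.inr ((hL₀m _ _).2 ⟨h, l2, k2⟩))
    · exact hTL.ctb z (hT₀T hz) p hp fun x hx => ((hL₀m _ _).1 (h1 x hx)).1
  have hch : ∀ C ∈ N, C ⊆ T₀ → Lin L₀ C → Ctb N C := by
    intro C hC hCT hCL
    by_contra hCc
    obtain ⟨b, hb, hCb⟩ := hcov C hC (fun x hx => hT₀T (hCT hx)) (fun x hx y hy => by
      rcases hCL x hx y hy with h | h | h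
      · exact Or.inl h
      · exact Or.inr (Or.inl ((hL₀m _ _).1 h).1)
      · exact Or.inr (Or.inr ((hL₀m _ _).1 h).1)) hCc
    exact hCc ((r4 b hb).mono fun x hx => ZFSet.mem_sep.2 ⟨hCb hx, ((hT₀m x).1 (hCT hx)).2⟩)
  obtain ⟨f, hfN, hf, hf'⟩ := sp_tree hN hδ hSP hT₀N hL₀N hTr (hc.mono hT₀T) hch
  have hroot : ∀ t ∈ T, ap ρ t ∈ T₀ := fun t ht => (hT₀m _).2 ⟨(hρ.ap_mem ht).1, r2 t ht⟩
  obtain ⟨h, hhN, hh, hh'⟩ := exists_fn hN (F := fun t n => ∃ c : N, ZFSet.pair t.1 c.1 ∈ (⟨ρ, hρN⟩ : N).1 ∧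
    ZFSet.pair c.1 n.1 ∈ (⟨f, hfN⟩ : N).1) (by
    (repeat' first
        | exact DT.var _ | exact DT.last | exact DT.const _ | assumption
        | refine Dfn.pairMem ?_ ?_ ?_ | refine Dfn.isPair ?_ ?_ ?_ | refine Dfn.mem ?_ ?_
        | refine Dfn.eqv ?_ ?_ | refine Dfn.eq ?_ ?_ | refine Dfn.subset ?_ ?_
        | refine Dfn.isEmpty ?_ | refine Dfn.isTrans ?_ | refine Dfn.isOrd ?_
        | refine Dfn.isNat ?_ | refine Dfn.and ?_ ?_ | refine Dfn.or ?_ ?_ | refine Dfn.iff ?_ ?_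
        | refine Dfn.not ?_ | refine Dfn.imp ?_ ?_ | refine Dfn.all ?_ | refine Dfn.ex ?_
        | exact Dfn.false')) hT hN.omZ_mem (by
    intro x hx
    have h1 := hroot x.1 hx
    have h2 := hf.ap_mem h1
    refine ⟨⟨ap f (ap ρ x.1), hN.mem_of_mem hN.omZ_mem h2.1⟩, h2.1,
      ⟨⟨ap ρ x.1, hN.mem_of_mem hT₀N h1⟩, (hρ.ap_mem hx).2, h2.2⟩, ?_⟩
    rintro y' hy' ⟨c, hc1, hc2⟩
    have e1 := hρ.ap_eq hc1
    have e2 := hf.ap_eq hc2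
    apply Subtype.ext
    change y'.1 = ap f (ap ρ x.1)
    rw [e1, e2])
  have hkey : ∀ s n, ZFSet.pair s n ∈ h → s ∈ T ∧ ZFSet.pair (ap ρ s) n ∈ f := by
    intro s n hsn
    obtain ⟨s', hs', n', hn', he⟩ := hh.sub _ hsn
    rw [ZFSet.pair_inj] at he
    obtain ⟨rfl, rfl⟩ := he
    obtain ⟨h1, h2, c, hc1, hc2⟩ := (hh' ⟨s, hN.mem_of_mem hT hs'⟩ ⟨n, hN.mem_of_mem hN.omZ_mem hn'⟩).1 hsn
    refine ⟨hs', ?_⟩
    rw [hρ.ap_eq hc1]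
    exact hc2
  have hsame : ∀ s t n, ZFSet.pair s t ∈ L → ZFSet.pair s n ∈ h → ZFSet.pair t n ∈ h → ap ρ s = ap ρ t := by
    intro s t n hst hsn htn
    obtain ⟨hs, hs'⟩ := hkey s n hsn
    obtain ⟨ht, ht'⟩ := hkey t n htn
    have h1 : ZFSet.pair (ap ρ s) t ∈ L := by
      rcases r1 s hs with h | h
      · rw [h]; exact hst
      · exact hTL.trans _ _ _ h hst
    rcases r1 t ht with h2 | h2
    · exfalso
      rw [← h2] at h1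
      exact hf' _ _ n ((hL₀m _ _).2 ⟨h1, hroot s hs, hroot t ht⟩) hs' ht'
    · rcases hTL.tree _ _ _ h1 h2 with h3 | h3 | h3
      · exact h3
      · exact absurd ht' (hf' _ _ n ((hL₀m _ _).2 ⟨h3, hroot s hs, hroot t ht⟩) hs')
      · exact absurd hs' (hf' _ _ n ((hL₀m _ _).2 ⟨h3, hroot t ht, hroot s hs⟩) ht')
  refine ⟨h, hhN, hh, fun s t u n hst hsu hsn htn hun => ?_⟩
  have h1 := hsame s t n hst hsn htn
  have h2 := hsame s u n hsu hsn hun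
  rcases r3 t (hkey t n htn).1 u (hkey u n hun).1 (h1.symm.trans h2) with h3 | ⟨b, hb, h4, h5⟩
  · exact Or.inl h3
  · exact (hBT b hb).2 t h4 u h5

end Pool.Agent.H88.IG
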