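import Pool.Agent.H88.IG.ChX
import Pool.Agent.H88.IG.TX2
import Pool.Agent.H88.IG.TrC

/-!
# IG, part S: guessing is indestructible if trees are special

`exists_colX`: the colouring of the tree `TX δ X g`, from `sp_branch`.

`guess_outer`: Let `Y ∈ X`, `A ⊆ Y`, `A ∈ N'`, `A ∩ a ∈ X` for all `a ∈ X` countable in `N'` (for example: in `N`, `ctb_up`).
Take `g` (`exists_chainX`), `T = TX δ X g`, `L = LX δ X g`, `h`. For `x ∈ δ` let `t_x = (x, A ∩ g(x)) ∈ T`. In `N'` the map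
`x ↦ h(t_x)` (`exists_fn` for `N'`) has an uncountable fibre `S`, with value `n` (`ctb_fibre`, `hδ'`). Let `s = t_{x₀}`, `x₀ ∈ S`;
`U = {t ∈ T : (s, t) ∈ L, (t, n) ∈ h} ∈ N` is a chain, it contains `t_x` for all `x ∈ S`, `x₀ ∈ x`; `S` is unbounded in `δ`.
Let `A* = ⋃ {y : (x, y) ∈ U} ∈ N` (separation from `⋃ X`). For `(x, y) ∈ U` there is `x' ∈ S` above `x` and `x₀`, and then
`(x, y) < t_{x'}`, so `y = A ∩ g(x)`. So `A* = A ∩ ⋃ g(x)`, and `A* ∩ X = A ∩ X` (every element of `X ∩ Y` is in some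
`g(x)`, by `exists_chainX` for `c = {z}`). `A* ⊆ Y`, and for `a ∈ X` with `Ctb N a` (so `a ⊆ X`) `A* ∩ a = A ∩ a ∈ X`. By
`Guess N X` there is a `B ∈ X` that agrees with `A*`, and so with `A`, on `X`.

`indes_of_sp`: `guess_outer` for `N' = Ext N c G` (`ctm_Ext`, `subset_Ext`).
-/

set_option autoImplicit false
set_option linter.unusedVariables false
set_option linter.unusedSectionVars false
set_option linter.unusedSimpArgs false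
set_option linter.unusedTactic false
set_option linter.unreachableTactic false

namespace Pool.Agent.H88.IG

open Pool.Agent.H17.Omega Pool.Agent.H17.Omega.CTM Pool.Agent.H52.GX Pool.Agent.H52.GC Pool.Agent.H7.IG

variable {N : Set ZFSet.{0}} (hN : CTM N)

include hN

theorem exists_colX {δ : Ordinal.{0}} (hδ : IsOm1 N δ) (hSP : SP N δ) {X Y g : ZFSet.{0}} (hX : X ∈ N)
    (hg : g ∈ N) (hXc : Cvr N δ.toZFSet X)
    (hgf : Fn g δ.toZFSet X) (hmon : ∀ x ∈ δ.toZFSet, ∀ y ∈ x, ap g y ⊆ ap g x) (hY : Y ∈ X)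
    (hgY : ∀ x ∈ δ.toZFSet, Ctb N (ap g x) ∧ ap g x ⊆ Y)
    (hcof : ∀ c ∈ N, c ⊆ X → c ⊆ Y → Ctb N c → ∃ x ∈ δ.toZFSet, c ⊆ ap g x)
    (hG : Guess N X) (hint : ∀ a ∈ X, ∀ b ∈ X, a ∩ b ∈ X) (hsub : ∀ a ∈ X, Ctb N a → a ⊆ X) :
    ∃ h ∈ N, Fn h (TX δ X g) omZ ∧ ∀ s t u n, ZFSet.pair s t ∈ LX δ X g → ZFSet.pair s u ∈ LX δ X g →
      ZFSet.pair s n ∈ h → ZFSet.pair t n ∈ h → ZFSet.pair u n ∈ h →
      t = u ∨ ZFSet.pair t u ∈ LX δ X g ∨ ZFSet.pair u t ∈ LX δ X g := by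
  obtain ⟨Bs, hBs, hBs', hBsc⟩ := exists_BXs hN hδ hX hg hgf hXc
  exact sp_branch hN hδ hSP (TX_mem hN hδ hX hg hgf) (LX_mem hN hδ hX hg hgf)
    (trO_TX hN hδ hX hg hgf hmon) (cvr_TX hN hδ hX hXc)
    (fun D hD hne => wf_TX D hD hne) hBs hBsc
    (fun b hb => by
      obtain ⟨B, hB, rfl⟩ := (hBs' b).1 hb
      exact ⟨BX_sub, lin_BX hgf hmon⟩)
    (fun C hC hCT hCl hCu => by
      obtain ⟨B, hB, h1⟩ := BX_cov hN hδ hX hg hgf hmon hY hgY hcof hG hint hsub hC hCT hCl hCu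
      exact ⟨_, (hBs' _).2 ⟨B, hB, rfl⟩, h1⟩)

theorem guess_outer {δ : Ordinal.{0}} (hδ : IsOm1 N δ) (hSP : SP N δ) {X : ZFSet.{0}} (hX : X ∈ N)
    (hXc : Cvr N δ.toZFSet X) (hG : Guess N X) (hint : ∀ a ∈ X, ∀ b ∈ X, a ∩ b ∈ X)
    (hsub : ∀ a ∈ X, Ctb N a → a ⊆ X)
    (hcov : ∀ Y ∈ X, ∀ c ∈ N, c ⊆ X → c ⊆ Y → Ctb N c → ∃ a ∈ X, Ctb N a ∧ a ⊆ Y ∧ c ⊆ a)
    {N' : Set ZFSet.{0}} (hN' : CTM N') (hNN : N ⊆ N') (hδ' : IsOm1 N' δ) : Guess N' X := by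
  intro Y hY A hA hAY hAa
  obtain ⟨g, hg, hgf, hgY, hmon, hcof⟩ := exists_chainX hN hδ hX hXc hY hsub (hcov Y hY)
  obtain ⟨h, hh, hhf, hhc⟩ := exists_colX hN hδ hSP hX hg hXc hgf hmon hY hgY hcof hG hint hsub
  have hXN : ∀ x ∈ X, x ∈ N := fun x hx => hN.mem_of_mem hX hx
  have hgX : ∀ x ∈ δ.toZFSet, ap g x ∈ X ∧ ZFSet.pair x (ap g x) ∈ g := fun x hx => hgf.ap_mem hx
  have hgsub : ∀ x ∈ δ.toZFSet, ap g x ⊆ X := fun x hx => hsub _ (hgX x hx).1 (hgY x hx).1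
  have hAg : ∀ x ∈ δ.toZFSet, A ∩ ap g x ∈ X := fun x hx =>
    hAa _ (hgX x hx).1 (ctb_up hNN (hgY x hx).1)
  have htT : ∀ x ∈ δ.toZFSet, ZFSet.pair x (A ∩ ap g x) ∈ TX δ X g := fun x hx =>
    pair_mem_TX.2 ⟨hx, hAg x hx, fun z hz => (ZFSet.mem_inter.1 hz).2⟩
  have hTN : TX δ X g ∈ N := TX_mem hN hδ hX hg hgf
  have hLN : LX δ X g ∈ N := LX_mem hN hδ hX hg hgf
  have hδN : ∀ x ∈ δ.toZFSet, x ∈ N := fun x hx => hN.mem_of_mem hδ.mem hx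
  -- the colouring of the approximations, in the outer model
  let F : N' → N' → Prop := fun x n => ∃ a y t : N', ZFSet.pair x.1 a.1 ∈ (⟨g, hNN hg⟩ : N').1 ∧
    (∀ z : N', z.1 ∈ y.1 ↔ z.1 ∈ (⟨A, hA⟩ : N').1 ∧ z.1 ∈ a.1) ∧ t.1 = ZFSet.pair x.1 y.1 ∧
    ZFSet.pair t.1 n.1 ∈ (⟨h, hNN hh⟩ : N').1
  have hF : hN'.Dfn (fun v : Fin 2 → N' => F (v 0) (v 1)) := (by
      (repeat' first
        | exact DT.var _ | exact DT.last | exact DT.const _ | assumption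
        | refine Dfn.pairMem ?_ ?_ ?_ | refine Dfn.isPair ?_ ?_ ?_ | refine Dfn.mem ?_ ?_
        | refine Dfn.eqv ?_ ?_ | refine Dfn.eq ?_ ?_ | refine Dfn.subset ?_ ?_
        | refine Dfn.isEmpty ?_ | refine Dfn.isTrans ?_ | refine Dfn.isOrd ?_
        | refine Dfn.isNat ?_ | refine Dfn.and ?_ ?_ | refine Dfn.or ?_ ?_ | refine Dfn.iff ?_ ?_
        | refine Dfn.not ?_ | refine Dfn.imp ?_ ?_ | refine Dfn.all ?_ | refine Dfn.ex ?_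
        | exact Dfn.false'))
  have hF1 : ∀ x : N', x.1 ∈ δ.toZFSet → ∀ n : N', F x n ↔
      ZFSet.pair (ZFSet.pair x.1 (A ∩ ap g x.1)) n.1 ∈ h := by
    intro x hx n
    constructor
    · rintro ⟨a, y, t, h1, h2, h3, h4⟩
      have ea : a.1 = ap g x.1 := (hgf.ap_eq h1).symm
      have ey : y.1 = A ∩ ap g x.1 := by
        refine hN'.ext' y.2 (hNN (hXN _ (hAg _ hx))) fun z => ?_
        rw [h2 z, ZFSet.mem_inter, ea]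
      rw [← ey, ← h3]
      exact h4
    · intro h4
      have hy : A ∩ ap g x.1 ∈ N' := hNN (hXN _ (hAg _ hx))
      refine ⟨⟨ap g x.1, hNN (hXN _ (hgX _ hx).1)⟩, ⟨A ∩ ap g x.1, hy⟩,
        ⟨ZFSet.pair x.1 (A ∩ ap g x.1), hN'.pair_mem x.2 hy⟩, (hgX _ hx).2, fun z => ?_, rfl, h4⟩
      exact ZFSet.mem_inter
  obtain ⟨k, hk, hkf, hk'⟩ := exists_fn hN' hF hδ'.mem hN'.omZ_mem (by
    intro x hx
    obtain ⟨h1, h2⟩ := hhf.ap_mem (htT x.1 hx)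
    refine ⟨⟨_, hN'.mem_of_mem hN'.omZ_mem h1⟩, h1, (hF1 x hx _).2 h2, fun y' hy' h3 => ?_⟩
    exact Subtype.ext (hhf.ap_eq ((hF1 x hx y').1 h3)).symm)
  obtain ⟨n, hn, hSu⟩ := ctb_fibre hN' hδ'.mem hN'.omZ_mem hk hkf (ctb_om hN') hδ'.unc
  -- the fibre is unbounded
  have hSm : ∀ x, x ∈ ZFSet.sep (fun x => ZFSet.pair x n ∈ k) δ.toZFSet →
      x ∈ δ.toZFSet ∧ ZFSet.pair (ZFSet.pair x (A ∩ ap g x)) n ∈ h := by
    intro x hx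
    obtain ⟨h1, h2⟩ := ZFSet.mem_sep.1 hx
    have hxN' := hN'.mem_of_mem hδ'.mem h1
    have hnN' := hN'.mem_of_mem hN'.omZ_mem hn
    exact ⟨h1, (hF1 ⟨x, hxN'⟩ h1 ⟨n, hnN'⟩).1 ((hk' ⟨x, hxN'⟩ ⟨n, hnN'⟩).1 h2).2.2⟩
  have hunb : ∀ u ∈ δ.toZFSet, ∀ v ∈ δ.toZFSet, ∃ x ∈ ZFSet.sep (fun x => ZFSet.pair x n ∈ k) δ.toZFSet,
      u ∈ x ∧ v ∈ x := by
    intro u hu v hv
    obtain ⟨α, hα, rfl⟩ := Ordinal.mem_toZFSet_iff.1 hu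
    obtain ⟨β, hβ, rfl⟩ := Ordinal.mem_toZFSet_iff.1 hv
    have hγ : max α β + 1 < δ := hδ.succ_lt hN (max_lt hα hβ)
    by_contra hcon
    push Not at hcon
    refine hSu ((hδ'.ctb _ hγ).mono fun x hx => ?_)
    obtain ⟨ξ, hξ, rfl⟩ := Ordinal.mem_toZFSet_iff.1 (hSm x hx).1
    rw [Ordinal.toZFSet_mem_toZFSet_iff]
    by_contra hlt
    rw [not_lt] at hlt
    have h1 : max α β < ξ := lt_of_lt_of_le (Order.lt_add_one_iff.2 le_rfl) hlt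
    exact hcon _ hx (Ordinal.toZFSet_mem_toZFSet_iff.2 ((le_max_left _ _).trans_lt h1))
      (Ordinal.toZFSet_mem_toZFSet_iff.2 ((le_max_right _ _).trans_lt h1))
  obtain ⟨x0, hx0⟩ := tk7_ne hN' hSu
  obtain ⟨hx0δ, hx0h⟩ := hSm x0 hx0
  have hsT := htT x0 hx0δ
  have hsN : ZFSet.pair x0 (A ∩ ap g x0) ∈ N := hN.mem_of_mem hTN hsT
  have hnN : n ∈ N := hN.mem_of_mem hN.omZ_mem hn
  -- the part of the branch above s
  let PU : N → Prop := fun t => ZFSet.pair (⟨_, hsN⟩ : N).1 t.1 ∈ (⟨_, hLN⟩ : N).1 ∧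
    ZFSet.pair t.1 (⟨n, hnN⟩ : N).1 ∈ (⟨h, hh⟩ : N).1
  obtain ⟨U, hU, hU'⟩ := hN.exists_sep (P := PU) (by
      (repeat' first
        | exact DT.var _ | exact DT.last | exact DT.const _ | assumption
        | refine Dfn.pairMem ?_ ?_ ?_ | refine Dfn.isPair ?_ ?_ ?_ | refine Dfn.mem ?_ ?_
        | refine Dfn.eqv ?_ ?_ | refine Dfn.eq ?_ ?_ | refine Dfn.subset ?_ ?_
        | refine Dfn.isEmpty ?_ | refine Dfn.isTrans ?_ | refine Dfn.isOrd ?_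
        | refine Dfn.isNat ?_ | refine Dfn.and ?_ ?_ | refine Dfn.or ?_ ?_ | refine Dfn.iff ?_ ?_
        | refine Dfn.not ?_ | refine Dfn.imp ?_ ?_ | refine Dfn.all ?_ | refine Dfn.ex ?_
        | exact Dfn.false')) hTN
  have hUm : ∀ t, t ∈ U ↔ t ∈ TX δ X g ∧ ZFSet.pair (ZFSet.pair x0 (A ∩ ap g x0)) t ∈ LX δ X g ∧
      ZFSet.pair t n ∈ h := by
    intro t
    rw [hU']
    constructor
    · rintro ⟨h1, h2, h3, h4⟩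
      exact ⟨h1, h3, h4⟩
    · rintro ⟨h1, h3, h4⟩
      exact ⟨h1, hN.mem_of_mem hTN h1, h3, h4⟩
  have hL1 : ∀ x ∈ δ.toZFSet, ∀ x' ∈ δ.toZFSet, x ∈ x' →
      ZFSet.pair (ZFSet.pair x (A ∩ ap g x)) (ZFSet.pair x' (A ∩ ap g x')) ∈ LX δ X g := by
    intro x hx x' hx' hxx
    refine pair_mem_LX.2 ⟨htT x hx, htT x' hx', hxx, ?_⟩
    ext z
    simp only [ZFSet.mem_inter]
    exact ⟨fun ⟨h1, h2⟩ => ⟨⟨h1, hmon x' hx' x hxx h2⟩, h2⟩, fun ⟨⟨h1, _⟩, h2⟩ => ⟨h1, h2⟩⟩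
  have hc1 : ∀ x ∈ ZFSet.sep (fun x => ZFSet.pair x n ∈ k) δ.toZFSet, x0 ∈ x →
      ZFSet.pair x (A ∩ ap g x) ∈ U := by
    intro x hx hxx
    obtain ⟨h1, h2⟩ := hSm x hx
    exact (hUm _).2 ⟨htT x h1, hL1 x0 hx0δ x h1 hxx, h2⟩
  have hc2 : ∀ x y, ZFSet.pair x y ∈ U → x ∈ δ.toZFSet ∧ y = A ∩ ap g x := by
    intro x y hxy
    obtain ⟨h1, h2, h3⟩ := (hUm _).1 hxy
    have hx := (pair_mem_TX.1 h1).1
    refine ⟨hx, ?_⟩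
    obtain ⟨x', hx', h4, h5⟩ := hunb x0 hx0δ x hx
    obtain ⟨h6, h7, h8⟩ := (hUm _).1 (hc1 x' hx' h4)
    obtain ⟨h9, h10⟩ := hSm x' hx'
    rcases hhc _ _ _ _ h2 h7 hx0h h3 h8 with h11 | h11 | h11
    · rw [ZFSet.pair_inj] at h11
      rw [← h11.1] at h5
      exact (ZFSet.mem_irrefl _ h5).elim
    · obtain ⟨_, _, _, h12⟩ := pair_mem_LX.1 h11
      rw [h12]
      ext z
      simp only [ZFSet.mem_inter]
      exact ⟨fun ⟨⟨h1, _⟩, h2⟩ => ⟨h1, h2⟩, fun ⟨h1, h2⟩ => ⟨⟨h1, hmon x' h9 x h5 h2⟩, h2⟩⟩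
    · obtain ⟨_, _, h12, _⟩ := pair_mem_LX.1 h11
      exact (ZFSet.mem_asymm h5 h12).elim
  -- the trace of A on X is an element of the inner model
  let PA : N → Prop := fun z => ∃ t x y : N, t.1 ∈ (⟨U, hU⟩ : N).1 ∧ t.1 = ZFSet.pair x.1 y.1 ∧ z.1 ∈ y.1
  obtain ⟨As, hAs, hAs'⟩ := hN.exists_sep (P := PA) (by
      (repeat' first
        | exact DT.var _ | exact DT.last | exact DT.const _ | assumption
        | refine Dfn.pairMem ?_ ?_ ?_ | refine Dfn.isPair ?_ ?_ ?_ | refine Dfn.mem ?_ ?_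
        | refine Dfn.eqv ?_ ?_ | refine Dfn.eq ?_ ?_ | refine Dfn.subset ?_ ?_
        | refine Dfn.isEmpty ?_ | refine Dfn.isTrans ?_ | refine Dfn.isOrd ?_
        | refine Dfn.isNat ?_ | refine Dfn.and ?_ ?_ | refine Dfn.or ?_ ?_ | refine Dfn.iff ?_ ?_
        | refine Dfn.not ?_ | refine Dfn.imp ?_ ?_ | refine Dfn.all ?_ | refine Dfn.ex ?_
        | exact Dfn.false')) (hN.sUnion_mem hX)
  have hAm : ∀ z, z ∈ As ↔ z ∈ A ∧ z ∈ X := by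
    intro z
    rw [hAs']
    constructor
    · rintro ⟨h1, h2, t, x, y, h3, h4, h5⟩
      have h3 : t.1 ∈ U := h3
      rw [h4] at h3
      obtain ⟨h6, h7⟩ := hc2 _ _ h3
      have h5 : z ∈ y.1 := h5
      rw [h7, ZFSet.mem_inter] at h5
      exact ⟨h5.1, hgsub _ h6 h5.2⟩
    · rintro ⟨h1, h2⟩
      have hzN := hXN z h2
      obtain ⟨x1, hx1, h3⟩ := hcof {z} (hN.singleton_mem hzN)
        (fun w hw => by rw [ZFSet.mem_singleton] at hw; rw [hw]; exact h2)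
        (fun w hw => by rw [ZFSet.mem_singleton] at hw; rw [hw]; exact hAY h1)
        (tk7_fin_ctb hN (hN.singleton_mem hzN) ⟨{z}, fun w => by simp⟩)
      obtain ⟨x', hx', h4, h5⟩ := hunb x0 hx0δ x1 hx1
      obtain ⟨h6, h7⟩ := hSm x' hx'
      have h8 : z ∈ A ∩ ap g x' := ZFSet.mem_inter.2 ⟨h1, hmon x' h6 x1 h5 (h3 (ZFSet.mem_singleton.2 rfl))⟩
      have h9 := hc1 x' hx' h4
      refine ⟨ZFSet.mem_sUnion.2 ⟨_, hAg x' h6, h8⟩, hzN, ⟨_, hN.mem_of_mem hU h9⟩, ⟨x', hδN x' h6⟩,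
        ⟨_, hXN _ (hAg x' h6)⟩, h9, rfl, h8⟩
  obtain ⟨B, hB, hB'⟩ := hG Y hY As hAs (fun z hz => hAY ((hAm z).1 hz).1) (by
    intro a ha hac
    have e : As ∩ a = A ∩ a := by
      ext z
      rw [ZFSet.mem_inter, ZFSet.mem_inter, hAm]
      exact ⟨fun ⟨⟨h1, _⟩, h2⟩ => ⟨h1, h2⟩, fun ⟨h1, h2⟩ => ⟨⟨h1, hsub a ha hac h2⟩, h2⟩⟩
    rw [e]
    exact hAa a ha (ctb_up hNN hac))
  refine ⟨B, hB, fun x hx => ?_⟩
  rw [← hB' x hx, hAm]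
  exact ⟨fun h1 => ⟨h1, hx⟩, fun h1 => h1.1⟩

theorem indes_of_sp {δ : Ordinal.{0}} (hδ : IsOm1 N δ) (hSP : SP N δ) {X : ZFSet.{0}} (hX : X ∈ N)
    (hXc : Cvr N δ.toZFSet X) (hG : Guess N X) (hint : ∀ a ∈ X, ∀ b ∈ X, a ∩ b ∈ X)
    (hsub : ∀ a ∈ X, Ctb N a → a ⊆ X)
    (hcov : ∀ Y ∈ X, ∀ c ∈ N, c ⊆ X → c ⊆ Y → Ctb N c → ∃ a ∈ X, Ctb N a ∧ a ⊆ Y ∧ c ⊆ a) :
    Indes N δ X := by
  refine ⟨hG, fun Q _ c hQ hom G hGg => ?_⟩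
  exact guess_outer hN hδ hSP hX hXc hG hint hsub hcov (ctm_Ext hN hQ hGg) (subset_Ext hN hQ hGg.ne)
    (hom G hGg)

end Pool.Agent.H88.IG
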