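import Pool.Agent.H88.IG.Ccc

/-!
# IG, part S: Martin's axiom implies that trees without uncountable chains are special

Proof. `P` = the set of all `p` with `Col δ r p` (separation from the finite subsets of `δ × ω`, `exists_fin`),
`R = {(p, q) : q ⊆ p}` (`tk7_rel`). `∅ ∈ P`. Countable chain condition: `col_ccc` (if `a ∪ b` is a `Col` then it is a common
extension). `D` = the set of all `D_x = {p ∈ P : ∃ n ∈ ω, (x, n) ∈ p}`, `x ∈ δ` (`exists_repl`, or separation from the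
power set of `P`); `Cvr N δ D` by `cvr_of_dfn`. `D_x` is dense: if `x` is not in the domain of `p`, take an `n` that is
larger than all colours of `p` (a Finset of natural numbers) and `p ∪ {(x, n)}`. `MA1` gives a filter `F`;
`f = ⋃ F` (`hN.sUnion_mem`) is the function: any two elements of `f` are in one member of `F`.
-/

set_option autoImplicit false
set_option linter.unusedVariables false
set_option linter.unusedSectionVars false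
set_option linter.unusedSimpArgs false
set_option linter.unusedTactic false
set_option linter.unreachableTactic false

namespace Pool.Agent.H88.IG

open Pool.Agent.H17.Omega Pool.Agent.H17.Omega.CTM Pool.Agent.H52.GX Pool.Agent.H52.GC Pool.Agent.H7.IG

variable {N : Set ZFSet.{0}} (hN : CTM N)

include hN

theorem colP {δ : Ordinal.{0}} (hδ : IsOm1 N δ) {r : ZFSet.{0}} (hr : r ∈ N) :
    ∃ P ∈ N, ∀ a, a ∈ P ↔ Col δ r a := by
  obtain ⟨Fi, hFi, hFi'⟩ := exists_fin hN (hN.prod_mem hδ.mem hN.omZ_mem)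
  obtain ⟨P, hP, hP'⟩ := hN.exists_sep (P := fun a =>
      (∀ x n m : N, ZFSet.pair x.1 n.1 ∈ a.1 → ZFSet.pair x.1 m.1 ∈ a.1 → n.1 = m.1) ∧
      (∀ x y n : N, ZFSet.pair x.1 n.1 ∈ a.1 → ZFSet.pair y.1 n.1 ∈ a.1 →
        ¬ ZFSet.pair x.1 y.1 ∈ (⟨r, hr⟩ : N).1)) (by
    (repeat' first
        | exact DT.var _ | exact DT.last | exact DT.const _ | assumption
        | refine Dfn.pairMem ?_ ?_ ?_ | refine Dfn.isPair ?_ ?_ ?_ | refine Dfn.mem ?_ ?_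
        | refine Dfn.eqv ?_ ?_ | refine Dfn.eq ?_ ?_ | refine Dfn.subset ?_ ?_
        | refine Dfn.isEmpty ?_ | refine Dfn.isTrans ?_ | refine Dfn.isOrd ?_
        | refine Dfn.isNat ?_ | refine Dfn.and ?_ ?_ | refine Dfn.or ?_ ?_ | refine Dfn.iff ?_ ?_
        | refine Dfn.not ?_ | refine Dfn.imp ?_ ?_ | refine Dfn.all ?_ | refine Dfn.ex ?_
        | exact Dfn.false')) hFi
  refine ⟨P, hP, fun a => ?_⟩
  rw [hP', hFi']
  constructor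
  · rintro ⟨⟨h1, h2⟩, haN, h3, h4⟩
    refine ⟨h1, h2, ?_, ?_⟩
    · intro x n m hx hy
      have e1 := hN.of_pair_mem (hN.mem_of_mem haN hx)
      have e2 := hN.of_pair_mem (hN.mem_of_mem haN hy)
      exact h3 ⟨x, e1.1⟩ ⟨n, e1.2⟩ ⟨m, e2.2⟩ hx hy
    · intro x y n hx hy
      have e1 := hN.of_pair_mem (hN.mem_of_mem haN hx)
      have e2 := hN.of_pair_mem (hN.mem_of_mem haN hy)
      exact h4 ⟨x, e1.1⟩ ⟨y, e2.1⟩ ⟨n, e1.2⟩ hx hy
  · intro h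
    refine ⟨⟨h.sub, h.fin⟩, ?_, ?_, ?_⟩
    · exact FinZ.mem hN (X := a) h.fin (fun z hz =>
        hN.mem_of_mem (hN.prod_mem hδ.mem hN.omZ_mem) (h.sub hz))
    · exact fun x n m h1 h2 => h.uni _ _ _ h1 h2
    · exact fun x y n h1 h2 => h.pro _ _ _ h1 h2

omit hN in
theorem col_bdd {δ : Ordinal.{0}} {r p : ZFSet.{0}} (h : Col δ r p) :
    ∃ n : ℕ, ∀ y k, ZFSet.pair y (natZ k) ∈ p → k < n := by
  classical
  obtain ⟨s, hs⟩ := h.fin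
  let f : ZFSet.{0} → ℕ := fun z => if h : ∃ k, ∃ y, z = ZFSet.pair y (natZ k) then h.choose else 0
  refine ⟨s.sup f + 1, fun y k hk => ?_⟩
  have h1 : ∃ k', ∃ y', ZFSet.pair y (natZ k) = ZFSet.pair y' (natZ k') := ⟨k, y, rfl⟩
  have h2 : f (ZFSet.pair y (natZ k)) = k := by
    show (if h : ∃ k', ∃ y', ZFSet.pair y (natZ k) = ZFSet.pair y' (natZ k') then h.choose else 0) = k
    rw [dif_pos h1]
    obtain ⟨y', h3⟩ := h1.choose_spec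
    rw [ZFSet.pair_inj, natZ_inj] at h3
    exact h3.2.symm
  have h3 : f (ZFSet.pair y (natZ k)) ≤ s.sup f := Finset.le_sup ((hs _).1 hk)
  omega

omit hN in
theorem col_ext {δ : Ordinal.{0}} {r p x : ZFSet.{0}} (hirr : ∀ x, ZFSet.pair x x ∉ r) (h : Col δ r p)
    (hx : x ∈ δ.toZFSet) :
    ∃ q, Col δ r q ∧ p ⊆ q ∧ ∃ n, ZFSet.pair x n ∈ q := by
  classical
  by_cases hd : ∃ n, ZFSet.pair x n ∈ p
  · exact ⟨p, h, fun z hz => hz, hd⟩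
  push Not at hd
  obtain ⟨n, hn⟩ := col_bdd h
  have hom : ∀ y m, ZFSet.pair y m ∈ p → m ≠ natZ n := by
    intro y m hm he
    rw [he] at hm
    exact lt_irrefl _ (hn y n hm)
  refine ⟨insert (ZFSet.pair x (natZ n)) p, ⟨?_, ?_, ?_, ?_⟩, fun z hz => ZFSet.mem_insert_of_mem _ hz,
    natZ n, ZFSet.mem_insert _ _⟩
  · intro z hz
    rw [ZFSet.mem_insert_iff] at hz
    rcases hz with rfl | hz
    · rw [ZFSet.pair_mem_prod]; exact ⟨hx, natZ_mem_omZ n⟩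
    · exact h.sub hz
  · obtain ⟨s, hs⟩ := h.fin
    exact ⟨insert (ZFSet.pair x (natZ n)) s, fun z => by
      rw [ZFSet.mem_insert_iff, Finset.mem_insert, hs]⟩
  · intro y a b h1 h2
    rw [ZFSet.mem_insert_iff, ZFSet.pair_inj] at h1 h2
    rcases h1 with h1 | h1 <;> rcases h2 with h2 | h2
    · rw [h1.2, h2.2]
    · exact (hd b (h1.1 ▸ h2)).elim
    · exact (hd a (h2.1 ▸ h1)).elim
    · exact h.uni _ _ _ h1 h2
  · intro y z a h1 h2 h3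
    rw [ZFSet.mem_insert_iff, ZFSet.pair_inj] at h1 h2
    rcases h1 with h1 | h1 <;> rcases h2 with h2 | h2
    · rw [h1.1, h2.1] at h3; exact hirr _ h3
    · exact hom _ _ h2 h1.2
    · exact hom _ _ h1 h2.2
    · exact h.pro _ _ _ h1 h2 h3

theorem ma_sp {δ : Ordinal.{0}} (hδ : IsOm1 N δ) (h : MA1 N δ) : SP N δ := by
  classical
  intro r hr hT hch
  obtain ⟨P, hP, hP'⟩ := colP hN hδ hr
  obtain ⟨R, hR, hR'⟩ := hN.exists_sep (P := fun z => ∃ x y : N, z.1 = ZFSet.pair x.1 y.1 ∧ y.1 ⊆ x.1) (by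
    (repeat' first
        | exact DT.var _ | exact DT.last | exact DT.const _ | assumption
        | refine Dfn.pairMem ?_ ?_ ?_ | refine Dfn.isPair ?_ ?_ ?_ | refine Dfn.mem ?_ ?_
        | refine Dfn.eqv ?_ ?_ | refine Dfn.eq ?_ ?_ | refine Dfn.subset ?_ ?_
        | refine Dfn.isEmpty ?_ | refine Dfn.isTrans ?_ | refine Dfn.isOrd ?_
        | refine Dfn.isNat ?_ | refine Dfn.and ?_ ?_ | refine Dfn.or ?_ ?_ | refine Dfn.iff ?_ ?_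
        | refine Dfn.not ?_ | refine Dfn.imp ?_ ?_ | refine Dfn.all ?_ | refine Dfn.ex ?_
        | exact Dfn.false')) (hN.prod_mem hP hP)
  have hRp : ∀ a b, ZFSet.pair a b ∈ R ↔ a ∈ P ∧ b ∈ P ∧ b ⊆ a := by
    intro a b
    rw [hR', ZFSet.pair_mem_prod]
    constructor
    · rintro ⟨⟨h1, h2⟩, _, x, y, h3, h4⟩
      have h3 : ZFSet.pair a b = ZFSet.pair x.1 y.1 := h3
      rw [ZFSet.pair_inj] at h3
      rw [h3.1, h3.2]
      exact ⟨h3.1 ▸ h1, h3.2 ▸ h2, h4⟩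
    · rintro ⟨h1, h2, h3⟩
      have e1 := hN.mem_of_mem hP h1
      have e2 := hN.mem_of_mem hP h2
      exact ⟨⟨h1, h2⟩, hN.pair_mem e1 e2, ⟨a, e1⟩, ⟨b, e2⟩, rfl, h3⟩
  have hPO : PO P R := by
    refine ⟨?_, ?_, ?_, ?_⟩
    · intro z hz
      obtain ⟨a, ha, b, hb, h1⟩ := ZFSet.mem_prod.1 ((hR' z).1 hz).1
      exact ⟨a, ha, b, hb, h1⟩
    · intro p hp
      exact (hRp p p).2 ⟨hp, hp, fun z hz => hz⟩
    · intro p q s h1 h2
      have e1 := (hRp _ _).1 h1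
      have e2 := (hRp _ _).1 h2
      exact (hRp _ _).2 ⟨e1.1, e2.2.1, fun z hz => e1.2.2 (e2.2.2 hz)⟩
    · intro p q h1 h2
      have e1 := (hRp _ _).1 h1
      have e2 := (hRp _ _).1 h2
      exact ZFSet.ext (fun z => ⟨fun hz => e2.2.2 hz, fun hz => e1.2.2 hz⟩)
  have hne : ∃ p, p ∈ P := by
    refine ⟨∅, (hP' _).2 ⟨?_, ?_, ?_, ?_⟩⟩
    · intro z hz; exact absurd hz (ZFSet.notMem_empty z)
    · exact ⟨∅, fun z => ⟨fun hz => absurd hz (ZFSet.notMem_empty z), fun hz => absurd hz (Finset.notMem_empty z)⟩⟩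
    · intro x n m hx; exact absurd hx (ZFSet.notMem_empty _)
    · intro x n m hx; exact absurd hx (ZFSet.notMem_empty _)
  -- dense sets
  have hDx : ∀ x : N, ∃ d : N, ∀ p : N, p.1 ∈ d.1 ↔ p.1 ∈ P ∧ ∃ n : N, ZFSet.pair x.1 n.1 ∈ p.1 := by
    intro x
    obtain ⟨d, hd, hd'⟩ := hN.exists_sep (P := fun p => ∃ n : N, ZFSet.pair x.1 n.1 ∈ p.1) (by
      (repeat' first
        | exact DT.var _ | exact DT.last | exact DT.const _ | assumption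
        | refine Dfn.pairMem ?_ ?_ ?_ | refine Dfn.isPair ?_ ?_ ?_ | refine Dfn.mem ?_ ?_
        | refine Dfn.eqv ?_ ?_ | refine Dfn.eq ?_ ?_ | refine Dfn.subset ?_ ?_
        | refine Dfn.isEmpty ?_ | refine Dfn.isTrans ?_ | refine Dfn.isOrd ?_
        | refine Dfn.isNat ?_ | refine Dfn.and ?_ ?_ | refine Dfn.or ?_ ?_ | refine Dfn.iff ?_ ?_
        | refine Dfn.not ?_ | refine Dfn.imp ?_ ?_ | refine Dfn.all ?_ | refine Dfn.ex ?_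
        | exact Dfn.false')) hP
    refine ⟨⟨d, hd⟩, fun p => ?_⟩
    rw [hd']
    exact ⟨fun h => ⟨h.1, h.2.2⟩, fun h => ⟨h.1, p.2, h.2⟩⟩
  have hFd : hN.Dfn (fun v : Fin 2 → N => ∀ p : N, p.1 ∈ (v 1).1 ↔ p.1 ∈ (⟨P, hP⟩ : N).1 ∧
      ∃ n : N, ZFSet.pair (v 0).1 n.1 ∈ p.1) := by
    (repeat' first
        | exact DT.var _ | exact DT.last | exact DT.const _ | assumption
        | refine Dfn.pairMem ?_ ?_ ?_ | refine Dfn.isPair ?_ ?_ ?_ | refine Dfn.mem ?_ ?_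
        | refine Dfn.eqv ?_ ?_ | refine Dfn.eq ?_ ?_ | refine Dfn.subset ?_ ?_
        | refine Dfn.isEmpty ?_ | refine Dfn.isTrans ?_ | refine Dfn.isOrd ?_
        | refine Dfn.isNat ?_ | refine Dfn.and ?_ ?_ | refine Dfn.or ?_ ?_ | refine Dfn.iff ?_ ?_
        | refine Dfn.not ?_ | refine Dfn.imp ?_ ?_ | refine Dfn.all ?_ | refine Dfn.ex ?_
        | exact Dfn.false')
  have hFu : ∀ x d d' : N, (∀ p : N, p.1 ∈ d.1 ↔ p.1 ∈ P ∧ ∃ n : N, ZFSet.pair x.1 n.1 ∈ p.1) →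
      (∀ p : N, p.1 ∈ d'.1 ↔ p.1 ∈ P ∧ ∃ n : N, ZFSet.pair x.1 n.1 ∈ p.1) → d = d' := by
    intro x d d' h1 h2
    exact Subtype.ext (hN.ext' d.2 d'.2 (fun z => by rw [h1, h2]))
  obtain ⟨D, hD, hD'⟩ := hN.exists_repl (F := fun x d => ∀ p : N, p.1 ∈ d.1 ↔ p.1 ∈ (⟨P, hP⟩ : N).1 ∧
      ∃ n : N, ZFSet.pair x.1 n.1 ∈ p.1) hFd hδ.mem (fun x _ d d' h1 h2 => hFu x d d' h1 h2)
  have hCv : Cvr N δ.toZFSet D := by
    refine cvr_of_dfn hN (F := fun x d => ∀ p : N, p.1 ∈ d.1 ↔ p.1 ∈ (⟨P, hP⟩ : N).1 ∧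
      ∃ n : N, ZFSet.pair x.1 n.1 ∈ p.1) hFd hδ.mem hD (fun x _ d d' h1 h2 => hFu x d d' h1 h2) ?_
    intro d hd
    exact (hD' d).1 hd
  have hccc : ∀ A ∈ N, A ⊆ P → (∀ a ∈ A, ∀ b ∈ A, a ≠ b → ∀ q ∈ P, ZFSet.pair q a ∈ R →
      ZFSet.pair q b ∉ R) → Ctb N A := by
    intro A hA hAP hanti
    refine col_ccc hN hδ hr hT hch hA (fun a ha => (hP' a).1 (hAP ha)) ?_
    intro a ha b hb hab hc
    have hq : a ∪ b ∈ P := (hP' _).2 hc
    refine hanti a ha b hb hab _ hq ((hRp _ _).2 ⟨hq, hAP ha, ?_⟩) ((hRp _ _).2 ⟨hq, hAP hb, ?_⟩)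
    · intro z hz; exact ZFSet.mem_union.2 (Or.inl hz)
    · intro z hz; exact ZFSet.mem_union.2 (Or.inr hz)
  have hdense : ∀ d ∈ D, d ⊆ P ∧ ∀ p ∈ P, ∃ q ∈ d, ZFSet.pair q p ∈ R := by
    intro d hd
    have hdN := hN.mem_of_mem hD hd
    obtain ⟨x, hx, hxd⟩ := (hD' ⟨d, hdN⟩).1 hd
    refine ⟨fun p hp => ((hxd ⟨p, hN.mem_of_mem hdN hp⟩).1 hp).1, fun p hp => ?_⟩
    obtain ⟨q, hq, hpq, n, hn⟩ := col_ext hT.irrefl ((hP' p).1 hp) hx
    have hqP : q ∈ P := (hP' q).2 hq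
    have hqN := hN.mem_of_mem hP hqP
    have hnN := (hN.of_pair_mem (hN.mem_of_mem hqN hn)).2
    exact ⟨q, (hxd ⟨q, hqN⟩).2 ⟨hqP, ⟨n, hnN⟩, hn⟩, (hRp _ _).2 ⟨hqP, hp, hpq⟩⟩
  obtain ⟨F, hF, hFP, hFne, hFup, hFdir, hFD⟩ := h P hP R hR hPO hne hccc D hD hCv hdense
  have hcom : ∀ z w, z ∈ ZFSet.sUnion F → w ∈ ZFSet.sUnion F → ∃ q, Col δ r q ∧ z ∈ q ∧ w ∈ q := by
    intro z w hz hw
    rw [ZFSet.mem_sUnion] at hz hw
    obtain ⟨p, hp, hzp⟩ := hz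
    obtain ⟨p', hp', hwp⟩ := hw
    obtain ⟨q, hq, h1, h2⟩ := hFdir p hp p' hp'
    exact ⟨q, (hP' q).1 (hFP hq), ((hRp _ _).1 h1).2.2 hzp, ((hRp _ _).1 h2).2.2 hwp⟩
  refine ⟨ZFSet.sUnion F, hN.sUnion_mem hF, ⟨?_, ?_, ?_⟩, ?_⟩
  · intro z hz
    obtain ⟨q, hq, h1, _⟩ := hcom z z hz hz
    obtain ⟨a, ha, b, hb, h2⟩ := ZFSet.mem_prod.1 (hq.sub h1)
    exact ⟨a, ha, b, hb, h2⟩
  · intro x hx
    have hxN := hN.mem_of_mem hδ.mem hx
    obtain ⟨d, hd⟩ := hDx ⟨x, hxN⟩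
    have hdD : d.1 ∈ D := (hD' d).2 ⟨⟨x, hxN⟩, hx, hd⟩
    obtain ⟨p, hpd, hpF⟩ := hFD d.1 hdD
    obtain ⟨hpP, n, hn⟩ := (hd ⟨p, hN.mem_of_mem d.2 hpd⟩).1 hpd
    have h2 := ((hP' p).1 hpP).sub hn
    rw [ZFSet.pair_mem_prod] at h2
    exact ⟨n.1, h2.2, ZFSet.mem_sUnion.2 ⟨p, hpF, hn⟩⟩
  · intro x _ y _ y' _ h1 h2
    obtain ⟨q, hq, h3, h4⟩ := hcom _ _ h1 h2
    exact hq.uni _ _ _ h3 h4
  · intro x y n hxy h1 h2
    obtain ⟨q, hq, h3, h4⟩ := hcom _ _ h1 h2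
    exact hq.pro _ _ _ h3 h4 hxy

end Pool.Agent.H88.IG
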