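import Pool.Agent.H88.IG.Df

/-!
# IG, part S: almost all conditions are in conflict from below

`B` is a set of finite partial colourings, pairwise incompatible, with `a ∩ b = ρ` for different `a, b ∈ B`. For `p ∈ B`
all but countably many `q ∈ B` are in conflict with `p` in the following way: `z = (x, n) ∈ p ∖ ρ`, `w = (y, n) ∈ q ∖ ρ`
and `(x, y) ∈ r`.
Proof. Let `q ∈ B`, `q ≠ p`, without such a conflict. `p ∪ q` is not a `Col`, but it is a finite subset of `δ × ω`; so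
(1) `(x, n) ∈ p`, `(x, m) ∈ q`, `n ≠ m` (or vice versa): then `(x, m) ∉ p`, so `(x, m) ∉ ρ`; or
(2) `(x, n)`, `(y, n)` in `p ∪ q`, `(x, y) ∈ r`, not both in `p`, not both in `q`. The case `(x, n) ∈ p`,
`(y, n) ∈ q` is excluded (both are not in `ρ`). So `(x, n) ∈ q ∖ ρ`, `(y, n) ∈ p`.
In both cases `q` has an element `w ∉ ρ` in the set `S` of the `(x, m)`, `m ∈ ω`, such that `x = y` or `(x, y) ∈ r` for
some `(y, n) ∈ p`. The set `S ∈ N` is countable: the set of these `x` is a finite union of countable sets (`tk7_union`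
with `I = p`, `hT.ctb`, `tk7_union2`, `tk7_fin_ctb`), and then `Ctb.prod` with `ctb_om`. Every `w ∉ ρ` is in at
most one `q ∈ B`, so the set of these `q` is countable (`Ctb.image`); add `{p}` (`tk7_union2`).
-/

set_option autoImplicit false
set_option linter.unusedVariables false
set_option linter.unusedSectionVars false
set_option linter.unusedSimpArgs false
set_option linter.unusedTactic false
set_option linter.unreachableTactic false

namespace Pool.Agent.H88.IG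

open Pool.Agent.H17.Omega Pool.Agent.H17.Omega.CTM Pool.Agent.H52.GX Pool.Agent.H52.GC Pool.Agent.H7.IG

variable {N : Set ZFSet.{0}} (hN : CTM N)

include hN

theorem col_conf {δ : Ordinal.{0}} (hδ : IsOm1 N δ) {r B ρ p : ZFSet.{0}} (hr : r ∈ N) (hT : TreeO N δ r)
    (hB : B ∈ N) (hρ : ρ ∈ N) (hBc : ∀ a ∈ B, Col δ r a)
    (hinc : ∀ a ∈ B, ∀ b ∈ B, a ≠ b → ¬ Col δ r (a ∪ b)) (hΔ : ∀ a ∈ B, ∀ b ∈ B, a ≠ b → a ∩ b = ρ)
    (hp : p ∈ B) :
    Ctb N (ZFSet.sep (fun q => ∀ z ∈ p, z ∉ ρ → ∀ w ∈ q, w ∉ ρ → ¬ Cf r z w) B) := by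
  classical
  have hpN : p ∈ N := hN.mem_of_mem hB hp
  have hpc := hBc p hp
  -- the set of first coordinates
  obtain ⟨S1, hS1, hS1'⟩ := hN.exists_sep (P := fun x => ∃ y n : N, ZFSet.pair y.1 n.1 ∈ (⟨p, hpN⟩ : N).1 ∧
      (x.1 = y.1 ∨ ZFSet.pair x.1 y.1 ∈ (⟨r, hr⟩ : N).1)) (by
    (repeat' first
        | exact DT.var _ | exact DT.last | exact DT.const _ | assumption
        | refine Dfn.pairMem ?_ ?_ ?_ | refine Dfn.isPair ?_ ?_ ?_ | refine Dfn.mem ?_ ?_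
        | refine Dfn.eqv ?_ ?_ | refine Dfn.eq ?_ ?_ | refine Dfn.subset ?_ ?_
        | refine Dfn.isEmpty ?_ | refine Dfn.isTrans ?_ | refine Dfn.isOrd ?_
        | refine Dfn.isNat ?_ | refine Dfn.and ?_ ?_ | refine Dfn.or ?_ ?_ | refine Dfn.iff ?_ ?_
        | refine Dfn.not ?_ | refine Dfn.imp ?_ ?_ | refine Dfn.all ?_ | refine Dfn.ex ?_
        | exact Dfn.false')) hδ.mem
  have hS1c : Ctb N S1 := by
    refine tk7_union hN (F := fun i x => ∃ y n : N, i.1 = ZFSet.pair y.1 n.1 ∧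
      (x.1 = y.1 ∨ ZFSet.pair x.1 y.1 ∈ (⟨r, hr⟩ : N).1)) (by
      (repeat' first
        | exact DT.var _ | exact DT.last | exact DT.const _ | assumption
        | refine Dfn.pairMem ?_ ?_ ?_ | refine Dfn.isPair ?_ ?_ ?_ | refine Dfn.mem ?_ ?_
        | refine Dfn.eqv ?_ ?_ | refine Dfn.eq ?_ ?_ | refine Dfn.subset ?_ ?_
        | refine Dfn.isEmpty ?_ | refine Dfn.isTrans ?_ | refine Dfn.isOrd ?_
        | refine Dfn.isNat ?_ | refine Dfn.and ?_ ?_ | refine Dfn.or ?_ ?_ | refine Dfn.iff ?_ ?_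
        | refine Dfn.not ?_ | refine Dfn.imp ?_ ?_ | refine Dfn.all ?_ | refine Dfn.ex ?_
        | exact Dfn.false')) (I := p) hpN hS1 (tk7_fin_ctb hN hpN hpc.fin) ?_ ?_
    · intro i hi
      obtain ⟨y, hy, n, hn, hyn⟩ := ZFSet.mem_prod.1 (hpc.sub hi)
      have hyN : y ∈ N := hN.mem_of_mem hδ.mem hy
      obtain ⟨Y, hY, hY'⟩ := hN.exists_sep (P := fun x => ZFSet.pair x.1 (⟨y, hyN⟩ : N).1 ∈ (⟨r, hr⟩ : N).1) (by
        (repeat' first
        | exact DT.var _ | exact DT.last | exact DT.const _ | assumption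
        | refine Dfn.pairMem ?_ ?_ ?_ | refine Dfn.isPair ?_ ?_ ?_ | refine Dfn.mem ?_ ?_)) hδ.mem
      have hYc : Ctb N Y := hT.ctb y hy Y hY (fun x hx => ((hY' x).1 hx).2.2)
      have hsN : ({y} : ZFSet.{0}) ∈ N := hN.singleton_mem hyN
      refine ⟨{y} ∪ Y, hN.union_mem hsN hY, tk7_union2 hN hsN hY
        (tk7_fin_ctb hN hsN ⟨{y}, fun z => by simp⟩) hYc, ?_⟩
      intro x hx hF
      obtain ⟨y', n', h1, h2⟩ := hF
      rw [hyn, ZFSet.pair_inj] at h1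
      rw [ZFSet.mem_union, ZFSet.mem_singleton]
      rcases h2 with h2 | h2
      · left; rw [h2, ← h1.1]
      · right
        refine (hY' x.1).2 ⟨((hS1' x.1).1 hx).1, x.2, ?_⟩
        show ZFSet.pair x.1 y ∈ r
        rw [h1.1]; exact h2
    · intro x hx
      obtain ⟨_, _, y, n, h1, h2⟩ := (hS1' x.1).1 hx
      exact ⟨⟨ZFSet.pair y.1 n.1, hN.pair_mem y.2 n.2⟩, h1, y, n, rfl, h2⟩
  have hSN : ZFSet.prod S1 omZ ∈ N := hN.prod_mem hS1 hN.omZ_mem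
  have hSc : Ctb N (ZFSet.prod S1 omZ) := Ctb.prod hN hS1c (ctb_om hN)
  -- the set of the q that meet this set outside of ρ
  obtain ⟨Y, hY, hY'⟩ := hN.exists_sep (P := fun q => ∃ w : N, w.1 ∈ q.1 ∧ ¬ w.1 ∈ (⟨ρ, hρ⟩ : N).1 ∧
      w.1 ∈ (⟨_, hSN⟩ : N).1) (by
    (repeat' first
        | exact DT.var _ | exact DT.last | exact DT.const _ | assumption
        | refine Dfn.pairMem ?_ ?_ ?_ | refine Dfn.isPair ?_ ?_ ?_ | refine Dfn.mem ?_ ?_
        | refine Dfn.eqv ?_ ?_ | refine Dfn.eq ?_ ?_ | refine Dfn.subset ?_ ?_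
        | refine Dfn.isEmpty ?_ | refine Dfn.isTrans ?_ | refine Dfn.isOrd ?_
        | refine Dfn.isNat ?_ | refine Dfn.and ?_ ?_ | refine Dfn.or ?_ ?_ | refine Dfn.iff ?_ ?_
        | refine Dfn.not ?_ | refine Dfn.imp ?_ ?_ | refine Dfn.all ?_ | refine Dfn.ex ?_
        | exact Dfn.false')) hB
  have hYc : Ctb N Y := by
    refine Ctb.image hN hSc hSN (F := fun w q => q.1 ∈ (⟨B, hB⟩ : N).1 ∧ w.1 ∈ q.1 ∧
      ¬ w.1 ∈ (⟨ρ, hρ⟩ : N).1) (by
      (repeat' first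
        | exact DT.var _ | exact DT.last | exact DT.const _ | assumption
        | refine Dfn.pairMem ?_ ?_ ?_ | refine Dfn.isPair ?_ ?_ ?_ | refine Dfn.mem ?_ ?_
        | refine Dfn.eqv ?_ ?_ | refine Dfn.eq ?_ ?_ | refine Dfn.subset ?_ ?_
        | refine Dfn.isEmpty ?_ | refine Dfn.isTrans ?_ | refine Dfn.isOrd ?_
        | refine Dfn.isNat ?_ | refine Dfn.and ?_ ?_ | refine Dfn.or ?_ ?_ | refine Dfn.iff ?_ ?_
        | refine Dfn.not ?_ | refine Dfn.imp ?_ ?_ | refine Dfn.all ?_ | refine Dfn.ex ?_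
        | exact Dfn.false')) ?_ ?_
    · rintro w hw q q' ⟨h1, h2, h3⟩ ⟨h4, h5, h6⟩
      by_contra hne
      have hne' : q.1 ≠ q'.1 := fun h => hne (Subtype.ext h)
      apply h3
      show w.1 ∈ ρ
      rw [← hΔ q.1 h1 q'.1 h4 hne', ZFSet.mem_inter]
      exact ⟨h2, h5⟩
    · intro q hq
      obtain ⟨hqB, hqN, w, h1, h2, h3⟩ := (hY' q).1 hq
      exact ⟨w, ⟨q, hqN⟩, h3, rfl, hqB, h1, h2⟩
  have hsN : ({p} : ZFSet.{0}) ∈ N := hN.singleton_mem hpN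
  have hU : Ctb N ({p} ∪ Y) := tk7_union2 hN hsN hY (tk7_fin_ctb hN hsN ⟨{p}, fun z => by simp⟩) hYc
  refine hU.mono ?_
  intro q hq
  rw [ZFSet.mem_sep] at hq
  obtain ⟨hqB, hqC⟩ := hq
  rw [ZFSet.mem_union, ZFSet.mem_singleton]
  by_cases hqp : q = p
  · exact Or.inl hqp
  right
  have hqN : q ∈ N := hN.mem_of_mem hB hqB
  have hqc := hBc q hqB
  have hpq : p ∩ q = ρ := hΔ p hp q hqB (Ne.symm hqp)
  have hρp : ∀ z ∈ ρ, z ∈ p := fun z hz => by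
    rw [← hpq, ZFSet.mem_inter] at hz; exact hz.1
  have hρq : ∀ z ∈ ρ, z ∈ q := fun z hz => by
    rw [← hpq, ZFSet.mem_inter] at hz; exact hz.2
  by_contra hcon
  have hcon' : ∀ x y n m, ZFSet.pair y n ∈ p → (x = y ∨ ZFSet.pair x y ∈ r) → ZFSet.pair x m ∈ q →
      ZFSet.pair x m ∈ ρ := by
    intro x y n m h1 h2 h3
    by_contra h4
    apply hcon
    have h5 := hqc.sub h3
    rw [ZFSet.pair_mem_prod] at h5
    have h6 := hpc.sub h1
    rw [ZFSet.pair_mem_prod] at h6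
    have hyN : y ∈ N := hN.mem_of_mem hδ.mem h6.1
    have hnN : n ∈ N := hN.mem_of_mem hN.omZ_mem h6.2
    have hxN : x ∈ N := hN.mem_of_mem hδ.mem h5.1
    refine (hY' q).2 ⟨hqB, hqN, ⟨ZFSet.pair x m, hN.mem_of_mem hqN h3⟩, h3, h4, ?_⟩
    show ZFSet.pair x m ∈ ZFSet.prod S1 omZ
    rw [ZFSet.pair_mem_prod]
    exact ⟨(hS1' x).2 ⟨h5.1, hxN, ⟨y, hyN⟩, ⟨n, hnN⟩, h1, h2⟩, h5.2⟩
  apply hinc p hp q hqB (Ne.symm hqp)
  refine ⟨?_, ?_, ?_, ?_⟩
  · intro z hz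
    rw [ZFSet.mem_union] at hz
    rcases hz with hz | hz
    · exact hpc.sub hz
    · exact hqc.sub hz
  · obtain ⟨s, hs⟩ := hpc.fin
    obtain ⟨t, ht⟩ := hqc.fin
    exact ⟨s ∪ t, fun z => by rw [ZFSet.mem_union, Finset.mem_union, hs, ht]⟩
  · intro x n m h1 h2
    rw [ZFSet.mem_union] at h1 h2
    rcases h1 with h1 | h1 <;> rcases h2 with h2 | h2
    · exact hpc.uni _ _ _ h1 h2
    · exact hpc.uni _ _ _ h1 (hρp _ (hcon' x x n m h1 (Or.inl rfl) h2))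
    · exact hpc.uni _ _ _ (hρp _ (hcon' x x m n h2 (Or.inl rfl) h1)) h2
    · exact hqc.uni _ _ _ h1 h2
  · intro x y n h1 h2 h3
    rw [ZFSet.mem_union] at h1 h2
    rcases h1 with h1 | h1 <;> rcases h2 with h2 | h2
    · exact hpc.pro _ _ _ h1 h2 h3
    · by_cases h4 : ZFSet.pair x n ∈ ρ
      · exact hqc.pro _ _ _ (hρq _ h4) h2 h3
      · by_cases h5 : ZFSet.pair y n ∈ ρ
        · exact hpc.pro _ _ _ h1 (hρp _ h5) h3
        · exact hqC _ h1 h4 _ h2 h5 ⟨x, y, n, rfl, rfl, h3⟩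
    · exact hpc.pro _ _ _ (hρp _ (hcon' x y n n h2 (Or.inr h3) h1)) h2 h3
    · exact hqc.pro _ _ _ h1 h2 h3

end Pool.Agent.H88.IG
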