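import Pool.Agent.H88.IG.Df

/-!
# IG, part S: choosing points such that finitely many conditions hold uncountably often

`B` is uncountable, `K` is a relation between points (elements of `V`) and elements of `B`; for `x ∈ δ` there is
a finite set `P(x)` of points such that all but countably many `q ∈ B` are related to some `z ∈ P(x)`. Then there
are `g(x) ∈ P(x)` such that for every finite `F ⊆ δ` uncountably many `q ∈ B` are related to all `g(x)`, `x ∈ F`.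

Proof. For a finite `F ⊆ δ` and a function `g` let `Q(g, F) = {q ∈ B : ∀ x ∈ F, ∀ z, (x, z) ∈ g → (z, q) ∈ K}`. Apply
`exists_dep` with `A = V` and
  `Φ g y` := for the domain `d` of `g` (`FnD g d`, `ud_FnD`), `y ∈ P(d)`, and for every finite `F ⊆ d` (an element
  of the set of the finite subsets of `δ`, `exists_fin`) the set of the `q ∈ Q(g, F)` with `(y, q) ∈ K` is not
  countable (`∀ Q : N, (∀ q : N, q ∈ Q ↔ ...) → ¬ Ctb N Q`; `ud_Ctb.d1`).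
Existence of `y` at `α`: first, `Q(g, F)` is uncountable for every finite `F ⊆ α`: for `F = ∅` it is `B`; otherwise
let `β` be the largest element of `F` and apply `Φ (rs g β) (g(β))` to `F ∖ {β}`. If no `y ∈ P(α)` works, then for each
`y ∈ P(α)` there is a finite `F_y ⊆ α` such that `{q ∈ Q(g, F_y) : (y, q) ∈ K}` is countable. Let `F = ⋃ F_y` (finite).
`Q(g, F)` is contained in the union of the sets `{q ∈ Q(g, F_y) : (y, q) ∈ K}`, `y ∈ P(α)` (finitely many countable sets,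
`tk7_union2`, or `tk7_union` with `I = P(α)`) and the countable set of the `q` that are not related to any
`y ∈ P(α)`. So it is countable, a contradiction.
The resulting `g`: the claim for `F` follows as in the first step above.
-/

set_option autoImplicit false
set_option linter.unusedVariables false
set_option linter.unusedSectionVars false
set_option linter.unusedSimpArgs false
set_option linter.unusedTactic false
set_option linter.unreachableTactic false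

namespace Pool.Agent.H88.IG

open Pool.Agent.H17.Omega Pool.Agent.H17.Omega.CTM Pool.Agent.H52.GX Pool.Agent.H52.GC Pool.Agent.H7.IG

/-- The elements of `B` related to all values of `g` on `F`. -/
noncomputable def selQ (B K g F : ZFSet.{0}) : ZFSet.{0} :=
  ZFSet.sep (fun q => ∀ x ∈ F, ∀ z, ZFSet.pair x z ∈ g → ZFSet.pair z q ∈ K) B

theorem mem_selQ {B K g F q : ZFSet.{0}} :
    q ∈ selQ B K g F ↔ q ∈ B ∧ ∀ x ∈ F, ∀ z, ZFSet.pair x z ∈ g → ZFSet.pair z q ∈ K := ZFSet.mem_sep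

/-- The selection rule. -/
def selPhi (N : Set ZFSet.{0}) (B K P Fi g y : N) : Prop :=
  ∀ d : N, FnD g.1 d.1 → (∀ w : N, ZFSet.pair d.1 w.1 ∈ P.1 → y.1 ∈ w.1) ∧
    ∀ F : N, F.1 ∈ Fi.1 → F.1 ⊆ d.1 → ∀ Q : N, (∀ q : N, q.1 ∈ Q.1 ↔ (q.1 ∈ B.1 ∧
      (∀ x : N, x.1 ∈ F.1 → ∀ z : N, ZFSet.pair x.1 z.1 ∈ g.1 → ZFSet.pair z.1 q.1 ∈ K.1) ∧
      ZFSet.pair y.1 q.1 ∈ K.1)) → ¬ Ctb N Q.1

theorem sel_dom {g d d' : ZFSet.{0}} (h : FnD g d) (h' : FnD g d') : d = d' := by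
  have key : ∀ {d d' : ZFSet.{0}}, FnD g d → FnD g d' → ∀ x ∈ d, x ∈ d' := by
    intro d d' h h' x hx
    obtain ⟨y, hy⟩ := h.tot x hx
    obtain ⟨x', hx', y', h1⟩ := h'.sub _ hy
    rw [ZFSet.pair_inj] at h1
    rw [h1.1]
    exact hx'
  ext x
  exact ⟨key h h' x, key h' h x⟩

variable {N : Set ZFSet.{0}} (hN : CTM N)

include hN

theorem selPhi_dfn (B K P Fi : N) : hN.Dfn (fun v : Fin 2 → N => selPhi N B K P Fi (v 0) (v 1)) := by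
  unfold selPhi
  (repeat' first
      | exact DT.var _ | exact DT.last | exact DT.const _ | assumption
      | exact UD.d2 (P := fun N a b => FnD a.1 b.1) ud_FnD hN (DT.var _) (DT.var _)
      | exact UD.d1 (P := fun N x => Ctb N x.1) ud_Ctb hN (DT.var _)
      | refine Dfn.pairMem ?_ ?_ ?_ | refine Dfn.isPair ?_ ?_ ?_ | refine Dfn.mem ?_ ?_
      | refine Dfn.eqv ?_ ?_ | refine Dfn.eq ?_ ?_ | refine Dfn.subset ?_ ?_
      | refine Dfn.isEmpty ?_ | refine Dfn.isTrans ?_ | refine Dfn.isOrd ?_ | refine Dfn.isNat ?_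
      | refine Dfn.and ?_ ?_ | refine Dfn.or ?_ ?_ | refine Dfn.iff ?_ ?_ | refine Dfn.not ?_
      | refine Dfn.imp ?_ ?_ | refine Dfn.all ?_ | refine Dfn.ex ?_ | exact Dfn.false')

theorem sel_Q_mem {B K : ZFSet.{0}} (hB : B ∈ N) (hK : K ∈ N) {g F y : ZFSet.{0}} (hg : g ∈ N) (hF : F ∈ N)
    (hy : y ∈ N) : ∃ Q : N, (∀ q : N, q.1 ∈ Q.1 ↔ (q.1 ∈ B ∧
      (∀ x : N, x.1 ∈ F → ∀ z : N, ZFSet.pair x.1 z.1 ∈ g → ZFSet.pair z.1 q.1 ∈ K) ∧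
      ZFSet.pair y q.1 ∈ K)) := by
  obtain ⟨Q, hQ, hQ'⟩ := hN.exists_sep (P := fun q => (∀ x : N, x.1 ∈ (⟨F, hF⟩ : N).1 → ∀ z : N,
      ZFSet.pair x.1 z.1 ∈ (⟨g, hg⟩ : N).1 → ZFSet.pair z.1 q.1 ∈ (⟨K, hK⟩ : N).1) ∧
      ZFSet.pair (⟨y, hy⟩ : N).1 q.1 ∈ (⟨K, hK⟩ : N).1) (by
    (repeat' first
      | exact DT.var _ | exact DT.last | exact DT.const _ | assumption
      | exact UD.d2 (P := fun N a b => FnD a.1 b.1) ud_FnD hN (DT.var _) (DT.var _)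
      | exact UD.d1 (P := fun N x => Ctb N x.1) ud_Ctb hN (DT.var _)
      | refine Dfn.pairMem ?_ ?_ ?_ | refine Dfn.isPair ?_ ?_ ?_ | refine Dfn.mem ?_ ?_
      | refine Dfn.eqv ?_ ?_ | refine Dfn.eq ?_ ?_ | refine Dfn.subset ?_ ?_
      | refine Dfn.isEmpty ?_ | refine Dfn.isTrans ?_ | refine Dfn.isOrd ?_ | refine Dfn.isNat ?_
      | refine Dfn.and ?_ ?_ | refine Dfn.or ?_ ?_ | refine Dfn.iff ?_ ?_ | refine Dfn.not ?_
      | refine Dfn.imp ?_ ?_ | refine Dfn.all ?_ | refine Dfn.ex ?_ | exact Dfn.false')) hB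
  refine ⟨⟨Q, hQ⟩, fun q => ?_⟩
  show q.1 ∈ Q ↔ _
  rw [hQ']
  exact ⟨fun ⟨h1, _, h2⟩ => ⟨h1, h2⟩, fun ⟨h1, h2⟩ => ⟨h1, q.2, h2⟩⟩

theorem sel_Q_sub {B K g F y : ZFSet.{0}} (hB : B ∈ N) (hF : F ∈ N) (hg : g ∈ N) {Q : N}
    (hQ : ∀ q : N, q.1 ∈ Q.1 ↔ (q.1 ∈ B ∧
      (∀ x : N, x.1 ∈ F → ∀ z : N, ZFSet.pair x.1 z.1 ∈ g → ZFSet.pair z.1 q.1 ∈ K) ∧
      ZFSet.pair y q.1 ∈ K)) : ∀ q, q ∈ Q.1 ↔ q ∈ selQ B K g F ∧ ZFSet.pair y q ∈ K := by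
  intro q
  rw [mem_selQ]
  constructor
  · intro hq
    obtain ⟨h1, h2, h3⟩ := (hQ ⟨q, hN.mem_of_mem Q.2 hq⟩).1 hq
    refine ⟨⟨h1, fun x hx z hz => ?_⟩, h3⟩
    exact h2 ⟨x, hN.mem_of_mem hF hx⟩ hx ⟨z, (hN.of_pair_mem (hN.mem_of_mem hg hz)).2⟩ hz
  · rintro ⟨⟨h1, h2⟩, h3⟩
    exact (hQ ⟨q, hN.mem_of_mem hB h1⟩).2 ⟨h1, fun x hx z hz => h2 x.1 hx z.1 hz, h3⟩

theorem sel_union {S : ZFSet.{0} → ZFSet.{0}} (s : Finset ZFSet.{0})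
    (h : ∀ y ∈ s, S y ∈ N ∧ Ctb N (S y)) : ∃ U ∈ N, Ctb N U ∧ ∀ y ∈ s, S y ⊆ U := by
  classical
  induction s using Finset.induction_on with
  | empty => exact ⟨omZ, hN.omZ_mem, ctb_om hN, fun y hy => absurd hy (Finset.notMem_empty y)⟩
  | insert a s ha ih =>
    obtain ⟨U, hU, hUc, hUs⟩ := ih fun y hy => h y (Finset.mem_insert_of_mem hy)
    obtain ⟨h1, h2⟩ := h a (Finset.mem_insert_self _ _)
    refine ⟨U ∪ S a, hN.union_mem hU h1, tk7_union2 hN hU h1 hUc h2, ?_⟩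
    intro y hy z hz
    rw [ZFSet.mem_union]
    rcases Finset.mem_insert.1 hy with rfl | hy
    · exact Or.inr hz
    · exact Or.inl (hUs y hy hz)

theorem sel_unc {δ α : Ordinal.{0}} (hα : α ≤ δ) (hδN : δ.toZFSet ∈ N) {B K P Fi : N} (hBu : ¬ Ctb N B.1)
    (hFi : ∀ a, a ∈ Fi.1 ↔ a ⊆ δ.toZFSet ∧ FinZ a) {g : N} (hg : FnD g.1 α.toZFSet)
    (hs : ∀ β < α, ∀ r y : N, r.1 = rs g.1 β.toZFSet → ZFSet.pair β.toZFSet y.1 ∈ g.1 →
      selPhi N B K P Fi r y) {F : ZFSet.{0}} (hF : FinZ F) (hFα : F ⊆ α.toZFSet) :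
    ¬ Ctb N (selQ B.1 K.1 g.1 F) := by
  classical
  obtain ⟨s, hs'⟩ := hF
  rcases s.eq_empty_or_nonempty with rfl | hne
  · intro hc
    apply hBu
    refine hc.mono fun q hq => mem_selQ.2 ⟨hq, fun x hx => ?_⟩
    exact absurd ((hs' x).1 hx) (Finset.notMem_empty x)
  obtain ⟨x₀, hx₀, hmax⟩ := s.exists_max_image (fun x => ZFSet.rank x) hne
  obtain ⟨β, hβ, rfl⟩ := Ordinal.mem_toZFSet_iff.1 (hFα ((hs' x₀).2 hx₀))
  have hβδ : β < δ := hβ.trans_le hα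
  have hβN : β.toZFSet ∈ N := hN.toZFSet_mem_of_le hβδ.le hδN
  set F' : ZFSet.{0} := ZFSet.sep (fun x => x ≠ β.toZFSet) F with hF'
  have hF'β : F' ⊆ β.toZFSet := by
    intro x hx
    rw [hF', ZFSet.mem_sep] at hx
    obtain ⟨ξ, hξ, rfl⟩ := Ordinal.mem_toZFSet_iff.1 (hFα hx.1)
    have h1 := hmax _ ((hs' _).1 hx.1)
    rw [Ordinal.rank_toZFSet, Ordinal.rank_toZFSet] at h1
    refine Ordinal.toZFSet_mem_toZFSet_iff.2 (lt_of_le_of_ne h1 ?_)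
    rintro rfl
    exact hx.2 rfl
  have hF'f : FinZ F' := by
    refine ⟨s.filter (fun x => x ≠ β.toZFSet), fun z => ?_⟩
    rw [hF', ZFSet.mem_sep, hs', Finset.mem_filter]
  have hF'Fi : F' ∈ Fi.1 := (hFi _).2 ⟨fun z hz => Ordinal.toZFSet_subset_toZFSet_iff.2 hβδ.le (hF'β hz), hF'f⟩
  have hF'N : F' ∈ N := hN.mem_of_mem Fi.2 hF'Fi
  obtain ⟨y, hy⟩ := hg.tot β.toZFSet (Ordinal.toZFSet_mem_toZFSet_iff.2 hβ)
  have hyN : y ∈ N := (hN.of_pair_mem (hN.mem_of_mem g.2 hy)).2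
  have hr : FnD (rs g.1 β.toZFSet) β.toZFSet := by
    refine ⟨fun z hz => (ZFSet.mem_sep.1 hz).2, fun x hx => ?_, fun x y y' h1 h2 => ?_⟩
    · obtain ⟨y, hy⟩ := hg.tot x (Ordinal.toZFSet_subset_toZFSet_iff.2 hβ.le hx)
      exact ⟨y, pair_mem_rs.2 ⟨hx, hy⟩⟩
    · exact hg.uni x y y' (pair_mem_rs.1 h1).2 (pair_mem_rs.1 h2).2
  have hrN := rs_mem hN g.2 hβN
  obtain ⟨Q, hQ⟩ := sel_Q_mem hN B.2 K.2 hrN hF'N hyN
  have h1 := (hs β hβ ⟨_, hrN⟩ ⟨y, hyN⟩ rfl hy ⟨_, hβN⟩ hr).2 ⟨F', hF'N⟩ hF'Fi hF'β Q hQ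
  intro hc
  apply h1
  refine hc.mono fun q hq => ?_
  obtain ⟨h2, h3⟩ := (sel_Q_sub hN B.2 hF'N hrN hQ q).1 hq
  rw [mem_selQ] at h2 ⊢
  refine ⟨h2.1, fun x hx z hz => ?_⟩
  by_cases hxβ : x = β.toZFSet
  · rw [hxβ] at hz
    rw [hg.uni _ _ _ hz hy]
    exact h3
  · have hx' : x ∈ F' := by
      rw [hF', ZFSet.mem_sep]
      exact ⟨hx, hxβ⟩
    exact h2.2 x hx' z (pair_mem_rs.2 ⟨hF'β hx', hz⟩)

theorem exists_sel {δ : Ordinal.{0}} (hδ : IsOm1 N δ) {B V W K P : ZFSet.{0}} (hB : B ∈ N) (hBu : ¬ Ctb N B)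
    (hV : V ∈ N) (hW : W ∈ N) (hK : K ∈ N) (hP : P ∈ N) (hPf : Fn P δ.toZFSet W)
    (hWf : ∀ w ∈ W, FinZ w ∧ w ⊆ V)
    (hco : ∀ x ∈ δ.toZFSet, Ctb N (ZFSet.sep (fun q => ∀ z ∈ ap P x, ZFSet.pair z q ∉ K) B)) :
    ∃ g ∈ N, Fn g δ.toZFSet V ∧ (∀ x ∈ δ.toZFSet, ap g x ∈ ap P x) ∧
      ∀ F : ZFSet.{0}, FinZ F → F ⊆ δ.toZFSet →
        ¬ Ctb N (ZFSet.sep (fun q => ∀ x ∈ F, ZFSet.pair (ap g x) q ∈ K) B) := by
  classical
  obtain ⟨Fi, hFiN, hFi⟩ := exists_fin hN hδ.mem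
  have hFin : ∀ F : ZFSet.{0}, FinZ F → F ⊆ δ.toZFSet → F ∈ N := fun F h1 h2 =>
    hN.mem_of_mem hFiN ((hFi F).2 ⟨h2, h1⟩)
  obtain ⟨g, hg, hg'⟩ := exists_dep hN
    (Φ := fun g y => selPhi N ⟨B, hB⟩ ⟨K, hK⟩ ⟨P, hP⟩ ⟨Fi, hFiN⟩ g y)
    (selPhi_dfn hN ⟨B, hB⟩ ⟨K, hK⟩ ⟨P, hP⟩ ⟨Fi, hFiN⟩) hδ.mem hV (by
    intro α hα g hgf hgs
    by_contra hcon
    push Not at hcon
    have hαδ : α.toZFSet ∈ δ.toZFSet := Ordinal.toZFSet_mem_toZFSet_iff.2 hα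
    obtain ⟨hpW, hpP⟩ := hPf.ap_mem hαδ
    obtain ⟨hpf, hpV⟩ := hWf _ hpW
    have hex : ∀ y ∈ ap P α.toZFSet, ∃ F : ZFSet.{0}, FinZ F ∧ F ⊆ α.toZFSet ∧ ∃ Q : N, Ctb N Q.1 ∧
        ∀ q, q ∈ Q.1 ↔ q ∈ selQ B K g.1 F ∧ ZFSet.pair y q ∈ K := by
      intro y hy
      have hyN : y ∈ N := hN.mem_of_mem hV (hpV hy)
      have h1 := hcon ⟨y, hyN⟩ (hpV hy)
      unfold selPhi at h1
      push Not at h1
      obtain ⟨d, hd, h2⟩ := h1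
      have hdα : d.1 = α.toZFSet := sel_dom hd hgf.fnD
      obtain ⟨F, hF, hFd, Q, hQ, hQc⟩ := h2 (by
        intro w hw
        rw [hdα] at hw
        have h3 : ap P α.toZFSet = w.1 := hPf.ap_eq hw
        show y ∈ w.1
        rw [← h3]
        exact hy)
      rw [hdα] at hFd
      exact ⟨F.1, ((hFi _).1 hF).2, hFd, Q, hQc, sel_Q_sub hN hB F.2 g.2 hQ⟩
    choose! Fy hFy using hex
    obtain ⟨s, hs⟩ := hpf
    -- the union of the finite sets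
    set F : ZFSet.{0} := ZFSet.sep (fun x => ∃ y ∈ s, x ∈ Fy y) α.toZFSet with hFdef
    have hFf : FinZ F := by
      have h1 : ∀ y ∈ s, ∃ t : Finset ZFSet.{0}, ∀ z, z ∈ Fy y ↔ z ∈ t := fun y hy =>
        (hFy y ((hs y).2 hy)).1
      choose! t ht using h1
      refine ⟨s.biUnion t, fun z => ?_⟩
      rw [hFdef, ZFSet.mem_sep, Finset.mem_biUnion]
      constructor
      · rintro ⟨_, y, hy, hz⟩
        exact ⟨y, hy, (ht y hy z).1 hz⟩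
      · rintro ⟨y, hy, hz⟩
        have h2 := (ht y hy z).2 hz
        exact ⟨(hFy y ((hs y).2 hy)).2.1 h2, y, hy, h2⟩
    have hFα : F ⊆ α.toZFSet := fun x hx => (ZFSet.mem_sep.1 hx).1
    have hunc := sel_unc hN (B := ⟨B, hB⟩) (K := ⟨K, hK⟩) (P := ⟨P, hP⟩) (Fi := ⟨Fi, hFiN⟩) hα.le hδ.mem
      hBu hFi hgf.fnD hgs hFf hFα
    apply hunc
    -- the countable pieces
    have hpiece : ∀ y ∈ s, ZFSet.sep (fun q => ZFSet.pair y q ∈ K) (selQ B K g.1 (Fy y)) ∈ N ∧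
        Ctb N (ZFSet.sep (fun q => ZFSet.pair y q ∈ K) (selQ B K g.1 (Fy y))) := by
      intro y hy
      obtain ⟨_, _, Q, hQc, hQ⟩ := hFy y ((hs y).2 hy)
      have h1 : ZFSet.sep (fun q => ZFSet.pair y q ∈ K) (selQ B K g.1 (Fy y)) = Q.1 := by
        ext q
        rw [ZFSet.mem_sep, hQ]
      rw [h1]
      exact ⟨Q.2, hQc⟩
    obtain ⟨U, hU, hUc, hUs⟩ := sel_union hN s hpiece
    have hpN : ap P α.toZFSet ∈ N := hN.mem_of_mem hW hpW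
    have hc0 : ZFSet.sep (fun q => ∀ z ∈ ap P α.toZFSet, ZFSet.pair z q ∉ K) B ∈ N := by
      obtain ⟨b, hb, hb'⟩ := hN.exists_sep (P := fun q => ∀ z : N, z.1 ∈ (⟨_, hpN⟩ : N).1 →
        ¬ ZFSet.pair z.1 q.1 ∈ (⟨K, hK⟩ : N).1) (by
        (repeat' first
      | exact DT.var _ | exact DT.last | exact DT.const _ | assumption
      | exact UD.d2 (P := fun N a b => FnD a.1 b.1) ud_FnD hN (DT.var _) (DT.var _)
      | exact UD.d1 (P := fun N x => Ctb N x.1) ud_Ctb hN (DT.var _)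
      | refine Dfn.pairMem ?_ ?_ ?_ | refine Dfn.isPair ?_ ?_ ?_ | refine Dfn.mem ?_ ?_
      | refine Dfn.eqv ?_ ?_ | refine Dfn.eq ?_ ?_ | refine Dfn.subset ?_ ?_
      | refine Dfn.isEmpty ?_ | refine Dfn.isTrans ?_ | refine Dfn.isOrd ?_ | refine Dfn.isNat ?_
      | refine Dfn.and ?_ ?_ | refine Dfn.or ?_ ?_ | refine Dfn.iff ?_ ?_ | refine Dfn.not ?_
      | refine Dfn.imp ?_ ?_ | refine Dfn.all ?_ | refine Dfn.ex ?_ | exact Dfn.false')) hB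
      have h1 : ZFSet.sep (fun q => ∀ z ∈ ap P α.toZFSet, ZFSet.pair z q ∉ K) B = b := by
        ext q
        rw [ZFSet.mem_sep, hb']
        constructor
        · rintro ⟨h1, h2⟩
          exact ⟨h1, hN.mem_of_mem hB h1, fun z hz => h2 z.1 hz⟩
        · rintro ⟨h1, _, h2⟩
          exact ⟨h1, fun z hz => h2 ⟨z, hN.mem_of_mem hpN hz⟩ hz⟩
      rw [h1]
      exact hb
    refine (tk7_union2 hN hU hc0 hUc (hco _ hαδ)).mono fun q hq => ?_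
    have hq' := mem_selQ.1 hq
    rw [ZFSet.mem_union]
    by_cases hz : ∃ z ∈ ap P α.toZFSet, ZFSet.pair z q ∈ K
    · obtain ⟨z, hz, hzq⟩ := hz
      have hzs : z ∈ s := (hs z).1 hz
      left
      refine hUs z hzs (ZFSet.mem_sep.2 ⟨mem_selQ.2 ⟨hq'.1, fun x hx w hw => ?_⟩, hzq⟩)
      refine hq'.2 x ?_ w hw
      rw [hFdef, ZFSet.mem_sep]
      exact ⟨(hFy z hz).2.1 hx, z, hzs, hx⟩
    · push Not at hz
      right
      exact ZFSet.mem_sep.2 ⟨hq'.1, hz⟩)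
  refine ⟨g.1, g.2, hg, ?_, ?_⟩
  · intro x hx
    obtain ⟨α, hα, rfl⟩ := Ordinal.mem_toZFSet_iff.1 hx
    have hαN := hN.mem_of_mem hδ.mem hx
    obtain ⟨h1, h2⟩ := hg.ap_mem hx
    obtain ⟨h3, h4⟩ := hPf.ap_mem hx
    have hr : FnD (rs g.1 α.toZFSet) α.toZFSet := by
      refine ⟨fun z hz => (ZFSet.mem_sep.1 hz).2, fun x hx => ?_, fun x y y' h1 h2 => ?_⟩
      · obtain ⟨y, hy⟩ := hg.fnD.tot x (Ordinal.toZFSet_subset_toZFSet_iff.2 hα.le hx)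
        exact ⟨y, pair_mem_rs.2 ⟨hx, hy⟩⟩
      · exact hg.fnD.uni x y y' (pair_mem_rs.1 h1).2 (pair_mem_rs.1 h2).2
    exact (hg' α hα ⟨_, rs_mem hN g.2 hαN⟩ ⟨_, hN.mem_of_mem hV h1⟩ rfl h2 ⟨_, hαN⟩ hr).1
      ⟨_, hN.mem_of_mem hW h3⟩ h4
  · intro F hF hFδ hc
    refine sel_unc hN (B := ⟨B, hB⟩) (K := ⟨K, hK⟩) (P := ⟨P, hP⟩) (Fi := ⟨Fi, hFiN⟩) le_rfl hδ.mem
      hBu hFi hg.fnD hg' hF hFδ ?_
    refine hc.mono fun q hq => ?_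
    have hq' := mem_selQ.1 hq
    refine ZFSet.mem_sep.2 ⟨hq'.1, fun x hx => ?_⟩
    exact hq'.2 x hx _ (hg.ap_mem (hFδ hx)).2

end Pool.Agent.H88.IG
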