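import Pool.Agent.H88.IG.Df

/-!
# IG, part S: uncountable sets of finite width contain uncountable chains

`X ⊆ δ` is uncountable and has no antichain (set of pairwise incomparable elements) with more than `k` elements, in the
tree `(δ, r)`. Then it contains an uncountable chain.
Proof. Let `s` be an antichain (a Finset) contained in `X` of the largest possible size. Every `x ∈ X` is comparable with
or equal to some `c ∈ s`. For `c ∈ s` let `X_c = {x ∈ X : (c, x) ∈ r}` (`exists_sep`). This is a chain: if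
`x ≠ y` in `X_c` are incomparable, then `(s ∖ {c}) ∪ {x, y}` is an antichain: for `c' ∈ s`, `c' ≠ c`: `x = c'` and
`x < c'` give `c < c'`; and `c' < x` gives, with `c < x`, that `c`, `c'` are comparable. This has more elements than `s`,
a contradiction. If all `X_c` are countable, then `X` is contained in the union of the finitely many countable sets
`{x : (x, c) ∈ r} ∪ {c} ∪ X_c` (`hT.ctb`), so it is countable (`tk7_union` with `I` = the set `s`, which is an
element of `N` by `FinZ.mem`).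
-/

set_option autoImplicit false
set_option linter.unusedVariables false
set_option linter.unusedSectionVars false
set_option linter.unusedSimpArgs false
set_option linter.unusedTactic false
set_option linter.unreachableTactic false

namespace Pool.Agent.H88.IG

open Pool.Agent.H17.Omega Pool.Agent.H17.Omega.CTM Pool.Agent.H52.GX Pool.Agent.H52.GC Pool.Agent.H7.IG

variable {N : Set ZFSet.{0}} (hN : CTM N)

include hN

theorem exists_chain {δ : Ordinal.{0}} (hδ : IsOm1 N δ) {r X : ZFSet.{0}} (hr : r ∈ N) (hT : TreeO N δ r)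
    (hX : X ∈ N) (hXδ : X ⊆ δ.toZFSet) (hXu : ¬ Ctb N X) {k : ℕ}
    (hk : ∀ s : Finset ZFSet.{0}, (∀ x ∈ s, x ∈ X) → (∀ x ∈ s, ∀ y ∈ s, x ≠ y → ZFSet.pair x y ∉ r) →
      s.card ≤ k) :
    ∃ C ∈ N, C ⊆ X ∧ ¬ Ctb N C ∧ Lin r C := by
  classical
  by_contra hcon
  push Not at hcon
  let An : Finset ZFSet.{0} → Prop := fun s =>
    (∀ x ∈ s, x ∈ X) ∧ ∀ x ∈ s, ∀ y ∈ s, x ≠ y → ZFSet.pair x y ∉ r
  have h0 : An ∅ := ⟨fun x hx => absurd hx (Finset.notMem_empty x), fun x hx => absurd hx (Finset.notMem_empty x)⟩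
  have hmaxt : ∃ t, An t ∧ ∀ t', An t' → t'.card ≤ t.card := by
    have h1 : {m : ℕ | ∃ t, An t ∧ t.card = m}.Nonempty := ⟨_, ∅, h0, rfl⟩
    have h2 : BddAbove {m : ℕ | ∃ t, An t ∧ t.card = m} := ⟨k, by rintro _ ⟨t, ht, rfl⟩; exact hk t ht.1 ht.2⟩
    obtain ⟨t, ht, ht'⟩ := Nat.sSup_mem h1 h2
    refine ⟨t, ht, fun t' ht1 => ?_⟩
    rw [ht']
    exact le_csSup h2 ⟨t', ht1, rfl⟩
  obtain ⟨s, hs, hmax⟩ := hmaxt
  have hsr : ∀ x ∈ s, ∀ y ∈ s, ZFSet.pair x y ∉ r := by
    intro x hx y hy hxy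
    by_cases h : x = y
    · subst h; exact hT.irrefl x hxy
    · exact hs.2 x hx y hy h hxy
  -- every element is comparable with an element of `s`
  have hcmp : ∀ x ∈ X, ∃ c ∈ s, c = x ∨ ZFSet.pair x c ∈ r ∨ ZFSet.pair c x ∈ r := by
    intro x hx
    by_contra hc
    push Not at hc
    have h1 : x ∉ s := fun h => (hc x h).1 rfl
    have h2 : An (insert x s) := by
      refine ⟨fun y hy => ?_, fun y hy z hz hyz => ?_⟩
      · rcases Finset.mem_insert.1 hy with rfl | hy
        · exact hx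
        · exact hs.1 y hy
      · rcases Finset.mem_insert.1 hy with rfl | hy
        · rcases Finset.mem_insert.1 hz with rfl | hz
          · exact absurd rfl hyz
          · exact (hc z hz).2.1
        · rcases Finset.mem_insert.1 hz with hzx | hz
          · rw [hzx]
            exact (hc y hy).2.2
          · exact hsr y hy z hz
    have h3 := hmax _ h2
    rw [Finset.card_insert_of_notMem h1] at h3
    omega
  -- the sets `X_c` are chains
  have hlin : ∀ c ∈ s, ∀ x ∈ X, ∀ y ∈ X, ZFSet.pair c x ∈ r → ZFSet.pair c y ∈ r →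
      x = y ∨ ZFSet.pair x y ∈ r ∨ ZFSet.pair y x ∈ r := by
    intro c hc x hx y hy hcx hcy
    by_contra hno
    push Not at hno
    obtain ⟨g1, g2, g3⟩ := hno
    have up : ∀ w ∈ X, ZFSet.pair c w ∈ r → w ∉ s ∧ ∀ c' ∈ s.erase c, ZFSet.pair w c' ∉ r ∧ ZFSet.pair c' w ∉ r := by
      intro w hw hcw
      refine ⟨fun h => hsr c hc w h hcw, fun c' hc' => ⟨fun h => ?_, fun h => ?_⟩⟩
      · exact hsr c hc c' (Finset.mem_of_mem_erase hc') (hT.trans _ _ _ hcw h)
      · rcases hT.tree _ _ _ h hcw with h4 | h4 | h4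
        · exact (Finset.ne_of_mem_erase hc') h4
        · exact hsr c' (Finset.mem_of_mem_erase hc') c hc h4
        · exact hsr c hc c' (Finset.mem_of_mem_erase hc') h4
    obtain ⟨hx1, hx2⟩ := up x hx hcx
    obtain ⟨hy1, hy2⟩ := up y hy hcy
    have hy3 : y ∉ s.erase c := fun h => hy1 (Finset.mem_of_mem_erase h)
    have hx3 : x ∉ insert y (s.erase c) := by
      intro h
      rcases Finset.mem_insert.1 h with h | h
      · exact g1 h
      · exact hx1 (Finset.mem_of_mem_erase h)
    have h2 : An (insert x (insert y (s.erase c))) := by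
      refine ⟨fun z hz => ?_, fun z hz w hw hzw => ?_⟩
      · rcases Finset.mem_insert.1 hz with rfl | hz
        · exact hx
        · rcases Finset.mem_insert.1 hz with rfl | hz
          · exact hy
          · exact hs.1 z (Finset.mem_of_mem_erase hz)
      · rcases Finset.mem_insert.1 hz with rfl | hz
        · rcases Finset.mem_insert.1 hw with rfl | hw
          · exact absurd rfl hzw
          · rcases Finset.mem_insert.1 hw with rfl | hw
            · exact g2
            · exact (hx2 w hw).1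
        · rcases Finset.mem_insert.1 hz with rfl | hz
          · rcases Finset.mem_insert.1 hw with rfl | hw
            · exact g3
            · rcases Finset.mem_insert.1 hw with rfl | hw
              · exact absurd rfl hzw
              · exact (hy2 w hw).1
          · rcases Finset.mem_insert.1 hw with hwx | hw
            · rw [hwx]
              exact (hx2 z hz).2
            · rcases Finset.mem_insert.1 hw with hwy | hw
              · rw [hwy]
                exact (hy2 z hz).2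
              · exact hsr z (Finset.mem_of_mem_erase hz) w (Finset.mem_of_mem_erase hw)
    have h3 := hmax _ h2
    rw [Finset.card_insert_of_notMem hx3, Finset.card_insert_of_notMem hy3, Finset.card_erase_of_mem hc] at h3
    have h4 : 0 < s.card := Finset.card_pos.2 ⟨c, hc⟩
    omega
  -- the index set
  obtain ⟨I, hI⟩ : ∃ I : ZFSet.{0}, ∀ z, z ∈ I ↔ z ∈ s := by
    refine ⟨ZFSet.sep (fun z => z ∈ s) X, fun z => ?_⟩
    rw [ZFSet.mem_sep]
    exact ⟨fun h => h.2, fun h => ⟨hs.1 z h, h⟩⟩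
  have hIN : I ∈ N := FinZ.mem (X := I) hN ⟨s, hI⟩ fun z hz => hN.mem_of_mem hX (hs.1 z ((hI z).1 hz))
  refine hXu (tk7_union hN (F := fun i x => i = x ∨ ZFSet.pair x.1 i.1 ∈ (⟨r, hr⟩ : N).1 ∨
    ZFSet.pair i.1 x.1 ∈ (⟨r, hr⟩ : N).1) (by
    (repeat' first
        | exact DT.var _ | exact DT.last | exact DT.const _ | assumption
        | refine Dfn.pairMem ?_ ?_ ?_ | refine Dfn.isPair ?_ ?_ ?_ | refine Dfn.mem ?_ ?_
        | refine Dfn.eqv ?_ ?_ | refine Dfn.eq ?_ ?_ | refine Dfn.subset ?_ ?_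
        | refine Dfn.isEmpty ?_ | refine Dfn.isTrans ?_ | refine Dfn.isOrd ?_
        | refine Dfn.isNat ?_ | refine Dfn.and ?_ ?_ | refine Dfn.or ?_ ?_ | refine Dfn.iff ?_ ?_
        | refine Dfn.not ?_ | refine Dfn.imp ?_ ?_ | refine Dfn.all ?_ | refine Dfn.ex ?_
        | exact Dfn.false')) hIN hX (tk7_fin_ctb hN hIN ⟨s, hI⟩) ?_ ?_)
  · intro i hi
    have his : i.1 ∈ s := (hI _).1 hi
    obtain ⟨A, hA, hA'⟩ := hN.exists_sep (P := fun x => ZFSet.pair x.1 i.1 ∈ (⟨r, hr⟩ : N).1) (by
      (repeat' first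
        | exact DT.var _ | exact DT.last | exact DT.const _ | assumption
        | refine Dfn.pairMem ?_ ?_ ?_ | refine Dfn.isPair ?_ ?_ ?_ | refine Dfn.mem ?_ ?_
        | refine Dfn.eqv ?_ ?_ | refine Dfn.eq ?_ ?_ | refine Dfn.subset ?_ ?_
        | refine Dfn.isEmpty ?_ | refine Dfn.isTrans ?_ | refine Dfn.isOrd ?_
        | refine Dfn.isNat ?_ | refine Dfn.and ?_ ?_ | refine Dfn.or ?_ ?_ | refine Dfn.iff ?_ ?_
        | refine Dfn.not ?_ | refine Dfn.imp ?_ ?_ | refine Dfn.all ?_ | refine Dfn.ex ?_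
        | exact Dfn.false')) hX
    obtain ⟨B, hB, hB'⟩ := hN.exists_sep (P := fun x => ZFSet.pair i.1 x.1 ∈ (⟨r, hr⟩ : N).1) (by
      (repeat' first
        | exact DT.var _ | exact DT.last | exact DT.const _ | assumption
        | refine Dfn.pairMem ?_ ?_ ?_ | refine Dfn.isPair ?_ ?_ ?_ | refine Dfn.mem ?_ ?_
        | refine Dfn.eqv ?_ ?_ | refine Dfn.eq ?_ ?_ | refine Dfn.subset ?_ ?_
        | refine Dfn.isEmpty ?_ | refine Dfn.isTrans ?_ | refine Dfn.isOrd ?_
        | refine Dfn.isNat ?_ | refine Dfn.and ?_ ?_ | refine Dfn.or ?_ ?_ | refine Dfn.iff ?_ ?_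
        | refine Dfn.not ?_ | refine Dfn.imp ?_ ?_ | refine Dfn.all ?_ | refine Dfn.ex ?_
        | exact Dfn.false')) hX
    have hAc : Ctb N A := hT.ctb i.1 (hXδ (hs.1 _ his)) A hA fun x hx => by
      obtain ⟨_, _, h3⟩ := (hA' x).1 hx
      exact h3
    have hBX : B ⊆ X := fun x hx => ((hB' x).1 hx).1
    have hBc : Ctb N B := by
      by_contra hB2
      refine hcon B hB hBX hB2 fun x hx y hy => ?_
      obtain ⟨k1, _, k2⟩ := (hB' x).1 hx
      obtain ⟨l1, _, l2⟩ := (hB' y).1 hy
      exact hlin i.1 his x k1 y l1 k2 l2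
    have hsg : ({i.1} : ZFSet.{0}) ∈ N := hN.singleton_mem i.2
    have hsc : Ctb N ({i.1} : ZFSet.{0}) := tk7_fin_ctb hN hsg ⟨{i.1}, fun z => by simp⟩
    refine ⟨({i.1} : ZFSet.{0}) ∪ (A ∪ B), hN.union_mem hsg (hN.union_mem hA hB),
      tk7_union2 hN hsg (hN.union_mem hA hB) hsc (tk7_union2 hN hA hB hAc hBc), fun x hx hix => ?_⟩
    rw [ZFSet.mem_union, ZFSet.mem_union]
    rcases hix with h | h | h
    · left; rw [h]; simp
    · exact Or.inr (Or.inl ((hA' _).2 ⟨hx, x.2, h⟩))
    · exact Or.inr (Or.inr ((hB' _).2 ⟨hx, x.2, h⟩))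
  · intro x hx
    obtain ⟨c, hc, hc'⟩ := hcmp x.1 hx
    have hcI : c ∈ I := (hI c).2 hc
    refine ⟨⟨c, hN.mem_of_mem hIN hcI⟩, hcI, ?_⟩
    rcases hc' with h | h | h
    · exact Or.inl (Subtype.ext h)
    · exact Or.inr (Or.inl h)
    · exact Or.inr (Or.inr h)

end Pool.Agent.H88.IG
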