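import Pool.Agent.H88.IG.Sz
import Pool.Agent.H88.IG.Sel
import Pool.Agent.H88.IG.Wid
import Pool.Agent.H88.IG.Conf

/-!
# IG, part S: the poset of finite partial colourings is ccc

Proof. Suppose `A` is uncountable. `delta_system` with `d = {(a, a) : a ∈ A}` (`exists_fn`) and then `exists_size` give an
uncountable `B ⊆ A`, `ρ`, `k` with `a ∩ b = ρ` for different `a, b ∈ B`, and all `b ∈ B` have at most `k` elements. Let
`f` be an injection from `δ` to `B` (`exists_inj_om1`). Let `V = δ × ω`, `W` the set of finite subsets of `V`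
(`exists_fin`), `P(x) = f(x) ∖ ρ` (`exists_fn`), `K = {(z, q) : z ∈ V, q ∈ B, ∃ w ∈ q, w ∉ ρ ∧ Cf r z w}` (`tk7_rel`).
`exists_sel` (with `col_conf`) gives `g`. Let `X = {x ∈ δ : ∃ α ∈ δ, ∃ n ∈ ω, (α, (x, n)) ∈ g}`. `X` is uncountable: `g`
is injective since `f(α) ∩ f(β) = ρ` for `α ≠ β` and `g(α) ∈ f(α) ∖ ρ`, so if `X` were countable then so would be
`X × ω` and `δ` (`Ctb.image`). Antichains `s ⊆ X` have at most `k` elements: for `x ∈ s` choose `α_x`, `n_x` with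
`g(α_x) = (x, n_x)`; by `exists_sel` for the finite set `F` of all `α_x`, there is a `q ∈ B` (`tk7_ne`) and for
`x ∈ s` some `w_x ∈ q` with `Cf r (x, n_x) w_x`; if `w_x = w_y` then `x`, `y` are below the same element, so
comparable, so `x = y`. So `s` has at most as many elements as `q`. `exists_chain` contradicts the hypothesis on chains.
-/

set_option autoImplicit false
set_option linter.unusedVariables false
set_option linter.unusedSectionVars false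
set_option linter.unusedSimpArgs false
set_option linter.unusedTactic false
set_option linter.unreachableTactic false

namespace Pool.Agent.H88.IG

open Pool.Agent.H17.Omega Pool.Agent.H17.Omega.CTM Pool.Agent.H52.GX Pool.Agent.H52.GC Pool.Agent.H7.IG

variable {N : Set ZFSet.{0}} (hN : CTM N)

include hN

omit hN in
theorem ccc_zf (F : Finset ZFSet.{0}) : ∃ u : ZFSet.{0}, ∀ z, z ∈ u ↔ z ∈ F := by
  classical
  induction F using Finset.induction_on with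
  | empty => exact ⟨∅, fun z => ⟨fun h => absurd h (ZFSet.notMem_empty z), fun h => absurd h (Finset.notMem_empty z)⟩⟩
  | insert a t _ ih =>
    obtain ⟨u, hu⟩ := ih
    exact ⟨insert a u, fun z => by rw [ZFSet.mem_insert_iff, Finset.mem_insert, hu]⟩

/-- The values `f(x)` without the elements of `ρ`. -/
theorem ccc_diff {δ : Ordinal.{0}} (hδ : δ.toZFSet ∈ N) {f B V W ρ : ZFSet.{0}} (hf : f ∈ N) (hρ : ρ ∈ N)
    (hW : W ∈ N) (hfn : Fn f δ.toZFSet B) (hV : ∀ b ∈ B, b ⊆ V ∧ FinZ b)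
    (hWf : ∀ w, w ∈ W ↔ w ⊆ V ∧ FinZ w) (hB : B ∈ N) :
    ∃ P ∈ N, Fn P δ.toZFSet W ∧ ∀ x ∈ δ.toZFSet, ∀ z, z ∈ ap P x ↔ z ∈ ap f x ∧ z ∉ ρ := by
  have hd : hN.Dfn (fun v : Fin 2 → N => ∀ z : N, z.1 ∈ (v 1).1 ↔
      (∃ w : N, ZFSet.pair (v 0).1 w.1 ∈ (⟨f, hf⟩ : N).1 ∧ z.1 ∈ w.1) ∧ z.1 ∉ (⟨ρ, hρ⟩ : N).1) := by
    (repeat' first
      | exact DT.var _ | exact DT.last | exact DT.const _ | assumption
      | refine Dfn.pairMem ?_ ?_ ?_ | refine Dfn.isPair ?_ ?_ ?_ | refine Dfn.mem ?_ ?_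
      | refine Dfn.eqv ?_ ?_ | refine Dfn.eq ?_ ?_ | refine Dfn.subset ?_ ?_
      | refine Dfn.and ?_ ?_ | refine Dfn.or ?_ ?_ | refine Dfn.iff ?_ ?_ | refine Dfn.not ?_
      | refine Dfn.imp ?_ ?_ | refine Dfn.all ?_ | refine Dfn.ex ?_ | exact Dfn.false')
  have key : ∀ x ∈ δ.toZFSet, ∀ z : N, (∃ w : N, ZFSet.pair x w.1 ∈ f ∧ z.1 ∈ w.1) ↔ z.1 ∈ ap f x := by
    intro x hx z
    obtain ⟨h1, h2⟩ := hfn.ap_mem hx
    constructor
    · rintro ⟨w, hw1, hw2⟩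
      rw [hfn.ap_eq hw1]
      exact hw2
    · exact fun h => ⟨⟨ap f x, hN.mem_of_mem hB h1⟩, h2, h⟩
  obtain ⟨P, hP, hPfn, hP'⟩ := exists_fn hN (F := fun x y => ∀ z : N, z.1 ∈ y.1 ↔
    (∃ w : N, ZFSet.pair x.1 w.1 ∈ (⟨f, hf⟩ : N).1 ∧ z.1 ∈ w.1) ∧ z.1 ∉ (⟨ρ, hρ⟩ : N).1) hd hδ hW (by
    intro x hx
    obtain ⟨h1, h2⟩ := hfn.ap_mem hx
    obtain ⟨S, hS⟩ : ∃ S : ZFSet.{0}, ∀ z, z ∈ S ↔ z ∈ ap f x.1 ∧ z ∉ ρ :=
      ⟨ZFSet.sep (fun z => z ∉ ρ) (ap f x.1), fun z => ZFSet.mem_sep⟩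
    have hs : S ⊆ V :=
      fun z hz => (hV _ h1).1 ((hS z).1 hz).1
    have hfi : FinZ S := by
      classical
      obtain ⟨t, ht⟩ := (hV _ h1).2
      refine ⟨t.filter (fun z => z ∉ ρ), fun z => ?_⟩
      rw [hS, Finset.mem_filter, ht]
    have hw := (hWf _).2 ⟨hs, hfi⟩
    refine ⟨⟨S, hN.mem_of_mem hW hw⟩, hw, ?_, ?_⟩
    · intro z
      rw [key x.1 hx z]
      exact hS z.1
    · intro y' _ hy'
      apply Subtype.ext
      ext z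
      constructor
      · intro hz
        have hzN := hN.mem_of_mem y'.2 hz
        have h3 := (hy' ⟨z, hzN⟩).1 hz
        rw [key x.1 hx ⟨z, hzN⟩] at h3
        exact (hS z).2 h3
      · intro hz
        have hz' := (hS z).1 hz
        have hzN : z ∈ N := hN.mem_of_mem (hN.mem_of_mem hB h1) hz'.1
        refine (hy' ⟨z, hzN⟩).2 ?_
        rw [key x.1 hx ⟨z, hzN⟩]
        exact hz')
  refine ⟨P, hP, hPfn, fun x hx z => ?_⟩
  obtain ⟨h1, h2⟩ := hPfn.ap_mem hx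
  have hxN : x ∈ N := hN.mem_of_mem hδ hx
  have hyN : ap P x ∈ N := hN.mem_of_mem hW h1
  have h3 := ((hP' ⟨x, hxN⟩ ⟨ap P x, hyN⟩).1 h2).2.2
  constructor
  · intro hz
    have hzN := hN.mem_of_mem hyN hz
    have h4 := (h3 ⟨z, hzN⟩).1 hz
    rw [key x hx ⟨z, hzN⟩] at h4
    exact h4
  · intro hz
    have hzN : z ∈ N := hN.mem_of_mem (hN.mem_of_mem hB (hfn.ap_mem hx).1) hz.1
    refine (h3 ⟨z, hzN⟩).2 ?_
    rw [key x hx ⟨z, hzN⟩]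
    exact hz

theorem col_ccc {δ : Ordinal.{0}} (hδ : IsOm1 N δ) {r A : ZFSet.{0}} (hr : r ∈ N) (hT : TreeO N δ r)
    (hch : ∀ C ∈ N, C ⊆ δ.toZFSet → Lin r C → Ctb N C)
    (hA : A ∈ N) (hAc : ∀ a ∈ A, Col δ r a) (hinc : ∀ a ∈ A, ∀ b ∈ A, a ≠ b → ¬ Col δ r (a ∪ b)) :
    Ctb N A := by
  classical
  by_contra hu
  -- the identity function on `A`
  obtain ⟨d, hd, hdfn, hd'⟩ := exists_fn hN (F := fun x y => x = y) (Dfn.eq (DT.var _) (DT.var _)) hA hA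
    (fun x hx => ⟨x, hx, rfl, fun y' _ h => h.symm⟩)
  have hda : ∀ a ∈ A, ap d a = a := by
    intro a ha
    exact hdfn.ap_eq ((hd' ⟨a, hN.mem_of_mem hA ha⟩ ⟨a, hN.mem_of_mem hA ha⟩).2 ⟨ha, ha, rfl⟩)
  obtain ⟨B₀, hB₀, hB₀A, hB₀u, ρ, hρf, hρ⟩ := delta_system hN hA hA hd hdfn (fun c hc => (hAc c hc).fin) hu
  obtain ⟨k, B, hB, hBB₀, hBu, hk⟩ := exists_size hN hB₀ (fun b hb => (hAc b (hB₀A hb)).fin) hB₀u
  have hBA : ∀ b ∈ B, b ∈ A := fun b hb => hB₀A (hBB₀ hb)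
  have hΔ : ∀ a ∈ B, ∀ b ∈ B, a ≠ b → a ∩ b = ρ := by
    intro a ha b hb hab
    have h1 := hρ a (hBB₀ ha) b (hBB₀ hb) hab
    rwa [hda a (hBA a ha), hda b (hBA b hb)] at h1
  obtain ⟨f, hf, hfn, hfi⟩ := exists_inj_om1 hN hδ hB hBu
  have hinj : ∀ x ∈ δ.toZFSet, ∀ y ∈ δ.toZFSet, x ≠ y → ap f x ≠ ap f y := by
    intro x hx y hy hxy he
    have h1 := (hfn.ap_mem hx).2
    have h2 := (hfn.ap_mem hy).2
    rw [he] at h1
    exact hxy (hfi _ _ _ h1 h2)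
  have h0 : (0 : Ordinal.{0}).toZFSet ∈ δ.toZFSet := by
    rw [Ordinal.toZFSet_mem_toZFSet_iff]
    exact_mod_cast IsOm1.omega_lt hN hδ 0
  have h1 : (1 : Ordinal.{0}).toZFSet ∈ δ.toZFSet := by
    rw [Ordinal.toZFSet_mem_toZFSet_iff]
    exact_mod_cast IsOm1.omega_lt hN hδ 1
  have h01 : (0 : Ordinal.{0}).toZFSet ≠ (1 : Ordinal.{0}).toZFSet := by
    intro h
    exact absurd (toZFSet_inj.1 h) (by simp)
  have hρN : ρ ∈ N := by
    refine hρf.mem hN (X := ρ) (fun z hz => ?_)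
    rw [← hΔ _ (hfn.ap_mem h0).1 _ (hfn.ap_mem h1).1 (hinj _ h0 _ h1 h01)] at hz
    exact hN.mem_of_mem (hN.mem_of_mem hB (hfn.ap_mem h0).1) (ZFSet.mem_inter.1 hz).1
  have hVN : ZFSet.prod δ.toZFSet omZ ∈ N := hN.prod_mem hδ.mem hN.omZ_mem
  obtain ⟨W, hW, hW'⟩ := exists_fin hN hVN
  obtain ⟨P, hP, hPfn, hP'⟩ := ccc_diff hN hδ.mem hf hρN hW hfn
    (fun b hb => ⟨(hAc b (hBA b hb)).sub, (hAc b (hBA b hb)).fin⟩) hW' hB
  -- the relation `K`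
  have hKd : hN.Dfn (fun v : Fin 2 → N => ∃ w : N, w.1 ∈ (v 1).1 ∧ w.1 ∉ (⟨ρ, hρN⟩ : N).1 ∧
      ∃ x y n : N, (v 0).1 = ZFSet.pair x.1 n.1 ∧ w.1 = ZFSet.pair y.1 n.1 ∧
        ZFSet.pair x.1 y.1 ∈ (⟨r, hr⟩ : N).1) := by
    (repeat' first
      | exact DT.var _ | exact DT.last | exact DT.const _ | assumption
      | refine Dfn.pairMem ?_ ?_ ?_ | refine Dfn.isPair ?_ ?_ ?_ | refine Dfn.mem ?_ ?_
      | refine Dfn.eqv ?_ ?_ | refine Dfn.eq ?_ ?_ | refine Dfn.subset ?_ ?_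
      | refine Dfn.and ?_ ?_ | refine Dfn.or ?_ ?_ | refine Dfn.iff ?_ ?_ | refine Dfn.not ?_
      | refine Dfn.imp ?_ ?_ | refine Dfn.all ?_ | refine Dfn.ex ?_ | exact Dfn.false')
  obtain ⟨K, hK, hK'⟩ := tk7_rel hN (F := fun z q => ∃ w : N, w.1 ∈ q.1 ∧ w.1 ∉ (⟨ρ, hρN⟩ : N).1 ∧
      ∃ x y n : N, z.1 = ZFSet.pair x.1 n.1 ∧ w.1 = ZFSet.pair y.1 n.1 ∧
        ZFSet.pair x.1 y.1 ∈ (⟨r, hr⟩ : N).1) hKd hVN hB
  have hKiff : ∀ z q, ZFSet.pair z q ∈ K ↔ z ∈ ZFSet.prod δ.toZFSet omZ ∧ q ∈ B ∧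
      ∃ w ∈ q, w ∉ ρ ∧ Cf r z w := by
    intro z q
    constructor
    · intro h
      have hpN := hN.mem_of_mem hK h
      have hz := (hN.of_pair_mem (hN.mem_of_mem hK h)).1
      have hq := (hN.of_pair_mem (hN.mem_of_mem hK h)).2
      obtain ⟨h2, h3, w, h4, h5, x, y, n, h6, h7, h8⟩ := (hK' ⟨z, hz⟩ ⟨q, hq⟩).1 h
      exact ⟨h2, h3, w.1, h4, h5, x.1, y.1, n.1, h6, h7, h8⟩
    · rintro ⟨h2, h3, w, h4, h5, x, y, n, h6, h7, h8⟩
      have hz : z ∈ N := hN.mem_of_mem hVN h2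
      have hq : q ∈ N := hN.mem_of_mem hB h3
      have hw : w ∈ N := hN.mem_of_mem hq h4
      have hxy := hN.of_pair_mem (hN.mem_of_mem hr h8)
      have hyn : n ∈ N := by
        have h9 := hw
        rw [h7] at h9
        exact (hN.of_pair_mem h9).2
      exact (hK' ⟨z, hz⟩ ⟨q, hq⟩).2 ⟨h2, h3, ⟨w, hw⟩, h4, h5, ⟨x, hxy.1⟩, ⟨y, hxy.2⟩, ⟨n, hyn⟩, h6, h7, h8⟩
  obtain ⟨g, hg, hgfn, hgP, hgu⟩ := exists_sel hN hδ hB hBu hVN hW hK hP hPfn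
    (fun w hw => ⟨((hW' w).1 hw).2, ((hW' w).1 hw).1⟩) (by
    intro x hx
    have hp := (hfn.ap_mem hx).1
    refine Ctb.mono (col_conf hN hδ hr hT hB hρN (fun a ha => hAc a (hBA a ha))
      (fun a ha b hb => hinc a (hBA a ha) b (hBA b hb)) hΔ hp) ?_
    intro q hq
    obtain ⟨hqB, hq'⟩ := ZFSet.mem_sep.1 hq
    refine ZFSet.mem_sep.2 ⟨hqB, fun z hz hzρ w hw hwρ hcf => ?_⟩
    exact hq' z ((hP' x hx z).2 ⟨hz, hzρ⟩)
      ((hKiff z q).2 ⟨(hAc _ (hBA _ hp)).sub hz, hqB, w, hw, hwρ, hcf⟩))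
  -- the set `X`
  have hXd : hN.Dfn (fun v : Fin 1 → N => ∃ a : N, ∃ n : N, ∃ t : N, t.1 = ZFSet.pair (v 0).1 n.1 ∧
      ZFSet.pair a.1 t.1 ∈ (⟨g, hg⟩ : N).1) := by
    (repeat' first
      | exact DT.var _ | exact DT.last | exact DT.const _ | assumption
      | refine Dfn.pairMem ?_ ?_ ?_ | refine Dfn.isPair ?_ ?_ ?_ | refine Dfn.mem ?_ ?_
      | refine Dfn.eqv ?_ ?_ | refine Dfn.eq ?_ ?_ | refine Dfn.subset ?_ ?_
      | refine Dfn.and ?_ ?_ | refine Dfn.or ?_ ?_ | refine Dfn.iff ?_ ?_ | refine Dfn.not ?_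
      | refine Dfn.imp ?_ ?_ | refine Dfn.all ?_ | refine Dfn.ex ?_ | exact Dfn.false')
  obtain ⟨X, hX, hX'⟩ := hN.exists_sep (P := fun x => ∃ a : N, ∃ n : N, ∃ t : N, t.1 = ZFSet.pair x.1 n.1 ∧
      ZFSet.pair a.1 t.1 ∈ (⟨g, hg⟩ : N).1) hXd hδ.mem
  have hXiff : ∀ x, x ∈ X ↔ x ∈ δ.toZFSet ∧ ∃ a ∈ δ.toZFSet, ∃ n, ap g a = ZFSet.pair x n := by
    intro x
    rw [hX']
    constructor
    · rintro ⟨h2, h3, a, n, t, h4, h5⟩
      obtain ⟨a', ha', y', hy', h6⟩ := hgfn.sub _ h5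
      rw [ZFSet.pair_inj] at h6
      refine ⟨h2, a.1, by rw [h6.1]; exact ha', n.1, ?_⟩
      rw [hgfn.ap_eq h5]
      exact h4
    · rintro ⟨h2, a, ha, n, h3⟩
      obtain ⟨h4, h5⟩ := hgfn.ap_mem ha
      have h6 : ap g a ∈ N := hN.mem_of_mem hVN h4
      have h7 := h6
      rw [h3] at h7
      exact ⟨h2, hN.mem_of_mem hδ.mem h2, ⟨a, hN.mem_of_mem hδ.mem ha⟩, ⟨n, (hN.of_pair_mem h7).2⟩,
        ⟨ap g a, h6⟩, h3, h5⟩
  have hXδ : X ⊆ δ.toZFSet := fun x hx => ((hXiff x).1 hx).1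
  have hgi : ∀ x ∈ δ.toZFSet, ∀ y ∈ δ.toZFSet, ap g x = ap g y → x = y := by
    intro x hx y hy he
    by_contra hxy
    have h2 := (hP' x hx _).1 (hgP x hx)
    have h3 := (hP' y hy _).1 (hgP y hy)
    rw [← he] at h3
    have h4 : ap g x ∈ ap f x ∩ ap f y := ZFSet.mem_inter.2 ⟨h2.1, h3.1⟩
    rw [hΔ _ (hfn.ap_mem hx).1 _ (hfn.ap_mem hy).1 (hinj x hx y hy hxy)] at h4
    exact h2.2 h4
  have hXu : ¬ Ctb N X := by
    intro hXc
    apply hδ.unc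
    refine Ctb.image hN (Ctb.prod hN hXc (ctb_om hN)) (hN.prod_mem hX hN.omZ_mem)
      (F := fun z a => ZFSet.pair a.1 z.1 ∈ (⟨g, hg⟩ : N).1)
      (Dfn.pairMem (DT.var _) (DT.var _) (DT.const _)) ?_ ?_
    · intro z hz a a' h2 h3
      obtain ⟨x, hx, _, _, h6⟩ := hgfn.sub _ h2
      obtain ⟨x', hx', _, _, h7⟩ := hgfn.sub _ h3
      rw [ZFSet.pair_inj] at h6 h7
      refine Subtype.ext (hgi _ (by rw [h6.1]; exact hx) _ (by rw [h7.1]; exact hx') ?_)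
      rw [hgfn.ap_eq h2, hgfn.ap_eq h3]
    · intro a ha
      obtain ⟨h4, h5⟩ := hgfn.ap_mem ha
      obtain ⟨x, hx, n, hn, h6⟩ := ZFSet.mem_prod.1 h4
      refine ⟨⟨ap g a, hN.mem_of_mem hVN h4⟩, ⟨a, hN.mem_of_mem hδ.mem ha⟩, ?_, rfl, h5⟩
      show ap g a ∈ ZFSet.prod X omZ
      rw [h6, ZFSet.pair_mem_prod]
      exact ⟨(hXiff x).2 ⟨hx, a, ha, n, h6⟩, hn⟩
  have hwid : ∀ s : Finset ZFSet.{0}, (∀ x ∈ s, x ∈ X) → (∀ x ∈ s, ∀ y ∈ s, x ≠ y → ZFSet.pair x y ∉ r) →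
      s.card ≤ k := by
    intro s hs hanti
    have hch' : ∀ x : ZFSet.{0}, ∃ a : ZFSet.{0}, x ∈ s → a ∈ δ.toZFSet ∧ ∃ n, ap g a = ZFSet.pair x n := by
      intro x
      by_cases hx : x ∈ s
      · obtain ⟨_, a, ha, n, h2⟩ := (hXiff x).1 (hs x hx)
        exact ⟨a, fun _ => ⟨ha, n, h2⟩⟩
      · exact ⟨∅, fun h => absurd h hx⟩
    choose al hal using hch'
    obtain ⟨F, hF⟩ := ccc_zf (s.image al)
    have hFfin : FinZ F := ⟨s.image al, hF⟩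
    have hFδ : F ⊆ δ.toZFSet := by
      intro z hz
      obtain ⟨x, hx, rfl⟩ := Finset.mem_image.1 ((hF z).1 hz)
      exact (hal x hx).1
    obtain ⟨q, hq⟩ := tk7_ne hN (hgu F hFfin hFδ)
    obtain ⟨hqB, hq'⟩ := ZFSet.mem_sep.1 hq
    have hw : ∀ x : ZFSet.{0}, ∃ w : ZFSet.{0}, x ∈ s → w ∈ q ∧ ∃ y n, w = ZFSet.pair y n ∧ ZFSet.pair x y ∈ r := by
      intro x
      by_cases hx : x ∈ s
      · have h2 := hq' (al x) ((hF _).2 (Finset.mem_image.2 ⟨x, hx, rfl⟩))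
        obtain ⟨_, _, w, hwq, _, x', y, n, h6, h7, h8⟩ := (hKiff _ _).1 h2
        obtain ⟨_, n', h9⟩ := hal x hx
        rw [h9, ZFSet.pair_inj] at h6
        exact ⟨w, fun _ => ⟨hwq, y, n, h7, by rw [h6.1]; exact h8⟩⟩
      · exact ⟨∅, fun h => absurd h hx⟩
    choose wf hwf using hw
    have hinj' : Set.InjOn wf (s : Set ZFSet.{0}) := by
      intro x hx x' hx' he
      have hx : x ∈ s := hx
      have hx' : x' ∈ s := hx'
      obtain ⟨_, y, n, h2, h3⟩ := hwf x hx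
      obtain ⟨_, y', n', h4, h5⟩ := hwf x' hx'
      have he' : wf x = wf x' := he
      rw [he', h4, ZFSet.pair_inj] at h2
      rw [h2.1] at h5
      by_contra hne
      rcases hT.tree x x' y h3 h5 with h6 | h6 | h6
      · exact hne h6
      · exact hanti x hx x' hx' hne h6
      · exact hanti x' hx' x hx (Ne.symm hne) h6
    have hcard := hk q hqB (s.image wf) (by
      intro z hz
      obtain ⟨x, hx, rfl⟩ := Finset.mem_image.1 hz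
      exact (hwf x hx).1)
    rwa [Finset.card_image_of_injOn hinj'] at hcard
  obtain ⟨C, hC, hCX, hCu, hCL⟩ := exists_chain hN hδ hr hT hX hXδ hXu hwid
  exact hCu (hch C hC (fun x hx => hXδ (hCX hx)) hCL)

end Pool.Agent.H88.IG
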