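import Pool.Agent.H88.IG.Df

/-!
# IG, part S: an increasing sequence of countable members of `X`, cofinal in the countable subsets of `X ∩ Y`

Proof. Let `e` witness `Cvr N δ X`, `A = {a ∈ X : a ⊆ Y, Ctb N a}` (`ud_Ctb.d1`). Apply `exists_dep` with
  `Φ g y` := (∀ x z, (x, z) ∈ g → z ⊆ y) and for the domain `d` of `g` (`FnD g d`, `ud_FnD`) and all `z ∈ X`, `z ∈ Y`:
  `(d, z) ∈ e → z ∈ y`.
Existence at `α < δ`: the union of the `g(β)`, `β < α`, is countable (`tk7_union` with `I = α`), add the at most one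
`z ∈ X ∩ Y` with `(α, z) ∈ e`; this is a countable subset of `X ∩ Y` (the members of `A` are subsets of `X` by `hsub`),
apply `hcov`. The result is increasing, and if `c ⊆ X ∩ Y` is countable, `c ∈ N`, then the least indices of the elements
of `c` are bounded by some `α < δ` (`IsOm1.bdd` or `om1_bdd`), so `c ⊆ g(α)` (or `g(α + 1)`).
-/

set_option autoImplicit false
set_option linter.unusedVariables false
set_option linter.unusedSectionVars false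
set_option linter.unusedSimpArgs false
set_option linter.unusedTactic false
set_option linter.unreachableTactic false

namespace Pool.Agent.H88.IG

open Pool.Agent.H17.Omega Pool.Agent.H17.Omega.CTM Pool.Agent.H52.GX Pool.Agent.H52.GC Pool.Agent.H7.IG

theorem chX_dom {g A B : ZFSet.{0}} (h : FnD g A) (h' : FnD g B) : A = B := by
  ext x
  constructor
  · intro hx
    obtain ⟨y, hy⟩ := h.tot x hx
    obtain ⟨x', hx', y', h1⟩ := h'.sub _ hy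
    rw [ZFSet.pair_inj] at h1
    rw [h1.1]; exact hx'
  · intro hx
    obtain ⟨y, hy⟩ := h'.tot x hx
    obtain ⟨x', hx', y', h1⟩ := h.sub _ hy
    rw [ZFSet.pair_inj] at h1
    rw [h1.1]; exact hx'

variable {N : Set ZFSet.{0}} (hN : CTM N)

include hN

theorem exists_chainX {δ : Ordinal.{0}} (hδ : IsOm1 N δ) {X Y : ZFSet.{0}} (hX : X ∈ N)
    (hXc : Cvr N δ.toZFSet X) (hY : Y ∈ X) (hsub : ∀ a ∈ X, Ctb N a → a ⊆ X)
    (hcov : ∀ c ∈ N, c ⊆ X → c ⊆ Y → Ctb N c → ∃ a ∈ X, Ctb N a ∧ a ⊆ Y ∧ c ⊆ a) :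
    ∃ g ∈ N, Fn g δ.toZFSet X ∧ (∀ x ∈ δ.toZFSet, Ctb N (ap g x) ∧ ap g x ⊆ Y) ∧
      (∀ x ∈ δ.toZFSet, ∀ y ∈ x, ap g y ⊆ ap g x) ∧
      ∀ c ∈ N, c ⊆ X → c ⊆ Y → Ctb N c → ∃ x ∈ δ.toZFSet, c ⊆ ap g x := by
  classical
  obtain ⟨e, he, heu, hec⟩ := hXc
  have hYN : Y ∈ N := hN.mem_of_mem hX hY
  obtain ⟨A, hA, hA'⟩ := hN.exists_sep (P := fun a => a.1 ⊆ (⟨Y, hYN⟩ : N).1 ∧ Ctb N a.1) (by
    show hN.Dfn (fun v : Fin 1 → N => (v 0).1 ⊆ (⟨Y, hYN⟩ : N).1 ∧ Ctb N (v 0).1)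
    exact Dfn.and (Dfn.subset (DT.var _) (DT.const _))
      (UD.d1 (P := fun N x => Ctb N x.1) ud_Ctb hN (DT.var _))) hX
  have hA2 : ∀ a, a ∈ A ↔ a ∈ X ∧ a ⊆ Y ∧ Ctb N a := by
    intro a
    rw [hA' a]
    exact ⟨fun ⟨h1, h2, h3⟩ => ⟨h1, h3⟩, fun ⟨h1, h2⟩ => ⟨h1, hN.mem_of_mem hX h1, h2⟩⟩
  let Φ : N → N → Prop := fun g y => (∀ x z : N, ZFSet.pair x.1 z.1 ∈ g.1 → z.1 ⊆ y.1) ∧
    ∀ d z : N, FnD g.1 d.1 → z.1 ∈ (⟨X, hX⟩ : N).1 → z.1 ∈ (⟨Y, hYN⟩ : N).1 →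
      ZFSet.pair d.1 z.1 ∈ (⟨e, he⟩ : N).1 → z.1 ∈ y.1
  have hΦ : hN.Dfn (fun v : Fin 2 → N => Φ (v 0) (v 1)) := by
    show hN.Dfn (fun v : Fin 2 → N => (∀ x z : N, ZFSet.pair x.1 z.1 ∈ (v 0).1 → z.1 ⊆ (v 1).1) ∧
      ∀ d z : N, FnD (v 0).1 d.1 → z.1 ∈ (⟨X, hX⟩ : N).1 → z.1 ∈ (⟨Y, hYN⟩ : N).1 →
      ZFSet.pair d.1 z.1 ∈ (⟨e, he⟩ : N).1 → z.1 ∈ (v 1).1)
    (repeat' first
      | exact DT.var _ | exact DT.last | exact DT.const _ | assumption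
      | refine Dfn.pairMem ?_ ?_ ?_ | refine Dfn.isPair ?_ ?_ ?_ | refine Dfn.mem ?_ ?_
      | refine Dfn.eqv ?_ ?_ | refine Dfn.eq ?_ ?_ | refine Dfn.subset ?_ ?_
      | refine Dfn.isEmpty ?_ | refine Dfn.isTrans ?_ | refine Dfn.isOrd ?_ | refine Dfn.isNat ?_
      | refine Dfn.isUpair ?_ ?_ ?_ | refine Dfn.isInsert ?_ ?_ ?_
      | refine Dfn.and ?_ ?_ | refine Dfn.or ?_ ?_ | refine Dfn.iff ?_ ?_ | refine Dfn.not ?_
      | refine Dfn.imp ?_ ?_ | refine Dfn.all ?_ | refine Dfn.ex ?_ | exact Dfn.false'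
      | refine Dfn.ballZ ?_ ?_ | refine Dfn.bexZ ?_ ?_ | exact Dfn.const _)
    exact UD.d2 (P := fun N x y => FnD x.1 y.1) ud_FnD hN (DT.var _) (DT.var _)
  have hex : ∀ α < δ, ∀ g : N, Fn g.1 α.toZFSet A →
      (∀ β < α, ∀ r y : N, r.1 = rs g.1 β.toZFSet → ZFSet.pair β.toZFSet y.1 ∈ g.1 → Φ r y) →
      ∃ y : N, y.1 ∈ A ∧ Φ g y := by
    intro α hα g hg _
    have hαN : α.toZFSet ∈ N := hN.toZFSet_mem_of_le hα.le hδ.mem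
    obtain ⟨U1, hU1, hU1'⟩ := hN.exists_sep
      (P := fun z => ∃ x w : N, ZFSet.pair x.1 w.1 ∈ g.1 ∧ z.1 ∈ w.1) (by
      show hN.Dfn (fun v : Fin 1 → N => ∃ x w : N, ZFSet.pair x.1 w.1 ∈ g.1 ∧ (v 0).1 ∈ w.1)
      (repeat' first
      | exact DT.var _ | exact DT.last | exact DT.const _ | assumption
      | refine Dfn.pairMem ?_ ?_ ?_ | refine Dfn.isPair ?_ ?_ ?_ | refine Dfn.mem ?_ ?_
      | refine Dfn.eqv ?_ ?_ | refine Dfn.eq ?_ ?_ | refine Dfn.subset ?_ ?_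
      | refine Dfn.isEmpty ?_ | refine Dfn.isTrans ?_ | refine Dfn.isOrd ?_ | refine Dfn.isNat ?_
      | refine Dfn.isUpair ?_ ?_ ?_ | refine Dfn.isInsert ?_ ?_ ?_
      | refine Dfn.and ?_ ?_ | refine Dfn.or ?_ ?_ | refine Dfn.iff ?_ ?_ | refine Dfn.not ?_
      | refine Dfn.imp ?_ ?_ | refine Dfn.all ?_ | refine Dfn.ex ?_ | exact Dfn.false'
      | refine Dfn.ballZ ?_ ?_ | refine Dfn.bexZ ?_ ?_ | exact Dfn.const _)) hX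
    obtain ⟨U2, hU2, hU2'⟩ := hN.exists_sep
      (P := fun z => z.1 ∈ (⟨Y, hYN⟩ : N).1 ∧
        ZFSet.pair (⟨α.toZFSet, hαN⟩ : N).1 z.1 ∈ (⟨e, he⟩ : N).1) (by
      show hN.Dfn (fun v : Fin 1 → N => (v 0).1 ∈ (⟨Y, hYN⟩ : N).1 ∧
        ZFSet.pair (⟨α.toZFSet, hαN⟩ : N).1 (v 0).1 ∈ (⟨e, he⟩ : N).1)
      (repeat' first
      | exact DT.var _ | exact DT.last | exact DT.const _ | assumption
      | refine Dfn.pairMem ?_ ?_ ?_ | refine Dfn.isPair ?_ ?_ ?_ | refine Dfn.mem ?_ ?_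
      | refine Dfn.eqv ?_ ?_ | refine Dfn.eq ?_ ?_ | refine Dfn.subset ?_ ?_
      | refine Dfn.isEmpty ?_ | refine Dfn.isTrans ?_ | refine Dfn.isOrd ?_ | refine Dfn.isNat ?_
      | refine Dfn.isUpair ?_ ?_ ?_ | refine Dfn.isInsert ?_ ?_ ?_
      | refine Dfn.and ?_ ?_ | refine Dfn.or ?_ ?_ | refine Dfn.iff ?_ ?_ | refine Dfn.not ?_
      | refine Dfn.imp ?_ ?_ | refine Dfn.all ?_ | refine Dfn.ex ?_ | exact Dfn.false'
      | refine Dfn.ballZ ?_ ?_ | refine Dfn.bexZ ?_ ?_ | exact Dfn.const _)) hX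
    have hgA : ∀ x w : ZFSet.{0}, ZFSet.pair x w ∈ g.1 → x ∈ α.toZFSet ∧ w ∈ A := by
      intro x w h
      obtain ⟨a, ha, b, hb, h3⟩ := hg.sub _ h
      rw [ZFSet.pair_inj] at h3
      rw [h3.1, h3.2]
      exact ⟨ha, hb⟩
    have hc1 : Ctb N U1 := by
      refine tk7_union hN (F := fun i x => ∃ w : N, ZFSet.pair i.1 w.1 ∈ g.1 ∧ x.1 ∈ w.1) (by
        show hN.Dfn (fun v : Fin 2 → N => ∃ w : N, ZFSet.pair (v 0).1 w.1 ∈ g.1 ∧ (v 1).1 ∈ w.1)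
        (repeat' first
      | exact DT.var _ | exact DT.last | exact DT.const _ | assumption
      | refine Dfn.pairMem ?_ ?_ ?_ | refine Dfn.isPair ?_ ?_ ?_ | refine Dfn.mem ?_ ?_
      | refine Dfn.eqv ?_ ?_ | refine Dfn.eq ?_ ?_ | refine Dfn.subset ?_ ?_
      | refine Dfn.isEmpty ?_ | refine Dfn.isTrans ?_ | refine Dfn.isOrd ?_ | refine Dfn.isNat ?_
      | refine Dfn.isUpair ?_ ?_ ?_ | refine Dfn.isInsert ?_ ?_ ?_
      | refine Dfn.and ?_ ?_ | refine Dfn.or ?_ ?_ | refine Dfn.iff ?_ ?_ | refine Dfn.not ?_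
      | refine Dfn.imp ?_ ?_ | refine Dfn.all ?_ | refine Dfn.ex ?_ | exact Dfn.false'
      | refine Dfn.ballZ ?_ ?_ | refine Dfn.bexZ ?_ ?_ | exact Dfn.const _)) hαN hU1 (hδ.ctb α hα) ?_ ?_
      · intro i hi
        have h1 := hg.ap_mem hi
        have h2 := (hA2 _).1 h1.1
        refine ⟨ap g.1 i.1, hN.mem_of_mem hA h1.1, h2.2.2, ?_⟩
        rintro x hx ⟨w, hw, hxw⟩
        rw [hg.ap_eq hw]; exact hxw
      · intro x hx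
        obtain ⟨_, _, i, w, h1, h2⟩ := (hU1' x.1).1 hx
        exact ⟨i, (hgA _ _ h1).1, w, h1, h2⟩
    have hu2 : ∀ z ∈ U2, ∀ z' ∈ U2, z = z' := by
      intro z hz z' hz'
      obtain ⟨_, _, _, h1⟩ := (hU2' z).1 hz
      obtain ⟨_, _, _, h2⟩ := (hU2' z').1 hz'
      exact heu α.toZFSet (Ordinal.toZFSet_mem_toZFSet_iff.2 hα) z z' h1 h2
    have hc2 : Ctb N U2 := by
      refine tk7_fin_ctb hN hU2 ?_
      by_cases h : ∃ z, z ∈ U2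
      · obtain ⟨z, hz⟩ := h
        exact ⟨{z}, fun w => by
          rw [Finset.mem_singleton]
          exact ⟨fun hw => hu2 w hw z hz, fun hw => by rw [hw]; exact hz⟩⟩
      · exact ⟨∅, fun w => ⟨fun hw => (h ⟨w, hw⟩).elim, fun hw => absurd hw (Finset.notMem_empty w)⟩⟩
    have hUc := tk7_union2 hN hU1 hU2 hc1 hc2
    obtain ⟨a, ha, hac, haY, hUa⟩ := hcov (U1 ∪ U2) (hN.union_mem hU1 hU2) (by
      intro z hz
      rcases ZFSet.mem_union.1 hz with h | h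
      · exact ((hU1' z).1 h).1
      · exact ((hU2' z).1 h).1) (by
      intro z hz
      rcases ZFSet.mem_union.1 hz with h | h
      · obtain ⟨_, _, x, w, h1, h2⟩ := (hU1' z).1 h
        exact ((hA2 _).1 (hgA _ _ h1).2).2.1 h2
      · exact ((hU2' z).1 h).2.2.1) hUc
    refine ⟨⟨a, hN.mem_of_mem hX ha⟩, (hA2 a).2 ⟨ha, haY, hac⟩, ?_, ?_⟩
    · intro x z hxz t ht
      have h1 := (hA2 _).1 (hgA _ _ hxz).2
      have htX : t ∈ X := hsub _ h1.1 h1.2.2 ht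
      exact hUa (ZFSet.mem_union.2 (Or.inl ((hU1' t).2 ⟨htX, hN.mem_of_mem hX htX, x, z, hxz, ht⟩)))
    · intro d z hd hzX hzY hez
      have h1 : d.1 = α.toZFSet := chX_dom hd hg.fnD
      rw [h1] at hez
      exact hUa (ZFSet.mem_union.2 (Or.inr ((hU2' z.1).2 ⟨hzX, z.2, hzY, hez⟩)))
  obtain ⟨g, hg, hgΦ⟩ := exists_dep hN hΦ hδ.mem hA hex
  have hval : ∀ α < δ, (∀ x z : N, ZFSet.pair x.1 z.1 ∈ rs g.1 α.toZFSet → z.1 ⊆ ap g.1 α.toZFSet) ∧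
      ∀ z ∈ X, z ∈ Y → ZFSet.pair α.toZFSet z ∈ e → z ∈ ap g.1 α.toZFSet := by
    intro α hα
    have hαN : α.toZFSet ∈ N := hN.toZFSet_mem_of_le hα.le hδ.mem
    have hαδ : α.toZFSet ∈ δ.toZFSet := Ordinal.toZFSet_mem_toZFSet_iff.2 hα
    have h1 := hg.ap_mem hαδ
    have h2 := hgΦ α hα ⟨rs g.1 α.toZFSet, rs_mem hN g.2 hαN⟩
      ⟨ap g.1 α.toZFSet, hN.mem_of_mem hA h1.1⟩ rfl h1.2
    refine ⟨h2.1, ?_⟩
    intro z hzX hzY hz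
    refine h2.2 ⟨α.toZFSet, hαN⟩ ⟨z, hN.mem_of_mem hX hzX⟩ ?_ hzX hzY hz
    refine hg.fnD.rs ?_
    intro x hx
    obtain ⟨β, hβ, rfl⟩ := Ordinal.mem_toZFSet_iff.1 hx
    exact Ordinal.toZFSet_mem_toZFSet_iff.2 (hβ.trans hα)
  have hinc : ∀ x ∈ δ.toZFSet, ∀ y ∈ x, ap g.1 y ⊆ ap g.1 x := by
    intro x hx y hy
    obtain ⟨α, hα, rfl⟩ := Ordinal.mem_toZFSet_iff.1 hx
    obtain ⟨β, hβ, rfl⟩ := Ordinal.mem_toZFSet_iff.1 hy
    have h1 := hg.ap_mem (Ordinal.toZFSet_mem_toZFSet_iff.2 (hβ.trans hα))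
    exact (hval α hα).1 ⟨β.toZFSet, hN.toZFSet_mem_of_le (hβ.trans hα).le hδ.mem⟩
      ⟨ap g.1 β.toZFSet, hN.mem_of_mem hA h1.1⟩ (pair_mem_rs.2 ⟨hy, h1.2⟩)
  refine ⟨g.1, g.2, ⟨?_, ?_, ?_⟩, ?_, hinc, ?_⟩
  · intro z hz
    obtain ⟨x, hx, y, hy, h⟩ := hg.sub z hz
    exact ⟨x, hx, y, ((hA2 y).1 hy).1, h⟩
  · intro x hx
    exact ⟨ap g.1 x, ((hA2 _).1 (hg.ap_mem hx).1).1, (hg.ap_mem hx).2⟩
  · intro x _ y _ y' _ h1 h2
    exact (hg.ap_eq h1).symm.trans (hg.ap_eq h2)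
  · intro x hx
    have h1 := (hA2 _).1 (hg.ap_mem hx).1
    exact ⟨h1.2.2, h1.2.1⟩
  · intro c hc hcX hcY hcc
    obtain ⟨α, hα, hb⟩ := hδ.bdd hN hc hcc (F := fun z y => y.1 ∈ (⟨δ.toZFSet, hδ.mem⟩ : N).1 ∧
      ZFSet.pair y.1 z.1 ∈ (⟨e, he⟩ : N).1 ∧ ∀ j : N, j.1 ∈ y.1 → ¬ ZFSet.pair j.1 z.1 ∈ (⟨e, he⟩ : N).1) (by
      show hN.Dfn (fun v : Fin 2 → N => (v 1).1 ∈ (⟨δ.toZFSet, hδ.mem⟩ : N).1 ∧
        ZFSet.pair (v 1).1 (v 0).1 ∈ (⟨e, he⟩ : N).1 ∧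
        ∀ j : N, j.1 ∈ (v 1).1 → ¬ ZFSet.pair j.1 (v 0).1 ∈ (⟨e, he⟩ : N).1)
      (repeat' first
      | exact DT.var _ | exact DT.last | exact DT.const _ | assumption
      | refine Dfn.pairMem ?_ ?_ ?_ | refine Dfn.isPair ?_ ?_ ?_ | refine Dfn.mem ?_ ?_
      | refine Dfn.eqv ?_ ?_ | refine Dfn.eq ?_ ?_ | refine Dfn.subset ?_ ?_
      | refine Dfn.isEmpty ?_ | refine Dfn.isTrans ?_ | refine Dfn.isOrd ?_ | refine Dfn.isNat ?_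
      | refine Dfn.isUpair ?_ ?_ ?_ | refine Dfn.isInsert ?_ ?_ ?_
      | refine Dfn.and ?_ ?_ | refine Dfn.or ?_ ?_ | refine Dfn.iff ?_ ?_ | refine Dfn.not ?_
      | refine Dfn.imp ?_ ?_ | refine Dfn.all ?_ | refine Dfn.ex ?_ | exact Dfn.false'
      | refine Dfn.ballZ ?_ ?_ | refine Dfn.bexZ ?_ ?_ | exact Dfn.const _)) (by
      rintro z hz y y' ⟨h1, h2, h3⟩ ⟨h1', h2', h3'⟩
      obtain ⟨β, hβ, e1⟩ := Ordinal.mem_toZFSet_iff.1 h1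
      obtain ⟨β', hβ', e2⟩ := Ordinal.mem_toZFSet_iff.1 h1'
      rcases lt_trichotomy β β' with h | h | h
      · exact (h3' y (by rw [← e2, ← e1]; exact Ordinal.toZFSet_mem_toZFSet_iff.2 h) h2).elim
      · exact Subtype.ext (by rw [← e1, ← e2, h])
      · exact (h3 y' (by rw [← e2, ← e1]; exact Ordinal.toZFSet_mem_toZFSet_iff.2 h) h2').elim)
    refine ⟨α.toZFSet, Ordinal.toZFSet_mem_toZFSet_iff.2 hα, ?_⟩
    intro z hz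
    have hzX := hcX hz
    have hzN := hN.mem_of_mem hX hzX
    obtain ⟨β, ⟨h1, h2⟩, hmin⟩ := (wellFounded_lt (α := Ordinal.{0})).has_min
      {β : Ordinal.{0} | β < δ ∧ ZFSet.pair β.toZFSet z ∈ e} (by
        obtain ⟨y, hy, hyz⟩ := hec z hzX
        obtain ⟨β, hβ, rfl⟩ := Ordinal.mem_toZFSet_iff.1 hy
        exact ⟨β, hβ, hyz⟩)
    have hβN : β.toZFSet ∈ N := hN.toZFSet_mem_of_le h1.le hδ.mem
    have hle : β ≤ α := by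
      refine hb ⟨z, hzN⟩ hz ⟨β.toZFSet, hβN⟩ ⟨Ordinal.toZFSet_mem_toZFSet_iff.2 h1, h2, ?_⟩ β h1 rfl
      intro j hj hjz
      obtain ⟨γ, hγ, e1⟩ := Ordinal.mem_toZFSet_iff.1 hj
      have hjz' : ZFSet.pair j.1 z ∈ e := hjz
      rw [← e1] at hjz'
      exact hmin γ ⟨hγ.trans h1, hjz'⟩ hγ
    have h3 : z ∈ ap g.1 β.toZFSet := (hval β h1).2 z hzX (hcY hz) h2
    rcases hle.lt_or_eq with h | h
    · exact hinc _ (Ordinal.toZFSet_mem_toZFSet_iff.2 hα) _ (Ordinal.toZFSet_mem_toZFSet_iff.2 h) h3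
    · rw [← h]; exact h3

end Pool.Agent.H88.IG
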