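import Pool.Agent.H88.IG.Df

/-!
# IG, part S: clubs are closed under countable directed unions

Proof. Let `e ∈ N` enumerate `D` (from `Ctb N D`, or `ctb_iff_cvr`: single valued on `ω`, every `d ∈ D` has some `n` with
`(n, d) ∈ e`). Apply `exists_dep` with the ordinal `ω` (`omZ = ω.toZFSet`), `A = D` and
  `Φ g y` := (∀ x z, (x, z) ∈ g → z ⊆ y) and for the domain `d` of `g` and all `z ∈ D`, `(d, z) ∈ e → z ⊆ y`.
For `n < ω` existence follows from directedness by induction (finitely many elements of `D` have an upper bound in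
`D`; `D` is nonempty). The result is an increasing sequence of elements of `D ⊆ C` with union `⋃ D`; apply `clo` with `ξ = ω`.
-/

set_option autoImplicit false
set_option linter.unusedVariables false
set_option linter.unusedSectionVars false
set_option linter.unusedSimpArgs false
set_option linter.unusedTactic false
set_option linter.unreachableTactic false

namespace Pool.Agent.H88.IG

open Pool.Agent.H17.Omega Pool.Agent.H17.Omega.CTM Pool.Agent.H52.GX Pool.Agent.H52.GC Pool.Agent.H7.IG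

variable {N : Set ZFSet.{0}} (hN : CTM N)

include hN

omit hN in
theorem cla_omZ : (omZ : ZFSet.{0}) = Ordinal.omega0.toZFSet := by
  ext x
  rw [mem_omZ, Ordinal.mem_toZFSet_iff]
  constructor
  · rintro ⟨n, rfl⟩
    exact ⟨n, Ordinal.natCast_lt_omega0 n, (natZ_eq n).symm⟩
  · rintro ⟨a, ha, rfl⟩
    obtain ⟨m, rfl⟩ := Ordinal.lt_omega0.1 ha
    exact ⟨m, (natZ_eq m).symm⟩

omit hN in
theorem cla_bd {D : ZFSet.{0}} (hne : ∃ d, d ∈ D) (hdir : Dir D) (s : Finset ZFSet.{0}) (hs : ∀ z ∈ s, z ∈ D) :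
    ∃ y ∈ D, ∀ z ∈ s, z ⊆ y := by
  classical
  induction s using Finset.induction_on with
  | empty =>
    obtain ⟨d, hd⟩ := hne
    exact ⟨d, hd, fun z hz => absurd hz (Finset.notMem_empty z)⟩
  | insert a t _ ih =>
    obtain ⟨y, hy, hy'⟩ := ih (fun z hz => hs z (Finset.mem_insert_of_mem hz))
    obtain ⟨c, hc, h1, h2⟩ := hdir a (hs a (Finset.mem_insert_self a t)) y hy
    refine ⟨c, hc, fun z hz => ?_⟩
    rcases Finset.mem_insert.1 hz with h3 | h3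
    · rw [h3]; exact h1
    · exact fun w hw => h2 (hy' z h3 hw)

theorem club_dir_ctb {δ : Ordinal.{0}} (hδ : IsOm1 N δ) {h C D : ZFSet.{0}} (hC : C ∈ N) (hcl : Club N δ h C)
    (hD : D ∈ N) (hDC : D ⊆ C) (hne : ∃ d, d ∈ D) (hdir : Dir D) (hc : Ctb N D) :
    ZFSet.sUnion D ∈ C := by
  classical
  obtain ⟨e, he, heo⟩ := cvr_onto hN hN.omZ_mem hD ((ctb_iff_cvr hN).1 hc) hne
  let Φ : N → N → Prop := fun g y => (∀ x z : N, ZFSet.pair x.1 z.1 ∈ g.1 → z.1 ⊆ y.1) ∧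
    ∀ d : N, (∀ x : N, x.1 ∈ d.1 ↔ ∃ z : N, ZFSet.pair x.1 z.1 ∈ g.1) →
      ∀ z : N, ZFSet.pair d.1 z.1 ∈ (⟨e, he⟩ : N).1 → z.1 ⊆ y.1
  have hΦ : hN.Dfn (fun v : Fin 2 → N => Φ (v 0) (v 1)) := by
    show hN.Dfn (fun v : Fin 2 → N => (∀ x z : N, ZFSet.pair x.1 z.1 ∈ (v 0).1 → z.1 ⊆ (v 1).1) ∧
      ∀ d : N, (∀ x : N, x.1 ∈ d.1 ↔ ∃ z : N, ZFSet.pair x.1 z.1 ∈ (v 0).1) →
      ∀ z : N, ZFSet.pair d.1 z.1 ∈ (⟨e, he⟩ : N).1 → z.1 ⊆ (v 1).1)
    (repeat' first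
      | exact DT.var _ | exact DT.last | exact DT.const _ | assumption
      | refine Dfn.pairMem ?_ ?_ ?_ | refine Dfn.isPair ?_ ?_ ?_ | refine Dfn.mem ?_ ?_
      | refine Dfn.eqv ?_ ?_ | refine Dfn.eq ?_ ?_ | refine Dfn.subset ?_ ?_
      | refine Dfn.and ?_ ?_ | refine Dfn.or ?_ ?_ | refine Dfn.iff ?_ ?_ | refine Dfn.not ?_
      | refine Dfn.imp ?_ ?_ | refine Dfn.all ?_ | refine Dfn.ex ?_ | exact Dfn.false')
  have hω : (Ordinal.omega0 : Ordinal.{0}).toZFSet ∈ N := by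
    rw [← cla_omZ]
    exact hN.omZ_mem
  obtain ⟨g, hgf, hg⟩ := exists_dep hN hΦ hω hD (by
    intro α hα g hg _
    obtain ⟨n, rfl⟩ := Ordinal.lt_omega0.1 hα
    have hn : natZ n ∈ omZ := natZ_mem_omZ n
    have hen := (heo.1.ap_mem hn).1
    obtain ⟨y, hy, hy'⟩ := cla_bd hne hdir (insert (ap e (natZ n))
      ((Finset.range n).image (fun k => ap g.1 (natZ k)))) (by
      intro z hz
      rcases Finset.mem_insert.1 hz with h1 | h1
      · rw [h1]; exact hen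
      · obtain ⟨k, hk, rfl⟩ := Finset.mem_image.1 h1
        refine (hg.ap_mem ?_).1
        rw [← natZ_eq, natZ_mem]
        exact Finset.mem_range.1 hk)
    refine ⟨⟨y, hN.mem_of_mem hD hy⟩, hy, ?_, ?_⟩
    · intro x z hxz
      obtain ⟨x', hx', z', hz', h1⟩ := hg.sub _ hxz
      rw [ZFSet.pair_inj] at h1
      rw [← h1.1, ← natZ_eq, mem_natZ] at hx'
      obtain ⟨m, hm, hx'⟩ := hx'
      have h2 := hy' (ap g.1 (natZ m)) (Finset.mem_insert_of_mem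
        (Finset.mem_image.2 ⟨m, Finset.mem_range.2 hm, rfl⟩))
      rwa [← hx', hg.ap_eq hxz] at h2
    · intro d hd z hz
      have hdn : d.1 = natZ n := by
        ext x
        constructor
        · intro hx
          obtain ⟨z, hz⟩ := (hd ⟨x, hN.mem_of_mem d.2 hx⟩).1 hx
          obtain ⟨x', hx', z', hz', h1⟩ := hg.sub _ hz
          rw [ZFSet.pair_inj] at h1
          rw [natZ_eq]
          rw [← h1.1] at hx'
          exact hx'
        · intro hx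
          have hxN := hN.mem_of_mem (hN.natZ_mem_N n) hx
          rw [natZ_eq] at hx
          obtain ⟨z, hz, hxz⟩ := hg.tot x hx
          exact (hd ⟨x, hxN⟩).2 ⟨⟨z, hN.mem_of_mem hD hz⟩, hxz⟩
      rw [hdn] at hz
      have h2 := hy' (ap e (natZ n)) (Finset.mem_insert_self _ _)
      rwa [heo.1.ap_eq hz] at h2)
  have hg1 : ∀ n : ℕ, ap g.1 (natZ n) ∈ D ∧ ZFSet.pair (natZ n) (ap g.1 (natZ n)) ∈ g.1 := by
    intro n
    refine hgf.ap_mem ?_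
    rw [← cla_omZ]
    exact natZ_mem_omZ n
  have hgΦ : ∀ n : ℕ, ∀ r : N, r.1 = rs g.1 (natZ n) →
      Φ r ⟨ap g.1 (natZ n), hN.mem_of_mem hD (hg1 n).1⟩ := by
    intro n r hr
    refine hg n (Ordinal.natCast_lt_omega0 n) r _ ?_ ?_
    · rw [← natZ_eq]; exact hr
    · rw [← natZ_eq]; exact (hg1 n).2
  have hmono : ∀ m n : ℕ, m < n → ap g.1 (natZ m) ⊆ ap g.1 (natZ n) := by
    intro m n hmn
    have h1 := hgΦ n ⟨rs g.1 (natZ n), rs_mem hN g.2 (hN.natZ_mem_N n)⟩ rfl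
    exact h1.1 ⟨natZ m, hN.natZ_mem_N m⟩ ⟨_, hN.mem_of_mem hD (hg1 m).1⟩
      (pair_mem_rs.2 ⟨natZ_mem.2 hmn, (hg1 m).2⟩)
  have hcov : ∀ n : ℕ, ap e (natZ n) ⊆ ap g.1 (natZ n) := by
    intro n
    have h1 := hgΦ n ⟨rs g.1 (natZ n), rs_mem hN g.2 (hN.natZ_mem_N n)⟩ rfl
    refine h1.2 ⟨natZ n, hN.natZ_mem_N n⟩ ?_ ⟨_, hN.mem_of_mem hD (heo.1.ap_mem (natZ_mem_omZ n)).1⟩
      (heo.1.ap_mem (natZ_mem_omZ n)).2
    intro x
    constructor
    · intro hx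
      obtain ⟨m, hm, hxm⟩ := mem_natZ.1 hx
      refine ⟨⟨_, hN.mem_of_mem hD (hg1 m).1⟩, pair_mem_rs.2 ⟨hx, ?_⟩⟩
      rw [hxm]
      exact (hg1 m).2
    · rintro ⟨z, hz⟩
      exact (pair_mem_rs.1 hz).1
  have hω0 : (0 : Ordinal.{0}) < Ordinal.omega0 := Ordinal.omega0_pos
  refine hcl.clo Ordinal.omega0 hω0 ?_ g.1 g.2 ?_ ?_ (ZFSet.sUnion D) (hN.sUnion_mem hD) ?_
  · rw [← cla_omZ]
    exact ctb_cvr_om1 hN hδ (ctb_om hN)
  · refine ⟨fun z hz => ?_, fun x hx => ?_, fun x hx y _ y' _ h1 h2 => ?_⟩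
    · obtain ⟨x, hx, y, hy, h1⟩ := hgf.sub z hz
      exact ⟨x, hx, y, hDC hy, h1⟩
    · obtain ⟨y, hy, h1⟩ := hgf.tot x hx
      exact ⟨y, hDC hy, h1⟩
    · exact (hgf.ap_eq h1).symm.trans (hgf.ap_eq h2)
  · intro α β x y hαβ hx hy
    obtain ⟨a, ha, _, _, h1⟩ := hgf.sub _ hx
    obtain ⟨b, hb, _, _, h2⟩ := hgf.sub _ hy
    rw [ZFSet.pair_inj] at h1 h2
    rw [← h1.1, Ordinal.toZFSet_mem_toZFSet_iff] at ha
    rw [← h2.1, Ordinal.toZFSet_mem_toZFSet_iff] at hb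
    obtain ⟨m, rfl⟩ := Ordinal.lt_omega0.1 ha
    obtain ⟨n, rfl⟩ := Ordinal.lt_omega0.1 hb
    rw [← hgf.ap_eq hx, ← hgf.ap_eq hy, ← natZ_eq, ← natZ_eq]
    exact hmono m n (by exact_mod_cast hαβ)
  · intro z
    rw [ZFSet.mem_sUnion]
    constructor
    · rintro ⟨d, hd, hz⟩
      obtain ⟨x, hx, hxd⟩ := heo.2 d hd
      obtain ⟨n, rfl⟩ := mem_omZ.1 hx
      refine ⟨natZ n, ap g.1 (natZ n), (hg1 n).2, hcov n ?_⟩
      rw [heo.1.ap_eq hxd]
      exact hz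
    · rintro ⟨x, y, hxy, hz⟩
      obtain ⟨a, ha, d, hd, h1⟩ := hgf.sub _ hxy
      rw [ZFSet.pair_inj] at h1
      rw [h1.2] at hz
      exact ⟨d, hd, hz⟩

end Pool.Agent.H88.IG
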