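import Pool.Agent.H7.IG.Tk8
import Pool.Agent.H7.IG.Tk7
import Pool.Agent.H7.IG.Tk6
import Pool.Agent.H7.IG.Stat

/-!
# IG, part S (special trees, indestructible guessing): definitions

* `Col δ r p`: `p` is a finite partial proper colouring of the tree `(δ, r)` by natural numbers (a finite set of
  pairs `(x, n)`); `Cf r z w`: `z = (x, n)`, `w = (y, n)` have the same colour and `x < y` in the tree.
* `TrO N T L`: `L` is a strict tree order on `T` with countable sets of predecessors (general carrier).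
* `Lin L C`: any two elements of `C` are comparable.
* `TX δ X g`, `LX δ X g`: for an increasing sequence `g` (of length `δ`) of sets the tree of all pairs `(x, y)`,
  `x ∈ δ`, `y ∈ X`, `y ⊆ g(x)`, with the order `(x, y) < (x', y')` iff `x ∈ x'` and `y = y' ∩ g(x)`.
  `BX δ X g B`: the branch of `B`, the set of all `(x, B ∩ g(x))` that are in the tree.
* `Dir D`: `D` is directed under inclusion.
-/

set_option autoImplicit false
set_option linter.unusedVariables false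
set_option linter.unusedSectionVars false
set_option linter.unusedSimpArgs false
set_option linter.unusedTactic false
set_option linter.unreachableTactic false

namespace Pool.Agent.H88.IG

open Pool.Agent.H17.Omega Pool.Agent.H17.Omega.CTM Pool.Agent.H52.GX Pool.Agent.H52.GC Pool.Agent.H7.IG

/-- Finite partial proper colourings of the tree `(δ, r)` by natural numbers. -/
structure Col (δ : Ordinal.{0}) (r p : ZFSet.{0}) : Prop where
  sub : p ⊆ ZFSet.prod δ.toZFSet omZ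
  fin : FinZ p
  uni : ∀ x n m, ZFSet.pair x n ∈ p → ZFSet.pair x m ∈ p → n = m
  pro : ∀ x y n, ZFSet.pair x n ∈ p → ZFSet.pair y n ∈ p → ZFSet.pair x y ∉ r

/-- `z = (x, n)` and `w = (y, n)` have the same colour and `x < y`. -/
def Cf (r z w : ZFSet.{0}) : Prop := ∃ x y n, z = ZFSet.pair x n ∧ w = ZFSet.pair y n ∧ ZFSet.pair x y ∈ r

/-- Strict tree orders with countable sets of predecessors. -/
structure TrO (N : Set ZFSet.{0}) (T L : ZFSet.{0}) : Prop where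
  sub : ∀ z ∈ L, ∃ x ∈ T, ∃ y ∈ T, z = ZFSet.pair x y
  irrefl : ∀ x, ZFSet.pair x x ∉ L
  trans : ∀ x y z, ZFSet.pair x y ∈ L → ZFSet.pair y z ∈ L → ZFSet.pair x z ∈ L
  tree : ∀ x y z, ZFSet.pair x z ∈ L → ZFSet.pair y z ∈ L → x = y ∨ ZFSet.pair x y ∈ L ∨ ZFSet.pair y x ∈ L
  ctb : ∀ z ∈ T, ∀ p ∈ N, (∀ x ∈ p, ZFSet.pair x z ∈ L) → Ctb N p

/-- Any two elements of `C` are comparable. -/
def Lin (L C : ZFSet.{0}) : Prop := ∀ x ∈ C, ∀ y ∈ C, x = y ∨ ZFSet.pair x y ∈ L ∨ ZFSet.pair y x ∈ L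

/-- The tree of the subsets (in `X`) of the members of a sequence `g`. -/
noncomputable def TX (δ : Ordinal.{0}) (X g : ZFSet.{0}) : ZFSet.{0} :=
  ZFSet.sep (fun t => ∃ x y, t = ZFSet.pair x y ∧ y ⊆ ap g x) (ZFSet.prod δ.toZFSet X)

/-- The order of the tree `TX δ X g`. -/
noncomputable def LX (δ : Ordinal.{0}) (X g : ZFSet.{0}) : ZFSet.{0} :=
  ZFSet.sep (fun z => ∃ x y x' y', z = ZFSet.pair (ZFSet.pair x y) (ZFSet.pair x' y') ∧ x ∈ x' ∧ y = y' ∩ ap g x)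
    (ZFSet.prod (TX δ X g) (TX δ X g))

/-- The branch of the set `B`. -/
noncomputable def BX (δ : Ordinal.{0}) (X g B : ZFSet.{0}) : ZFSet.{0} :=
  ZFSet.sep (fun t => ∃ x, t = ZFSet.pair x (B ∩ ap g x)) (TX δ X g)

/-- Directed under inclusion. -/
def Dir (D : ZFSet.{0}) : Prop := ∀ a ∈ D, ∀ b ∈ D, ∃ c ∈ D, a ⊆ c ∧ b ⊆ c

theorem pair_mem_TX {δ : Ordinal.{0}} {X g x y : ZFSet.{0}} :
    ZFSet.pair x y ∈ TX δ X g ↔ x ∈ δ.toZFSet ∧ y ∈ X ∧ y ⊆ ap g x := by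
  rw [TX, ZFSet.mem_sep, ZFSet.pair_mem_prod]
  constructor
  · rintro ⟨⟨h1, h2⟩, x', y', h3, h4⟩
    rw [ZFSet.pair_inj] at h3
    obtain ⟨rfl, rfl⟩ := h3
    exact ⟨h1, h2, h4⟩
  · rintro ⟨h1, h2, h3⟩
    exact ⟨⟨h1, h2⟩, x, y, rfl, h3⟩

theorem mem_TX {δ : Ordinal.{0}} {X g t : ZFSet.{0}} (h : t ∈ TX δ X g) :
    ∃ x ∈ δ.toZFSet, ∃ y ∈ X, t = ZFSet.pair x y ∧ y ⊆ ap g x := by
  have h1 := (ZFSet.mem_sep.1 h).1
  obtain ⟨x, hx, y, hy, rfl⟩ := ZFSet.mem_prod.1 h1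
  exact ⟨x, hx, y, hy, rfl, (pair_mem_TX.1 h).2.2⟩

theorem pair_mem_LX {δ : Ordinal.{0}} {X g x y x' y' : ZFSet.{0}} :
    ZFSet.pair (ZFSet.pair x y) (ZFSet.pair x' y') ∈ LX δ X g ↔
      ZFSet.pair x y ∈ TX δ X g ∧ ZFSet.pair x' y' ∈ TX δ X g ∧ x ∈ x' ∧ y = y' ∩ ap g x := by
  rw [LX, ZFSet.mem_sep, ZFSet.pair_mem_prod]
  constructor
  · rintro ⟨⟨h1, h2⟩, a, b, a', b', h3, h4, h5⟩
    rw [ZFSet.pair_inj, ZFSet.pair_inj, ZFSet.pair_inj] at h3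
    obtain ⟨⟨rfl, rfl⟩, rfl, rfl⟩ := h3
    exact ⟨h1, h2, h4, h5⟩
  · rintro ⟨h1, h2, h3, h4⟩
    exact ⟨⟨h1, h2⟩, x, y, x', y', rfl, h3, h4⟩

theorem mem_LX {δ : Ordinal.{0}} {X g z : ZFSet.{0}} (h : z ∈ LX δ X g) :
    ∃ s ∈ TX δ X g, ∃ t ∈ TX δ X g, z = ZFSet.pair s t := by
  exact ZFSet.mem_prod.1 (ZFSet.mem_sep.1 h).1

theorem pair_mem_BX {δ : Ordinal.{0}} {X g B x y : ZFSet.{0}} :
    ZFSet.pair x y ∈ BX δ X g B ↔ ZFSet.pair x y ∈ TX δ X g ∧ y = B ∩ ap g x := by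
  rw [BX, ZFSet.mem_sep]
  constructor
  · rintro ⟨h1, x', h3⟩
    rw [ZFSet.pair_inj] at h3
    obtain ⟨rfl, rfl⟩ := h3
    exact ⟨h1, rfl⟩
  · rintro ⟨h1, rfl⟩
    exact ⟨h1, x, rfl⟩

theorem BX_sub {δ : Ordinal.{0}} {X g B : ZFSet.{0}} : BX δ X g B ⊆ TX δ X g :=
  fun _ h => (ZFSet.mem_sep.1 h).1

end Pool.Agent.H88.IG
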