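import Pool.Agent.H88.IG.Df

/-!
# IG, part S: a bound for the sizes of uncountably many finite sets
-/

set_option autoImplicit false
set_option linter.unusedVariables false
set_option linter.unusedSectionVars false
set_option linter.unusedSimpArgs false
set_option linter.unusedTactic false
set_option linter.unreachableTactic false

namespace Pool.Agent.H88.IG

open Pool.Agent.H17.Omega Pool.Agent.H17.Omega.CTM Pool.Agent.H52.GX Pool.Agent.H52.GC Pool.Agent.H7.IG

variable {N : Set ZFSet.{0}} (hN : CTM N)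

include hN

/-- Uncountably many members of an uncountable family of finite sets have at most `k` elements. -/
theorem exists_size {B : ZFSet.{0}} (hB : B ∈ N) (hf : ∀ b ∈ B, FinZ b) (hu : ¬ Ctb N B) :
    ∃ k : ℕ, ∃ B' ∈ N, B' ⊆ B ∧ ¬ Ctb N B' ∧ ∀ b ∈ B', ∀ t : Finset ZFSet.{0}, (∀ z ∈ t, z ∈ b) →
      t.card ≤ k := by
  classical
  let F1 : N → N → Prop := fun n a => ∃ e : N,
    (∀ k z z' : N, ZFSet.pair k.1 z.1 ∈ e.1 → ZFSet.pair k.1 z'.1 ∈ e.1 → z = z') ∧
    ∀ z : N, z.1 ∈ a.1 → ∃ k : N, k.1 ∈ n.1 ∧ ZFSet.pair k.1 z.1 ∈ e.1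
  have hF1 : hN.Dfn (fun v : Fin 2 → N => F1 (v 0) (v 1)) := by
    (repeat' first
        | exact DT.var _ | exact DT.last | exact DT.const _ | assumption
        | refine Dfn.pairMem ?_ ?_ ?_ | refine Dfn.isPair ?_ ?_ ?_ | refine Dfn.mem ?_ ?_
        | refine Dfn.eqv ?_ ?_ | refine Dfn.eq ?_ ?_ | refine Dfn.subset ?_ ?_
        | refine Dfn.isEmpty ?_ | refine Dfn.isTrans ?_ | refine Dfn.isOrd ?_
        | refine Dfn.isNat ?_ | refine Dfn.and ?_ ?_ | refine Dfn.or ?_ ?_ | refine Dfn.iff ?_ ?_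
        | refine Dfn.not ?_ | refine Dfn.imp ?_ ?_ | refine Dfn.all ?_ | refine Dfn.ex ?_
        | exact Dfn.false')
  have hF1c : ∀ n : ℕ, ∀ a : N, F1 (nz hN n) a → ∀ t : Finset ZFSet.{0}, (∀ z ∈ t, z ∈ a.1) →
      t.card ≤ n := by
    rintro n a ⟨e, h2, h3⟩ t ht
    have hex : ∀ z : ZFSet.{0}, ∃ k : ℕ, z ∈ t → k < n ∧ ZFSet.pair (natZ k) z ∈ e.1 := by
      intro z
      by_cases hz : z ∈ t
      · have hz1 : z ∈ a.1 := ht z hz
        obtain ⟨k, hk, hk'⟩ := h3 ⟨z, hN.mem_of_mem a.2 hz1⟩ hz1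
        obtain ⟨i, hi, hki⟩ := mem_natZ.1 hk
        exact ⟨i, fun _ => ⟨hi, by rw [← hki]; exact hk'⟩⟩
      · exact ⟨0, fun h => (hz h).elim⟩
    choose κ hκ using hex
    have h4 : t.card ≤ (Finset.range n).card := by
      refine Finset.card_le_card_of_injOn κ (fun z hz => ?_) (fun z hz z' hz' hzz => ?_)
      · rw [Finset.mem_coe] at hz ⊢
        exact Finset.mem_range.2 (hκ z hz).1
      · rw [Finset.mem_coe] at hz hz'
        have h5 := (hκ z hz).2
        have h6 := (hκ z' hz').2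
        rw [hzz] at h5
        have hzN := (hN.of_pair_mem (hN.mem_of_mem e.2 h5)).2
        have hzN' := (hN.of_pair_mem (hN.mem_of_mem e.2 h6)).2
        exact congrArg Subtype.val (h2 (nz hN (κ z')) ⟨z, hzN⟩ ⟨z', hzN'⟩ h5 h6)
    rwa [Finset.card_range] at h4
  have hF1e : ∀ a : N, a.1 ∈ B → ∃ n : ℕ, F1 (nz hN n) a := by
    intro a ha
    obtain ⟨s, hs⟩ := hf _ ha
    let l := s.toList
    let gg : ℕ → ZFSet.{0} := fun n => l.getD n ∅
    have hgM : ∀ n, gg n ∈ N := by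
      intro n
      by_cases hn : n < l.length
      · have : gg n = l[n] := List.getD_eq_getElem _ _ hn
        rw [this]
        have h1 : l[n] ∈ s := by rw [← Finset.mem_toList]; exact List.getElem_mem hn
        exact hN.mem_of_mem a.2 ((hs _).2 h1)
      · have : gg n = ∅ := List.getD_eq_default _ _ (not_lt.1 hn)
        rw [this]; exact hN.empty_mem
    obtain ⟨e, he, he'⟩ := hN.finite_seq_mem (g := gg) hgM l.length
    refine ⟨l.length, ⟨e, he⟩, ?_, ?_⟩
    · intro k y y' h1 h2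
      obtain ⟨i, hi, h3⟩ := (he' _).1 h1
      obtain ⟨j, hj, h4⟩ := (he' _).1 h2
      rw [ZFSet.pair_inj] at h3 h4
      have : i = j := by rw [← natZ_inj.{0}, ← h3.1, ← h4.1]
      subst this
      exact Subtype.ext (h3.2.trans h4.2.symm)
    · intro x hx
      have h1 : x.1 ∈ l := by rw [Finset.mem_toList]; exact (hs _).1 hx
      obtain ⟨i, hi, hix⟩ := List.getElem_of_mem h1
      refine ⟨nz hN i, natZ_mem.2 hi, (he' _).2 ⟨i, hi, ?_⟩⟩
      have : gg i = l[i] := List.getD_eq_getElem _ _ hi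
      rw [this, hix]; rfl
  by_contra hcon
  push Not at hcon
  refine hu (tk7_union hN hF1 hN.omZ_mem hB (ctb_om hN) ?_ ?_)
  · intro i hi
    obtain ⟨n, hn⟩ := mem_omZ.1 hi
    obtain ⟨Y, hY, hY'⟩ := hN.exists_sep (P := fun x => F1 i x) (by
      exact Dfn.subst2 hF1 (DT.const i) (DT.var _)) hB
    refine ⟨Y, hY, ?_, fun x hx hx' => (hY' _).2 ⟨hx, x.2, hx'⟩⟩
    by_contra hYc
    have hi' : i = nz hN n := Subtype.ext hn
    obtain ⟨a, ha, t, ht, ht'⟩ := hcon n Y hY (fun z hz => ((hY' z).1 hz).1) hYc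
    obtain ⟨h1, h2, h3⟩ := (hY' a).1 ha
    rw [hi'] at h3
    exact absurd (hF1c n ⟨a, h2⟩ h3 t ht) (not_le.2 ht')
  · intro x hx
    obtain ⟨n, hn⟩ := hF1e x hx
    exact ⟨nz hN n, natZ_mem_omZ n, hn⟩

end Pool.Agent.H88.IG
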