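import Pool.Agent.H88.IG.Df

/-!
# IG, part S: the tree `TX δ X g`

`TX_mem`, `LX_mem`: by `hN.sep_mem` (replace `ap g x` by `∃ a, (x, a) ∈ g`, `Fn.ap_mem`, `Fn.ap_eq`; show that the
`ZFSet.sep` with the definable predicate is equal).
`trO_TX`: `trans`: `y = y' ∩ g(x)`, `y' = y'' ∩ g(x')`, `g(x) ⊆ g(x')`. `tree`: the predecessors of `(x'', y'')` are the
`(x, y'' ∩ g(x))`, `x ∈ x''`; the elements of `δ` are ordinals, compare the first coordinates. `ctb`: a set of predecessors of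
`(x'', y'')` is the image of (a part of) `x''`, a countable ordinal (`Ctb.image`, `hδ.ctb`).
`wf_TX`: an element with `∈`-minimal first coordinate (`ZFSet.mem_wf` or ranks).
`cvr_TX`: `cvr_prod2_om1`, `Cvr.mono`.
-/

set_option autoImplicit false
set_option linter.unusedVariables false
set_option linter.unusedSectionVars false
set_option linter.unusedSimpArgs false
set_option linter.unusedTactic false
set_option linter.unreachableTactic false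

namespace Pool.Agent.H88.IG

open Pool.Agent.H17.Omega Pool.Agent.H17.Omega.CTM Pool.Agent.H52.GX Pool.Agent.H52.GC Pool.Agent.H7.IG

variable {N : Set ZFSet.{0}} (hN : CTM N)

include hN

theorem TX_mem {δ : Ordinal.{0}} (hδ : IsOm1 N δ) {X g : ZFSet.{0}} (hX : X ∈ N) (hg : g ∈ N)
    (hgf : Fn g δ.toZFSet X) : TX δ X g ∈ N := by
  have hd : hN.Dfn (fun v : Fin 1 → N => ∃ x y a : N, (v 0).1 = ZFSet.pair x.1 y.1 ∧
      ZFSet.pair x.1 a.1 ∈ (⟨g, hg⟩ : N).1 ∧ y.1 ⊆ a.1) := by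
    (repeat' first
      | exact DT.var _ | exact DT.last | exact DT.const _ | assumption
      | refine Dfn.pairMem ?_ ?_ ?_ | refine Dfn.isPair ?_ ?_ ?_ | refine Dfn.mem ?_ ?_
      | refine Dfn.eqv ?_ ?_ | refine Dfn.eq ?_ ?_ | refine Dfn.subset ?_ ?_
      | refine Dfn.and ?_ ?_ | refine Dfn.or ?_ ?_ | refine Dfn.iff ?_ ?_ | refine Dfn.not ?_
      | refine Dfn.imp ?_ ?_ | refine Dfn.all ?_ | refine Dfn.ex ?_ | exact Dfn.false')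
  obtain ⟨b, hb, hb'⟩ := hN.exists_sep (P := fun t => ∃ x y a : N, t.1 = ZFSet.pair x.1 y.1 ∧
      ZFSet.pair x.1 a.1 ∈ (⟨g, hg⟩ : N).1 ∧ y.1 ⊆ a.1) hd (hN.prod_mem hδ.mem hX)
  have he : TX δ X g = b := by
    ext t
    rw [hb']
    constructor
    · intro h
      obtain ⟨x, hx, y, hy, rfl, h1⟩ := mem_TX h
      have hxN := hN.mem_of_mem hδ.mem hx
      have hyN := hN.mem_of_mem hX hy
      exact ⟨ZFSet.pair_mem_prod.2 ⟨hx, hy⟩, hN.pair_mem hxN hyN, ⟨x, hxN⟩, ⟨y, hyN⟩,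
        ⟨ap g x, hN.mem_of_mem hX (hgf.ap_mem hx).1⟩, rfl, (hgf.ap_mem hx).2, h1⟩
    · rintro ⟨h1, h2, x, y, a, h3, h4, h5⟩
      have h3 : t = ZFSet.pair x.1 y.1 := h3
      rw [h3] at h1 ⊢
      rw [ZFSet.pair_mem_prod] at h1
      exact pair_mem_TX.2 ⟨h1.1, h1.2, by rw [hgf.ap_eq h4]; exact h5⟩
  rw [he]
  exact hb

theorem LX_mem {δ : Ordinal.{0}} (hδ : IsOm1 N δ) {X g : ZFSet.{0}} (hX : X ∈ N) (hg : g ∈ N)
    (hgf : Fn g δ.toZFSet X) : LX δ X g ∈ N := by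
  have hT := TX_mem hN hδ hX hg hgf
  have hd : hN.Dfn (fun v : Fin 1 → N => ∃ s t x y x' y' a : N, (v 0).1 = ZFSet.pair s.1 t.1 ∧
      s.1 = ZFSet.pair x.1 y.1 ∧ t.1 = ZFSet.pair x'.1 y'.1 ∧ x.1 ∈ x'.1 ∧
      ZFSet.pair x.1 a.1 ∈ (⟨g, hg⟩ : N).1 ∧ ∀ w : N, w.1 ∈ y.1 ↔ w.1 ∈ y'.1 ∧ w.1 ∈ a.1) := by
    (repeat' first
      | exact DT.var _ | exact DT.last | exact DT.const _ | assumption
      | refine Dfn.pairMem ?_ ?_ ?_ | refine Dfn.isPair ?_ ?_ ?_ | refine Dfn.mem ?_ ?_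
      | refine Dfn.eqv ?_ ?_ | refine Dfn.eq ?_ ?_ | refine Dfn.subset ?_ ?_
      | refine Dfn.and ?_ ?_ | refine Dfn.or ?_ ?_ | refine Dfn.iff ?_ ?_ | refine Dfn.not ?_
      | refine Dfn.imp ?_ ?_ | refine Dfn.all ?_ | refine Dfn.ex ?_ | exact Dfn.false')
  obtain ⟨b, hb, hb'⟩ := hN.exists_sep (P := fun z => ∃ s t x y x' y' a : N, z.1 = ZFSet.pair s.1 t.1 ∧
      s.1 = ZFSet.pair x.1 y.1 ∧ t.1 = ZFSet.pair x'.1 y'.1 ∧ x.1 ∈ x'.1 ∧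
      ZFSet.pair x.1 a.1 ∈ (⟨g, hg⟩ : N).1 ∧ ∀ w : N, w.1 ∈ y.1 ↔ w.1 ∈ y'.1 ∧ w.1 ∈ a.1) hd
    (hN.prod_mem hT hT)
  have he : LX δ X g = b := by
    ext z
    rw [hb']
    constructor
    · intro h
      obtain ⟨s, hs, t, ht, rfl⟩ := mem_LX h
      obtain ⟨x, hx, y, hy, rfl, h1⟩ := mem_TX hs
      obtain ⟨x', hx', y', hy', rfl, h1'⟩ := mem_TX ht
      obtain ⟨_, _, h2, h3⟩ := pair_mem_LX.1 h
      have hxN := hN.mem_of_mem hδ.mem hx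
      have hyN := hN.mem_of_mem hX hy
      have hxN' := hN.mem_of_mem hδ.mem hx'
      have hyN' := hN.mem_of_mem hX hy'
      refine ⟨ZFSet.pair_mem_prod.2 ⟨hs, ht⟩, hN.pair_mem (hN.pair_mem hxN hyN) (hN.pair_mem hxN' hyN'),
        ⟨_, hN.pair_mem hxN hyN⟩, ⟨_, hN.pair_mem hxN' hyN'⟩, ⟨x, hxN⟩, ⟨y, hyN⟩, ⟨x', hxN'⟩, ⟨y', hyN'⟩,
        ⟨ap g x, hN.mem_of_mem hX (hgf.ap_mem hx).1⟩, rfl, rfl, rfl, h2, (hgf.ap_mem hx).2, fun w => ?_⟩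
      show w.1 ∈ y ↔ w.1 ∈ y' ∧ w.1 ∈ ap g x
      rw [h3, ZFSet.mem_inter]
    · rintro ⟨h1, h2, s, t, x, y, x', y', a, h3, h4, h5, h6, h7, h8⟩
      have h3 : z = ZFSet.pair s.1 t.1 := h3
      rw [h3, ZFSet.pair_mem_prod, h4, h5] at h1
      rw [h3, h4, h5]
      refine pair_mem_LX.2 ⟨h1.1, h1.2, h6, ?_⟩
      ext w
      rw [ZFSet.mem_inter, hgf.ap_eq h7]
      constructor
      · intro hw
        exact (h8 ⟨w, hN.mem_of_mem y.2 hw⟩).1 hw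
      · intro hw
        exact (h8 ⟨w, hN.mem_of_mem y'.2 hw.1⟩).2 hw
  rw [he]
  exact hb

theorem trO_TX {δ : Ordinal.{0}} (hδ : IsOm1 N δ) {X g : ZFSet.{0}} (hX : X ∈ N) (hg : g ∈ N)
    (hgf : Fn g δ.toZFSet X) (hmon : ∀ x ∈ δ.toZFSet, ∀ y ∈ x, ap g y ⊆ ap g x) :
    TrO N (TX δ X g) (LX δ X g) := by
  have hcut : ∀ x ∈ δ.toZFSet, ∀ y ∈ x, ∀ a : ZFSet.{0}, (a ∩ ap g x) ∩ ap g y = a ∩ ap g y := by
    intro x hx y hy a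
    ext w
    simp only [ZFSet.mem_inter]
    exact ⟨fun h => ⟨h.1.1, h.2⟩, fun h => ⟨⟨h.1, hmon x hx y hy h.2⟩, h.2⟩⟩
  refine ⟨?_, ?_, ?_, ?_, ?_⟩
  · intro z hz
    exact mem_LX hz
  · intro x hx
    obtain ⟨s, hs, t, ht, h1⟩ := mem_LX hx
    rw [ZFSet.pair_inj] at h1
    obtain ⟨rfl, rfl⟩ := h1
    obtain ⟨u, hu, y, hy, rfl, _⟩ := mem_TX hs
    exact ZFSet.mem_irrefl u (pair_mem_LX.1 hx).2.2.1
  · intro x y z hxy hyz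
    obtain ⟨s, hs, t, ht, h1⟩ := mem_LX hxy
    rw [ZFSet.pair_inj] at h1
    obtain ⟨rfl, rfl⟩ := h1
    obtain ⟨s', hs', t', ht', h1⟩ := mem_LX hyz
    rw [ZFSet.pair_inj] at h1
    obtain ⟨rfl, rfl⟩ := h1
    obtain ⟨x1, hx1, y1, hy1, rfl, _⟩ := mem_TX hs
    obtain ⟨x2, hx2, y2, hy2, rfl, _⟩ := mem_TX ht
    obtain ⟨x3, hx3, y3, hy3, rfl, _⟩ := mem_TX ht'
    obtain ⟨_, _, h2, h3⟩ := pair_mem_LX.1 hxy
    obtain ⟨_, _, h4, h5⟩ := pair_mem_LX.1 hyz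
    have hx13 : x1 ∈ x3 := by
      obtain ⟨α, _, rfl⟩ := Ordinal.mem_toZFSet_iff.1 hx1
      obtain ⟨β, _, rfl⟩ := Ordinal.mem_toZFSet_iff.1 hx2
      obtain ⟨γ, _, rfl⟩ := Ordinal.mem_toZFSet_iff.1 hx3
      rw [Ordinal.toZFSet_mem_toZFSet_iff] at h2 h4 ⊢
      exact h2.trans h4
    refine pair_mem_LX.2 ⟨hs, ht', hx13, ?_⟩
    rw [h3, h5, hcut x2 hx2 x1 h2]
  · intro x y z hxz hyz
    obtain ⟨s, hs, t, ht, h1⟩ := mem_LX hxz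
    rw [ZFSet.pair_inj] at h1
    obtain ⟨rfl, rfl⟩ := h1
    obtain ⟨s', hs', t', ht', h1⟩ := mem_LX hyz
    rw [ZFSet.pair_inj] at h1
    obtain ⟨rfl, rfl⟩ := h1
    obtain ⟨x1, hx1, y1, hy1, rfl, _⟩ := mem_TX hs
    obtain ⟨x2, hx2, y2, hy2, rfl, _⟩ := mem_TX hs'
    obtain ⟨x3, hx3, y3, hy3, rfl, _⟩ := mem_TX ht
    obtain ⟨_, _, h2, h3⟩ := pair_mem_LX.1 hxz
    obtain ⟨_, _, h4, h5⟩ := pair_mem_LX.1 hyz
    obtain ⟨α, hα, rfl⟩ := Ordinal.mem_toZFSet_iff.1 hx1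
    obtain ⟨β, hβ, rfl⟩ := Ordinal.mem_toZFSet_iff.1 hx2
    rcases lt_trichotomy α β with h | h | h
    · right; left
      have h' := Ordinal.toZFSet_mem_toZFSet_iff.2 h
      refine pair_mem_LX.2 ⟨hs, hs', h', ?_⟩
      rw [h3, h5, hcut _ hx2 _ h']
    · left
      subst h
      rw [h3, h5]
    · right; right
      have h' := Ordinal.toZFSet_mem_toZFSet_iff.2 h
      refine pair_mem_LX.2 ⟨hs', hs, h', ?_⟩
      rw [h3, h5, hcut _ hx1 _ h']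
  · intro z hz p hp hpz
    obtain ⟨x, hx, y, hy, rfl, _⟩ := mem_TX hz
    have hyN := hN.mem_of_mem hX hy
    obtain ⟨α, hα, hαx⟩ := Ordinal.mem_toZFSet_iff.1 hx
    have hc : Ctb N x := by rw [← hαx]; exact hδ.ctb α hα
    have hd : hN.Dfn (fun v : Fin 2 → N => ∃ b a : N, (v 1).1 = ZFSet.pair (v 0).1 b.1 ∧
        ZFSet.pair (v 0).1 a.1 ∈ (⟨g, hg⟩ : N).1 ∧ ∀ w : N, w.1 ∈ b.1 ↔ w.1 ∈ (⟨y, hyN⟩ : N).1 ∧ w.1 ∈ a.1) := by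
      (repeat' first
      | exact DT.var _ | exact DT.last | exact DT.const _ | assumption
      | refine Dfn.pairMem ?_ ?_ ?_ | refine Dfn.isPair ?_ ?_ ?_ | refine Dfn.mem ?_ ?_
      | refine Dfn.eqv ?_ ?_ | refine Dfn.eq ?_ ?_ | refine Dfn.subset ?_ ?_
      | refine Dfn.and ?_ ?_ | refine Dfn.or ?_ ?_ | refine Dfn.iff ?_ ?_ | refine Dfn.not ?_
      | refine Dfn.imp ?_ ?_ | refine Dfn.all ?_ | refine Dfn.ex ?_ | exact Dfn.false')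
    refine Ctb.image hN hc (hN.mem_of_mem hδ.mem hx) (F := fun u t => ∃ b a : N, t.1 = ZFSet.pair u.1 b.1 ∧
        ZFSet.pair u.1 a.1 ∈ (⟨g, hg⟩ : N).1 ∧ ∀ w : N, w.1 ∈ b.1 ↔ w.1 ∈ (⟨y, hyN⟩ : N).1 ∧ w.1 ∈ a.1) hd ?_ ?_
    · rintro u hu t t' ⟨b, a, h1, h2, h3⟩ ⟨b', a', h1', h2', h3'⟩
      have haa : a.1 = a'.1 := (hgf.ap_eq h2).symm.trans (hgf.ap_eq h2')
      apply Subtype.ext
      rw [h1, h1']
      congr 1
      ext w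
      constructor
      · intro hw
        have hwN := hN.mem_of_mem b.2 hw
        have h4 := (h3 ⟨w, hwN⟩).1 hw
        rw [haa] at h4
        exact (h3' ⟨w, hwN⟩).2 h4
      · intro hw
        have hwN := hN.mem_of_mem b'.2 hw
        have h4 := (h3' ⟨w, hwN⟩).1 hw
        rw [← haa] at h4
        exact (h3 ⟨w, hwN⟩).2 h4
    · intro t ht
      have htp := hpz t ht
      obtain ⟨s, hs, t', ht', h1⟩ := mem_LX htp
      rw [ZFSet.pair_inj] at h1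
      obtain ⟨rfl, rfl⟩ := h1
      obtain ⟨x1, hx1, y1, hy1, rfl, _⟩ := mem_TX hs
      obtain ⟨_, _, h2, h3⟩ := pair_mem_LX.1 htp
      have hx1N := hN.mem_of_mem hδ.mem hx1
      have hy1N := hN.mem_of_mem hX hy1
      refine ⟨⟨x1, hx1N⟩, ⟨_, hN.pair_mem hx1N hy1N⟩, h2, rfl, ⟨y1, hy1N⟩,
        ⟨ap g x1, hN.mem_of_mem hX (hgf.ap_mem hx1).1⟩, rfl, (hgf.ap_mem hx1).2, fun w => ?_⟩
      show w.1 ∈ y1 ↔ w.1 ∈ y ∧ w.1 ∈ ap g x1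
      rw [h3, ZFSet.mem_inter]

omit hN in
theorem wf_TX {δ : Ordinal.{0}} {X g : ZFSet.{0}} (D : ZFSet.{0}) (hD : D ⊆ TX δ X g) (hne : ∃ x, x ∈ D) :
    ∃ m ∈ D, ∀ x ∈ D, ZFSet.pair x m ∉ LX δ X g := by
  have hne' : ({x : ZFSet.{0} | ∃ y, ZFSet.pair x y ∈ D} : Set ZFSet.{0}).Nonempty := by
    obtain ⟨t, ht⟩ := hne
    obtain ⟨x, _, y, _, rfl, _⟩ := mem_TX (hD ht)
    exact ⟨x, y, ht⟩
  obtain ⟨x₀, ⟨y₀, h₀⟩, hmin⟩ := ZFSet.mem_wf.has_min _ hne'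
  refine ⟨ZFSet.pair x₀ y₀, h₀, fun t ht hL => ?_⟩
  obtain ⟨x, _, y, _, rfl, _⟩ := mem_TX (hD ht)
  exact hmin x ⟨y, ht⟩ (pair_mem_LX.1 hL).2.2.1

theorem cvr_TX {δ : Ordinal.{0}} (hδ : IsOm1 N δ) {X g : ZFSet.{0}} (hX : X ∈ N) (hXc : Cvr N δ.toZFSet X) :
    Cvr N δ.toZFSet (TX δ X g) :=
  Cvr.mono (cvr_prod2_om1 hN hδ hδ.mem hX (cvr_of_subset hN hδ.mem (fun x hx => hx)) hXc)
    (fun t ht => (ZFSet.mem_sep.1 ht).1)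

end Pool.Agent.H88.IG
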