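import Pool.Agent.H88.IG.Df

/-!
# IG, part S: trees on other sets

`SP N δ` for trees `(T, L)` with `Cvr N δ T`.
Proof. Let `e` witness `Cvr N δ T` and `j(t)` the least `α ∈ δ` with `(α, t) ∈ e` (`exists_fn`): an injection
`j : T → δ`. Let `r = {(α, β) : ∃ s t, (s, α) ∈ j, (t, β) ∈ j, (s, t) ∈ L}` (`tk7_rel`). `TreeO N δ r`: if `(x, z) ∈ r`
for all `x ∈ p` then `p = ∅` or `z = j(u)` and `p` is contained in the image of the countable set `{s ∈ T : (s, u) ∈ L}`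
(`Ctb.image`). A chain `C ⊆ δ`, `C ∈ N`: `C' = {s ∈ T : j(s) ∈ C}` is a chain in `T`, so countable. If `C` has an
element `c` that is not of the form `j(s)` then `C = {c}`; otherwise `C` is the image of `C'`. So `C` is countable.
`SP N δ` gives `f₀`; `f = {(t, n) : ∃ α, (t, α) ∈ j, (α, n) ∈ f₀}`.
-/

set_option autoImplicit false
set_option linter.unusedVariables false
set_option linter.unusedSectionVars false
set_option linter.unusedSimpArgs false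
set_option linter.unusedTactic false
set_option linter.unreachableTactic false

namespace Pool.Agent.H88.IG

open Pool.Agent.H17.Omega Pool.Agent.H17.Omega.CTM Pool.Agent.H52.GX Pool.Agent.H52.GC Pool.Agent.H7.IG

variable {N : Set ZFSet.{0}} (hN : CTM N)

include hN

theorem sp_tree {δ : Ordinal.{0}} (hδ : IsOm1 N δ) (hSP : SP N δ) {T L : ZFSet.{0}} (hT : T ∈ N) (hL : L ∈ N)
    (hTL : TrO N T L) (hc : Cvr N δ.toZFSet T) (hch : ∀ C ∈ N, C ⊆ T → Lin L C → Ctb N C) :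
    ∃ f ∈ N, Fn f T omZ ∧ ∀ x y n, ZFSet.pair x y ∈ L → ZFSet.pair x n ∈ f → ZFSet.pair y n ∉ f := by
  classical
  obtain ⟨e, he, heu, hec⟩ := hc
  -- an injection of the tree into the first uncountable ordinal
  obtain ⟨j, hj, hjf, hje⟩ := exists_choice hN (F := fun t a => ZFSet.pair a.1 t.1 ∈ (⟨e, he⟩ : N).1) (by
    (repeat' first
      | exact DT.var _ | exact DT.last | exact DT.const _ | assumption
      | refine Dfn.pairMem ?_ ?_ ?_ | refine Dfn.isPair ?_ ?_ ?_ | refine Dfn.mem ?_ ?_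
      | refine Dfn.eqv ?_ ?_ | refine Dfn.eq ?_ ?_ | refine Dfn.subset ?_ ?_
      | refine Dfn.isEmpty ?_ | refine Dfn.isTrans ?_ | refine Dfn.isOrd ?_ | refine Dfn.isNat ?_
      | refine Dfn.and ?_ ?_ | refine Dfn.or ?_ ?_ | refine Dfn.iff ?_ ?_ | refine Dfn.not ?_
      | refine Dfn.imp ?_ ?_ | refine Dfn.all ?_ | refine Dfn.ex ?_ | exact Dfn.false')) hT hδ.mem (by
    intro t ht
    obtain ⟨a, ha, hat⟩ := hec t.1 ht
    exact ⟨⟨a, hN.mem_of_mem hδ.mem ha⟩, ha, hat⟩)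
  have hjT : ∀ {s a}, ZFSet.pair s a ∈ j → s ∈ T ∧ a ∈ δ.toZFSet := by
    intro s a h
    obtain ⟨s', hs', a', ha', h1⟩ := hjf.sub _ h
    rw [ZFSet.pair_inj] at h1
    rw [h1.1, h1.2]
    exact ⟨hs', ha'⟩
  have hju : ∀ {s a a'}, ZFSet.pair s a ∈ j → ZFSet.pair s a' ∈ j → a = a' := fun h h' =>
    hjf.uni _ (hjT h).1 _ (hjT h).2 _ (hjT h').2 h h'
  have hji : ∀ {s t a}, ZFSet.pair s a ∈ j → ZFSet.pair t a ∈ j → s = t := by
    intro s t a h h'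
    have ha := (hjT h).2
    have h1 := hje ⟨s, hN.mem_of_mem hT (hjT h).1⟩ ⟨a, hN.mem_of_mem hδ.mem ha⟩ h
    have h2 := hje ⟨t, hN.mem_of_mem hT (hjT h').1⟩ ⟨a, hN.mem_of_mem hδ.mem ha⟩ h'
    exact heu a ha s t h1 h2
  -- the order on the ordinal
  obtain ⟨r, hr, hr'⟩ := hN.exists_sep (P := fun z => ∃ a b s t : N, z.1 = ZFSet.pair a.1 b.1 ∧
      ZFSet.pair s.1 a.1 ∈ (⟨j, hj⟩ : N).1 ∧ ZFSet.pair t.1 b.1 ∈ (⟨j, hj⟩ : N).1 ∧
      ZFSet.pair s.1 t.1 ∈ (⟨L, hL⟩ : N).1) (by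
    (repeat' first
      | exact DT.var _ | exact DT.last | exact DT.const _ | assumption
      | refine Dfn.pairMem ?_ ?_ ?_ | refine Dfn.isPair ?_ ?_ ?_ | refine Dfn.mem ?_ ?_
      | refine Dfn.eqv ?_ ?_ | refine Dfn.eq ?_ ?_ | refine Dfn.subset ?_ ?_
      | refine Dfn.isEmpty ?_ | refine Dfn.isTrans ?_ | refine Dfn.isOrd ?_ | refine Dfn.isNat ?_
      | refine Dfn.and ?_ ?_ | refine Dfn.or ?_ ?_ | refine Dfn.iff ?_ ?_ | refine Dfn.not ?_
      | refine Dfn.imp ?_ ?_ | refine Dfn.all ?_ | refine Dfn.ex ?_ | exact Dfn.false')) (hN.prod_mem hδ.mem hδ.mem)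
  have hrp : ∀ a b, ZFSet.pair a b ∈ r ↔ ∃ s t, ZFSet.pair s a ∈ j ∧ ZFSet.pair t b ∈ j ∧ ZFSet.pair s t ∈ L := by
    intro a b
    rw [hr', ZFSet.pair_mem_prod]
    constructor
    · rintro ⟨_, _, a', b', s, t, h1, h2, h3, h4⟩
      have h1 : ZFSet.pair a b = ZFSet.pair a'.1 b'.1 := h1
      rw [ZFSet.pair_inj] at h1
      obtain ⟨rfl, rfl⟩ := h1
      exact ⟨s.1, t.1, h2, h3, h4⟩
    · rintro ⟨s, t, h1, h2, h3⟩
      have haN := hN.mem_of_mem hδ.mem (hjT h1).2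
      have hbN := hN.mem_of_mem hδ.mem (hjT h2).2
      exact ⟨⟨(hjT h1).2, (hjT h2).2⟩, hN.pair_mem haN hbN, ⟨a, haN⟩, ⟨b, hbN⟩,
        ⟨s, hN.mem_of_mem hT (hjT h1).1⟩, ⟨t, hN.mem_of_mem hT (hjT h2).1⟩, rfl, h1, h2, h3⟩
  have hrT : TreeO N δ r := by
    refine ⟨?_, ?_, ?_, ?_, ?_⟩
    · intro z hz
      obtain ⟨x, hx, y, hy, h1⟩ := ZFSet.mem_prod.1 ((hr' z).1 hz).1
      exact ⟨x, hx, y, hy, h1⟩
    · intro x hx
      obtain ⟨s, t, h1, h2, h3⟩ := (hrp x x).1 hx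
      obtain rfl := hji h1 h2
      exact hTL.irrefl _ h3
    · intro x y z hxy hyz
      obtain ⟨s, t, h1, h2, h3⟩ := (hrp x y).1 hxy
      obtain ⟨t', u, h4, h5, h6⟩ := (hrp y z).1 hyz
      obtain rfl := hji h2 h4
      exact (hrp x z).2 ⟨s, u, h1, h5, hTL.trans _ _ _ h3 h6⟩
    · intro x y z hxz hyz
      obtain ⟨s, u, h1, h2, h3⟩ := (hrp x z).1 hxz
      obtain ⟨t, u', h4, h5, h6⟩ := (hrp y z).1 hyz
      obtain rfl := hji h2 h5
      rcases hTL.tree _ _ _ h3 h6 with rfl | h | h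
      · exact Or.inl (hju h1 h4)
      · exact Or.inr (Or.inl ((hrp x y).2 ⟨s, t, h1, h4, h⟩))
      · exact Or.inr (Or.inr ((hrp y x).2 ⟨t, s, h4, h1, h⟩))
    · intro z hz p hp hpz
      by_cases hu : ∃ u, ZFSet.pair u z ∈ j
      · obtain ⟨u, hu⟩ := hu
        have huT := (hjT hu).1
        have huN := hN.mem_of_mem hT huT
        obtain ⟨P, hP, hP'⟩ := hN.exists_sep (P := fun s => ZFSet.pair s.1 (⟨u, huN⟩ : N).1 ∈ (⟨L, hL⟩ : N).1) (by
          (repeat' first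
      | exact DT.var _ | exact DT.last | exact DT.const _ | assumption
      | refine Dfn.pairMem ?_ ?_ ?_ | refine Dfn.isPair ?_ ?_ ?_ | refine Dfn.mem ?_ ?_
      | refine Dfn.eqv ?_ ?_ | refine Dfn.eq ?_ ?_ | refine Dfn.subset ?_ ?_
      | refine Dfn.isEmpty ?_ | refine Dfn.isTrans ?_ | refine Dfn.isOrd ?_ | refine Dfn.isNat ?_
      | refine Dfn.and ?_ ?_ | refine Dfn.or ?_ ?_ | refine Dfn.iff ?_ ?_ | refine Dfn.not ?_
      | refine Dfn.imp ?_ ?_ | refine Dfn.all ?_ | refine Dfn.ex ?_ | exact Dfn.false')) hT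
        have hPc : Ctb N P := hTL.ctb u huT P hP fun s hs => ((hP' s).1 hs).2.2
        refine Ctb.image hN hPc hP (F := fun s a => ZFSet.pair s.1 a.1 ∈ (⟨j, hj⟩ : N).1) (by
          (repeat' first
      | exact DT.var _ | exact DT.last | exact DT.const _ | assumption
      | refine Dfn.pairMem ?_ ?_ ?_ | refine Dfn.isPair ?_ ?_ ?_ | refine Dfn.mem ?_ ?_
      | refine Dfn.eqv ?_ ?_ | refine Dfn.eq ?_ ?_ | refine Dfn.subset ?_ ?_
      | refine Dfn.isEmpty ?_ | refine Dfn.isTrans ?_ | refine Dfn.isOrd ?_ | refine Dfn.isNat ?_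
      | refine Dfn.and ?_ ?_ | refine Dfn.or ?_ ?_ | refine Dfn.iff ?_ ?_ | refine Dfn.not ?_
      | refine Dfn.imp ?_ ?_ | refine Dfn.all ?_ | refine Dfn.ex ?_ | exact Dfn.false')) ?_ ?_
        · intro s _ a a' h1 h2
          exact Subtype.ext (hju h1 h2)
        · intro x hx
          obtain ⟨s, t, h1, h2, h3⟩ := (hrp x z).1 (hpz x hx)
          obtain rfl := hji h2 hu
          have hsN := hN.mem_of_mem hT (hjT h1).1
          exact ⟨⟨s, hsN⟩, ⟨x, hN.mem_of_mem hp hx⟩, (hP' s).2 ⟨(hjT h1).1, hsN, h3⟩, rfl, h1⟩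
      · refine (ctb_om hN).mono fun x hx => ?_
        obtain ⟨s, t, h1, h2, h3⟩ := (hrp x z).1 (hpz x hx)
        exact (hu ⟨t, h2⟩).elim
  obtain ⟨f₀, hf₀, hf₀f, hf₀s⟩ := hSP r hr hrT (by
    intro C hC hCδ hCl
    by_cases hcase : ∃ c ∈ C, ∀ s, ZFSet.pair s c ∉ j
    · obtain ⟨c, hcC, hcj⟩ := hcase
      have hcN := hN.mem_of_mem hC hcC
      refine (tk7_fin_ctb hN (a := {c}) (hN.singleton_mem hcN) ⟨{c}, fun z => by simp⟩).mono fun x hx => ?_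
      rw [ZFSet.mem_singleton]
      rcases hCl x hx c hcC with h | h | h
      · exact h
      · obtain ⟨s, t, _, h2, _⟩ := (hrp _ _).1 h
        exact (hcj t h2).elim
      · obtain ⟨s, t, h1, _, _⟩ := (hrp _ _).1 h
        exact (hcj s h1).elim
    · push Not at hcase
      obtain ⟨C', hC', hC''⟩ := hN.exists_sep (P := fun s => ∃ a : N, a.1 ∈ (⟨C, hC⟩ : N).1 ∧
          ZFSet.pair s.1 a.1 ∈ (⟨j, hj⟩ : N).1) (by
        (repeat' first
      | exact DT.var _ | exact DT.last | exact DT.const _ | assumption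
      | refine Dfn.pairMem ?_ ?_ ?_ | refine Dfn.isPair ?_ ?_ ?_ | refine Dfn.mem ?_ ?_
      | refine Dfn.eqv ?_ ?_ | refine Dfn.eq ?_ ?_ | refine Dfn.subset ?_ ?_
      | refine Dfn.isEmpty ?_ | refine Dfn.isTrans ?_ | refine Dfn.isOrd ?_ | refine Dfn.isNat ?_
      | refine Dfn.and ?_ ?_ | refine Dfn.or ?_ ?_ | refine Dfn.iff ?_ ?_ | refine Dfn.not ?_
      | refine Dfn.imp ?_ ?_ | refine Dfn.all ?_ | refine Dfn.ex ?_ | exact Dfn.false')) hT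
      have hC'c : Ctb N C' := by
        refine hch C' hC' (fun s hs => ((hC'' s).1 hs).1) ?_
        intro s hs t ht
        obtain ⟨_, _, a, ha, hsa⟩ := (hC'' s).1 hs
        obtain ⟨_, _, b, hb, htb⟩ := (hC'' t).1 ht
        have hsa : ZFSet.pair s a.1 ∈ j := hsa
        have htb : ZFSet.pair t b.1 ∈ j := htb
        rcases hCl a.1 ha b.1 hb with h | h | h
        · rw [← h] at htb
          exact Or.inl (hji hsa htb)
        · obtain ⟨s', t', h1, h2, h3⟩ := (hrp _ _).1 h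
          obtain rfl := hji h1 hsa
          obtain rfl := hji h2 htb
          exact Or.inr (Or.inl h3)
        · obtain ⟨s', t', h1, h2, h3⟩ := (hrp _ _).1 h
          obtain rfl := hji h1 htb
          obtain rfl := hji h2 hsa
          exact Or.inr (Or.inr h3)
      refine Ctb.image hN hC'c hC' (F := fun s a => ZFSet.pair s.1 a.1 ∈ (⟨j, hj⟩ : N).1) (by
        (repeat' first
      | exact DT.var _ | exact DT.last | exact DT.const _ | assumption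
      | refine Dfn.pairMem ?_ ?_ ?_ | refine Dfn.isPair ?_ ?_ ?_ | refine Dfn.mem ?_ ?_
      | refine Dfn.eqv ?_ ?_ | refine Dfn.eq ?_ ?_ | refine Dfn.subset ?_ ?_
      | refine Dfn.isEmpty ?_ | refine Dfn.isTrans ?_ | refine Dfn.isOrd ?_ | refine Dfn.isNat ?_
      | refine Dfn.and ?_ ?_ | refine Dfn.or ?_ ?_ | refine Dfn.iff ?_ ?_ | refine Dfn.not ?_
      | refine Dfn.imp ?_ ?_ | refine Dfn.all ?_ | refine Dfn.ex ?_ | exact Dfn.false')) ?_ ?_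
      · intro s _ a a' h1 h2
        exact Subtype.ext (hju h1 h2)
      · intro x hx
        obtain ⟨s, hs⟩ := hcase x hx
        have hsN := hN.mem_of_mem hT (hjT hs).1
        have hxN := hN.mem_of_mem hC hx
        exact ⟨⟨s, hsN⟩, ⟨x, hxN⟩, (hC'' s).2 ⟨(hjT hs).1, hsN, ⟨x, hxN⟩, hx, hs⟩, rfl, hs⟩)
  obtain ⟨f, hf, hff, hf'⟩ := exists_fn hN (F := fun t n => ∃ a : N, ZFSet.pair t.1 a.1 ∈ (⟨j, hj⟩ : N).1 ∧
      ZFSet.pair a.1 n.1 ∈ (⟨f₀, hf₀⟩ : N).1) (by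
    (repeat' first
      | exact DT.var _ | exact DT.last | exact DT.const _ | assumption
      | refine Dfn.pairMem ?_ ?_ ?_ | refine Dfn.isPair ?_ ?_ ?_ | refine Dfn.mem ?_ ?_
      | refine Dfn.eqv ?_ ?_ | refine Dfn.eq ?_ ?_ | refine Dfn.subset ?_ ?_
      | refine Dfn.isEmpty ?_ | refine Dfn.isTrans ?_ | refine Dfn.isOrd ?_ | refine Dfn.isNat ?_
      | refine Dfn.and ?_ ?_ | refine Dfn.or ?_ ?_ | refine Dfn.iff ?_ ?_ | refine Dfn.not ?_
      | refine Dfn.imp ?_ ?_ | refine Dfn.all ?_ | refine Dfn.ex ?_ | exact Dfn.false')) hT hN.omZ_mem (by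
    intro t ht
    obtain ⟨a, ha, hta⟩ := hjf.tot t.1 ht
    obtain ⟨n, hn, han⟩ := hf₀f.tot a ha
    refine ⟨⟨n, hN.mem_of_mem hN.omZ_mem hn⟩, hn, ⟨⟨a, hN.mem_of_mem hδ.mem ha⟩, hta, han⟩, ?_⟩
    rintro n' hn' ⟨a', h1, h2⟩
    have h3 : a'.1 = a := hju h1 hta
    rw [h3] at h2
    exact Subtype.ext (hf₀f.uni a ha _ hn' _ hn h2 han))
  refine ⟨f, hf, hff, ?_⟩
  intro x y n hxy hxn hyn
  obtain ⟨x', hx', n', hn', h1⟩ := hff.sub _ hxn
  rw [ZFSet.pair_inj] at h1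
  obtain ⟨rfl, rfl⟩ := h1
  obtain ⟨y', hy', n', hn'', h1⟩ := hff.sub _ hyn
  rw [ZFSet.pair_inj] at h1
  obtain ⟨rfl, rfl⟩ := h1
  have hxN := hN.mem_of_mem hT hx'
  have hyN := hN.mem_of_mem hT hy'
  have hnN := hN.mem_of_mem hN.omZ_mem hn'
  obtain ⟨_, _, a, h1, h2⟩ := (hf' ⟨x, hxN⟩ ⟨n, hnN⟩).1 hxn
  obtain ⟨_, _, b, h3, h4⟩ := (hf' ⟨y, hyN⟩ ⟨n, hnN⟩).1 hyn
  exact hf₀s a.1 b.1 n ((hrp _ _).2 ⟨x, y, h1, h3, hxy⟩) h2 h4

end Pool.Agent.H88.IG
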